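import Pool.Agent.Q183.RS.Cur

/-!
Sequences given by linear recurrences: algebraic over the coefficients, or on moving curves.
-/

set_option autoImplicit false

namespace Pool.Agent.Q183.RS

open MvPolynomial Filter Pool.Agent.TH143.DE Pool.Agent.TH143 Pool.Agent.TH143.GT

variable {n : ℕ} {B : Subalgebra ℂ (ℕ → ℂ)} {J : Type} [Fintype J]

/-- the sequences which vanish from some index on along a set of indices -/
def EA (A : Set ℕ) : Ideal (ℕ → ℂ) where
  carrier := {f | ∀ᶠ m in atTop, m ∈ A → f m = 0}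
  add_mem' := by
    intro f g hf hg
    filter_upwards [hf, hg] with m h1 h2 hm
    rw [Pi.add_apply, h1 hm, h2 hm, add_zero]
  zero_mem' := Eventually.of_forall fun _ _ => rfl
  smul_mem' := by
    intro c f hf
    filter_upwards [hf] with m h1 hm
    rw [smul_eq_mul, Pi.mul_apply, h1 hm, mul_zero]

theorem mem_EA {A : Set ℕ} {f : ℕ → ℂ} : f ∈ EA A ↔ ∀ᶠ m in atTop, m ∈ A → f m = 0 := Iff.rfl

theorem EZ_le_EA (A : Set ℕ) : EZ ≤ EA A := by
  intro f hf
  rw [mem_EA]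
  filter_upwards [mem_EZ.1 hf] with m hm _
  exact hm

/-- A curve with `R` terms `∑ w ^ (l i) • u i`, on which the polynomials of `S` vanish, passes
through `x` at `w = 1`, and the quotient of the linear functions is not stationary there. -/
def Moves (R : ℕ) (S : Set (MvPolynomial J ℂ)) (c1 c0 : J → ℂ) (a0 : ℂ) (x : J → ℂ) : Prop :=
  ∃ (l : Fin R → ℤ) (u : Fin R → J → ℂ), ∑ i, u i = x ∧
    (∀ F ∈ S, ∀ w : ℂ, w ≠ 0 → eval (∑ i, w ^ (l i) • u i) F = 0) ∧
    lf c1 (∑ i, (l i : ℂ) • u i) * (a0 + lf c0 x) - lf c1 x * lf c0 (∑ i, (l i : ℂ) • u i) ≠ 0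

/-- The quotient of the sequences `f` and `g` is algebraic over `B` along the set `A` of indices. -/
def AlgPair (B : Subalgebra ℂ (ℕ → ℂ)) (A : Set ℕ) (f g : ℕ → ℂ) : Prop :=
  ∃ (d : ℕ) (b : ℕ → ℕ → ℂ), (∀ k, b k ∈ B) ∧ (∃ k ≤ d, ¬ ∀ᶠ m in atTop, b k m = 0) ∧
    ∀ᶠ m in atTop, m ∈ A → ∑ k ∈ Finset.range (d + 1), b k m * f m ^ k * g m ^ (d - k) = 0

/-- The sequence `f` is algebraic over `B` along the set `A` of indices. -/
def AlgOn (B : Subalgebra ℂ (ℕ → ℂ)) (A : Set ℕ) (f : ℕ → ℂ) : Prop :=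
  ∃ (d : ℕ) (b : ℕ → ℕ → ℂ), (∀ k, b k ∈ B) ∧ (∃ k ≤ d, ¬ ∀ᶠ m in atTop, b k m = 0) ∧
    ∀ᶠ m in atTop, m ∈ A → ∑ k ∈ Finset.range (d + 1), b k m * f m ^ k = 0

theorem AlgPair.of_div {A : Set ℕ} {f g : ℕ → ℂ}
    (h : AlgOn B {m | m ∈ A ∧ g m ≠ 0} (fun m => f m / g m)) : AlgPair B A f g := by
  obtain ⟨d, b, hb, ⟨k0, hk0, hne⟩, h⟩ := h
  refine ⟨d + 1, fun k => if k ≤ d then b k else 0, fun k => ?_, ⟨k0, by omega, by
    simpa only [if_pos hk0] using hne⟩, ?_⟩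
  · change (if k ≤ d then b k else 0) ∈ B
    split_ifs
    · exact hb k
    · exact B.zero_mem
  · filter_upwards [h] with m hm hmA
    rw [Finset.sum_range_succ, if_neg (by omega : ¬ d + 1 ≤ d), Pi.zero_apply, zero_mul, zero_mul,
      add_zero]
    by_cases hg : g m = 0
    · refine Finset.sum_eq_zero fun k hk => ?_
      have h1 := Finset.mem_range.1 hk
      rw [hg, zero_pow (by omega), mul_zero]
    · have h1 := hm ⟨hmA, hg⟩
      have h2 : ∑ k ∈ Finset.range (d + 1), (if k ≤ d then b k else 0) m * f m ^ k *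
          g m ^ (d + 1 - k) = g m ^ (d + 1) *
            ∑ k ∈ Finset.range (d + 1), b k m * (f m / g m) ^ k := by
        rw [Finset.mul_sum]
        refine Finset.sum_congr rfl fun k hk => ?_
        have h3 := Finset.mem_range.1 hk
        rw [if_pos (by omega : k ≤ d), div_pow]
        have h4 : g m ^ (d + 1) = g m ^ (d + 1 - k) * g m ^ k := by
          rw [← pow_add]
          congr 1
          omega
        rw [h4]
        have h5 : g m ^ k ≠ 0 := pow_ne_zero _ hg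
        field_simp
      rw [h2, h1, mul_zero]

theorem val_eval₂ (P : Polynomial B) (f : ℕ → ℂ) (m : ℕ) :
    (P.eval₂ (B.val : B →+* (ℕ → ℂ)) f) m =
      ∑ k ∈ Finset.range (P.natDegree + 1), ((P.coeff k : B) : ℕ → ℂ) m * f m ^ k := by
  rw [Polynomial.eval₂_eq_sum_range, Finset.sum_apply]
  rfl

/-- either algebraic, or transcendental modulo a prime ideal -/
theorem alg_or_prime (hB : CoefField B) (A : Set ℕ) (f : ℕ → ℂ) (h : ¬ AlgOn B A f) :
    ∃ (I : Ideal (ℕ → ℂ)) (_ : I.IsPrime), EZ ≤ I ∧ EA A ≤ I ∧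
      ∀ P : Polynomial B, P.map (Ideal.Quotient.mk (ez B)) ≠ 0 →
        P.eval₂ (B.val : B →+* (ℕ → ℂ)) f ∉ I := by
  classical
  have hmax := ez_maximal hB
  have hprime : (ez B).IsPrime := hmax.isPrime
  have hdomB : IsDomain (B ⧸ ez B) := Ideal.Quotient.isDomain (ez B)
  let T : Submonoid (ℕ → ℂ) :=
    { carrier := {g | ∃ P : Polynomial B, P.map (Ideal.Quotient.mk (ez B)) ≠ 0 ∧
        g = P.eval₂ (B.val : B →+* (ℕ → ℂ)) f}
      mul_mem' := by
        rintro _ _ ⟨P, hP, rfl⟩ ⟨P', hP', rfl⟩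
        refine ⟨P * P', ?_, ?_⟩
        · rw [Polynomial.map_mul]
          exact mul_ne_zero hP hP'
        · rw [Polynomial.eval₂_mul]
      one_mem' := ⟨1, by rw [Polynomial.map_one]; exact one_ne_zero, by
        rw [Polynomial.eval₂_one]⟩ }
  have hdisj : Disjoint (EA A : Set (ℕ → ℂ)) T := by
    rw [Set.disjoint_left]
    rintro g hg ⟨P, hP, rfl⟩
    apply h
    refine ⟨P.natDegree, fun k => ((P.coeff k : B) : ℕ → ℂ), fun k => (P.coeff k).2, ?_, ?_⟩
    · by_contra hcon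
      push Not at hcon
      apply hP
      ext k
      rw [Polynomial.coeff_map, Polynomial.coeff_zero]
      refine Ideal.Quotient.eq_zero_iff_mem.2 (mem_ez.2 ?_)
      by_cases hk : k ≤ P.natDegree
      · exact hcon k hk
      · rw [Polynomial.coeff_eq_zero_of_natDegree_lt (not_le.1 hk)]
        exact Eventually.of_forall fun _ => rfl
    · filter_upwards [mem_EA.1 hg] with m hm hmA
      rw [← val_eval₂]
      exact hm hmA
  obtain ⟨I, hIp, hI, hIT⟩ := Ideal.exists_le_prime_disjoint (EA A) T hdisj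
  exact ⟨I, hIp, (EZ_le_EA A).trans hI, hI, fun P hP hPI => Set.disjoint_left.1 hIT hPI ⟨P, hP, rfl⟩⟩

/-- transcendence in the field of a prime ideal -/
theorem trans_of_prime (hB : CoefField B) {I : Ideal (ℕ → ℂ)} (hI : EZ ≤ I) (hIp : I.IsPrime)
    (K : Type) [Field K] [Algebra ((ℕ → ℂ) ⧸ I) K] [IsFractionRing ((ℕ → ℂ) ⧸ I) K]
    [Algebra ℂ K] [IsScalarTower ℂ ((ℕ → ℂ) ⧸ I) K] {f : ℕ → ℂ}
    (h : ∀ P : Polynomial B, P.map (Ideal.Quotient.mk (ez B)) ≠ 0 →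
        P.eval₂ (B.val : B →+* (ℕ → ℂ)) f ∉ I) :
    Transcendental (cf hB hI K) (kl (I := I) K f) := by
  classical
  have hdom : IsDomain ((ℕ → ℂ) ⧸ I) := Ideal.Quotient.isDomain I
  intro halg
  obtain ⟨p, hp0, hp⟩ := halg
  let φ : (ℕ → ℂ) →+* K := (algebraMap ((ℕ → ℂ) ⧸ I) K).comp (mk' I : (ℕ → ℂ) →+* (ℕ → ℂ) ⧸ I)
  have hφ : ∀ g, φ g = kl (I := I) K g := fun _ => rfl
  let θ : B →+* cf hB hI K := (φ.comp (B.val : B →+* (ℕ → ℂ))).codRestrict (cf hB hI K)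
    fun b => ⟨b, b.2, rfl⟩
  have hθ : Function.Surjective θ := by
    rintro ⟨z, b, hb, rfl⟩
    exact ⟨⟨b, hb⟩, rfl⟩
  obtain ⟨P, rfl⟩ := Polynomial.map_surjective θ hθ p
  have hθφ : (algebraMap (cf hB hI K) K).comp θ = φ.comp (B.val : B →+* (ℕ → ℂ)) := rfl
  rw [Polynomial.aeval_def, Polynomial.eval₂_map, hθφ, ← hφ, ← Polynomial.hom_eval₂] at hp
  have h1 : P.map (Ideal.Quotient.mk (ez B)) ≠ 0 := by
    intro h0
    apply hp0
    ext1 k
    have h2 := congrArg (fun q => Polynomial.coeff q k) h0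
    simp only [Polynomial.coeff_map, Polynomial.coeff_zero] at h2
    rw [Polynomial.coeff_map, Polynomial.coeff_zero]
    have h3 : P.coeff k ∈ ez B := Ideal.Quotient.eq_zero_iff_mem.1 h2
    apply Subtype.ext
    change algebraMap ((ℕ → ℂ) ⧸ I) K (mk' I ((P.coeff k : B) : ℕ → ℂ)) = 0
    have h4 : mk' I ((P.coeff k : B) : ℕ → ℂ) = 0 := mk'_zero.2 (hI (mem_EZ.2 (mem_ez.1 h3)))
    rw [h4, map_zero]
  refine h P h1 ?_
  have h5 : algebraMap ((ℕ → ℂ) ⧸ I) K (mk' I (P.eval₂ (B.val : B →+* (ℕ → ℂ)) f)) = 0 := hp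
  rw [map_eq_zero_iff _ (IsFractionRing.injective ((ℕ → ℂ) ⧸ I) K)] at h5
  exact mk'_zero.1 h5

/-- **Sequences given by linear recurrences** are algebraic over the coefficients along each set of
indices along which no curves move. -/
theorem alg_main (hB : CoefField B) {q R : ℕ} (hR : Fintype.card J * q ≤ R) {x : ℕ → J → ℂ}
    (hx : ∀ j, RecO B q (fun m => x m j)) (S : Set (MvPolynomial J ℂ))
    (hS : ∀ F ∈ S, ∀ᶠ m in atTop, eval (x m) F = 0) :
    ∃ t : ℕ, ∀ (A : Set ℕ) (c1 c0 : J → ℂ) (a0 : ℂ),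
      (∀ᶠ m in atTop, m ∈ A → a0 + lf c0 (x m) ≠ 0) →
      (∀ᶠ m in atTop, m ∈ A → ¬ Moves R S c1 c0 a0 (x m)) →
      AlgOn B {m | m + t ∈ A} (fun m => lf c1 (x (m + t)) / (a0 + lf c0 (x (m + t)))) := by
  classical
  obtain ⟨t, ht⟩ := curves hB hR hx
  refine ⟨t, fun A c1 c0 a0 hz0 hno => ?_⟩
  by_contra hcon
  obtain ⟨I, hIp, hI, hIA, hIP⟩ := alg_or_prime hB _ _ hcon
  have hdom : IsDomain ((ℕ → ℂ) ⧸ I) := Ideal.Quotient.isDomain I
  let K := FractionRing ((ℕ → ℂ) ⧸ I)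
  have htr := trans_of_prime hB hI hIp K hIP
  have hz0t := eventually_shift hz0 t
  have hkz0 : kl (I := I) K (fun m => a0 + lf c0 (x (m + t))) ≠ 0 := by
    intro h0
    unfold kl at h0
    rw [map_eq_zero_iff _ (IsFractionRing.injective ((ℕ → ℂ) ⧸ I) K)] at h0
    have h2 := mk'_zero.1 h0
    have h3 : (fun m => (a0 + lf c0 (x (m + t)))⁻¹ * (a0 + lf c0 (x (m + t)))) ∈ I :=
      I.mul_mem_left (fun m => (a0 + lf c0 (x (m + t)))⁻¹) h2
    have h4 : (1 : ℕ → ℂ) - (fun m => (a0 + lf c0 (x (m + t)))⁻¹ * (a0 + lf c0 (x (m + t)))) ∈ I := by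
      apply hIA
      rw [mem_EA]
      filter_upwards [hz0t] with m hm hmA
      rw [Pi.sub_apply, Pi.one_apply, inv_mul_cancel₀ (hm hmA), sub_self]
    have h5 := I.add_mem h4 h3
    rw [sub_add_cancel] at h5
    exact hIp.ne_top ((Ideal.eq_top_iff_one I).2 h5)
  have hdiv : kl (I := I) K (fun m => lf c1 (x (m + t)) / (a0 + lf c0 (x (m + t)))) =
      kl (I := I) K (fun m => lf c1 (x (m + t))) /
        kl (I := I) K (fun m => a0 + lf c0 (x (m + t))) := by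
    rw [eq_div_iff hkz0]
    unfold kl
    rw [← map_mul, ← map_mul]
    congr 1
    rw [← sub_eq_zero, ← map_sub]
    refine mk'_zero.2 (hIA ?_)
    rw [mem_EA]
    filter_upwards [hz0t] with m hm hmA
    rw [Pi.sub_apply, Pi.mul_apply, div_mul_cancel₀ _ (hm hmA), sub_self]
  rw [hdiv] at htr
  obtain ⟨l, u, h1, h2, h3⟩ := ht I hI hIp K c1 c0 a0 hkz0 htr
  -- finitely many polynomials
  obtain ⟨T, hTs, hT⟩ : ∃ T : Finset (MvPolynomial J ℂ), (T : Set _) ⊆ S ∧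
      Ideal.span S = Ideal.span (T : Set (MvPolynomial J ℂ)) :=
    Submodule.fg_span_iff_fg_span_finset_subset S |>.1 (IsNoetherian.noetherian _)
  have hJT : ∀ᶠ m in atTop, ∀ F ∈ T, ∀ w : ℂ, w ≠ 0 → eval (∑ i, w ^ (l i) • u m i) F = 0 := by
    rw [Finset.eventually_all]
    intro F hF
    exact h2 F (hS F (hTs hF))
  apply h3
  apply hIA
  rw [mem_EA]
  filter_upwards [h1, hJT, eventually_shift hno t] with m h4 h5 h6 hmA
  by_contra hne
  refine h6 hmA ⟨l, u m, h4, fun F hF w hw => ?_, ?_⟩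
  · have h7 : Ideal.span (T : Set (MvPolynomial J ℂ)) ≤
        RingHom.ker (eval (∑ i, w ^ (l i) • u m i)) :=
      Ideal.span_le.2 fun G hG => h5 G hG w hw
    rw [← hT] at h7
    exact h7 (Ideal.subset_span hF)
  · exact hne

end Pool.Agent.Q183.RS
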