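import Pool.Agent.Q183.RS.Par
import Pool.Agent.TH409.SH.Conv
import Pool.Agent.Y215.AF.LogConv

/-!
Converse: on uniruled varieties the ratios of recurrent coordinates need not be algebraic.
-/

set_option autoImplicit false

namespace Pool.Agent.Q183.RS

open MvPolynomial Filter Pool.Agent.TH143.DE Pool.Agent.H533R3.SL Cardinal Topology

variable {K : Type} [Field K]

/-- The sequence `f` satisfies a nontrivial linear recurrence of order at most `r` with constant
coefficients. -/
def CRecO (r : ℕ) (f : ℕ → K) : Prop :=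
  ∃ a : ℕ → K, (∃ k ≤ r, a k ≠ 0) ∧
    ∀ m : ℕ, ∑ k ∈ Finset.range (r + 1), a k * f (m + k) = 0

theorem crec_expsum {r : ℕ} (c β : Fin r → K) : CRecO r (fun m => ∑ i, c i * β i ^ m) := by
  classical
  let χ : Polynomial K := ∏ i, (Polynomial.X - Polynomial.C (β i))
  have hmon : χ.Monic := Polynomial.monic_prod_of_monic _ _ fun i _ => Polynomial.monic_X_sub_C _
  have hdeg : χ.natDegree = r := by
    rw [Polynomial.natDegree_prod_of_monic _ _ fun i _ => Polynomial.monic_X_sub_C _]
    simp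
  refine ⟨fun k => χ.coeff k, ⟨r, le_rfl, ?_⟩, fun m => ?_⟩
  · have h1 : χ.coeff r = 1 := by
      rw [← hdeg]
      exact hmon.coeff_natDegree
    change χ.coeff r ≠ 0
    rw [h1]
    exact one_ne_zero
  · have h1 : ∀ i, ∑ k ∈ Finset.range (r + 1), χ.coeff k * β i ^ k = 0 := by
      intro i
      have h2 : χ.eval (β i) = 0 := by
        simp only [χ]
        rw [Polynomial.eval_prod]
        exact Finset.prod_eq_zero (Finset.mem_univ i) (by simp)
      rw [← h2, Polynomial.eval_eq_sum_range, hdeg]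
    calc ∑ k ∈ Finset.range (r + 1), χ.coeff k * ∑ i, c i * β i ^ (m + k)
        = ∑ i, c i * β i ^ m * ∑ k ∈ Finset.range (r + 1), χ.coeff k * β i ^ k := by
          simp only [Finset.mul_sum]
          rw [Finset.sum_comm]
          refine Finset.sum_congr rfl fun i _ => Finset.sum_congr rfl fun k _ => ?_
          rw [pow_add]
          ring
      _ = 0 := by
          refine Finset.sum_eq_zero fun i _ => ?_
          rw [h1, mul_zero]

theorem CRecO.recK {B : Subalgebra K (ℕ → K)} {r : ℕ} {f : ℕ → K} (h : CRecO r f) :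
    RecK B r f := by
  obtain ⟨a, ⟨k0, hk0, hne⟩, h⟩ := h
  refine ⟨fun k => algebraMap K (ℕ → K) (a k), fun k => B.algebraMap_mem _, ⟨k0, hk0, fun h0 => ?_⟩,
    Eventually.of_forall h⟩
  obtain ⟨m, hm⟩ := h0.exists
  exact hne hm

theorem CRecO.prec {r : ℕ} {f : ℕ → K} (h : CRecO r f) : PRecO r f := by
  obtain ⟨a, ⟨k0, hk0, hne⟩, h⟩ := h
  refine ⟨fun k => Polynomial.C (a k), ⟨k0, hk0, fun h0 => hne (Polynomial.C_eq_zero.1 h0)⟩,
    fun m => ?_⟩
  rw [← h m]
  exact Finset.sum_congr rfl fun k _ => by rw [Polynomial.eval_C]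

/-! ### independence of `m` and `2 ^ m` -/

theorem poly_mul_pow_tendsto (h : Polynomial ℂ) {k : ℕ} (hk : 0 < k) :
    Tendsto (fun m : ℕ => h.eval (m : ℂ) * ((2 : ℂ) ^ (k * m))⁻¹) atTop (𝓝 0) := by
  have h1 : (fun m : ℕ => h.eval (m : ℂ) * ((2 : ℂ) ^ (k * m))⁻¹) = fun m : ℕ =>
      ∑ i ∈ Finset.range (h.natDegree + 1), h.coeff i * ((m : ℂ) ^ i * (((2 : ℂ) ^ k)⁻¹) ^ m) := by
    funext m
    rw [Polynomial.eval_eq_sum_range, Finset.sum_mul]
    refine Finset.sum_congr rfl fun i _ => ?_
    rw [pow_mul, inv_pow, mul_assoc]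
  rw [h1]
  have h2 : (0 : ℂ) = ∑ i ∈ Finset.range (h.natDegree + 1), h.coeff i * 0 := by simp
  rw [h2]
  refine tendsto_finset_sum _ fun i _ => Tendsto.const_mul _ ?_
  rw [tendsto_zero_iff_norm_tendsto_zero]
  have h3 : (fun m : ℕ => ‖(m : ℂ) ^ i * (((2 : ℂ) ^ k)⁻¹) ^ m‖) =
      fun m : ℕ => (m : ℝ) ^ i * (((2 : ℝ) ^ k)⁻¹) ^ m := by
    funext m
    simp
  rw [h3]
  refine tendsto_pow_const_mul_const_pow_of_abs_lt_one i ?_
  rw [abs_of_pos (by positivity)]
  exact inv_lt_one_of_one_lt₀ (one_lt_pow₀ _root_.one_lt_two hk.ne')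

theorem indep_two (L : ℕ) (h : ℕ → Polynomial ℂ)
    (h0 : ∀ᶠ m : ℕ in atTop, ∑ l ∈ Finset.range L, (h l).eval (m : ℂ) * (2 : ℂ) ^ (l * m) = 0) :
    ∀ l < L, h l = 0 := by
  induction L with
  | zero => intro l hl; exact absurd hl (Nat.not_lt_zero l)
  | succ L ih =>
    have htop : h L = 0 := by
      by_contra hne
      have h1 : ∀ᶠ m : ℕ in atTop, (h L).eval (m : ℂ) =
          -∑ l ∈ Finset.range L, (h l).eval (m : ℂ) * ((2 : ℂ) ^ ((L - l) * m))⁻¹ := by
        filter_upwards [h0] with m hm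
        rw [Finset.sum_range_succ] at hm
        have h2 : (2 : ℂ) ^ (L * m) ≠ 0 := pow_ne_zero _ two_ne_zero
        apply mul_right_cancel₀ h2
        rw [neg_mul, Finset.sum_mul]
        have h3 : ∀ l ∈ Finset.range L, (h l).eval (m : ℂ) * ((2 : ℂ) ^ ((L - l) * m))⁻¹ *
            (2 : ℂ) ^ (L * m) = (h l).eval (m : ℂ) * (2 : ℂ) ^ (l * m) := by
          intro l hl
          have h4 := Finset.mem_range.1 hl
          have h5 : L * m = (L - l) * m + l * m := by
            rw [← Nat.add_mul]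
            congr 1
            omega
          rw [h5, pow_add, mul_assoc, inv_mul_cancel_left₀ (pow_ne_zero _ two_ne_zero)]
        rw [Finset.sum_congr rfl h3]
        linear_combination hm
      have h2 : Tendsto (fun m : ℕ => (h L).eval (m : ℂ)) atTop (𝓝 0) := by
        rw [tendsto_congr' h1]
        have h3 : (0 : ℂ) = -∑ l ∈ Finset.range L, (0 : ℂ) := by simp
        rw [h3]
        refine (tendsto_finset_sum _ fun l hl => ?_).neg
        exact poly_mul_pow_tendsto (h l) (by have := Finset.mem_range.1 hl; omega)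
      by_cases hd : 0 < (h L).degree
      · have h3 : Tendsto (fun m : ℕ => ‖(h L).eval (m : ℂ)‖) atTop atTop := by
          refine (h L).tendsto_norm_atTop hd ?_
          simp only [Complex.norm_natCast]
          exact tendsto_natCast_atTop_atTop
        have h4 := h2.norm
        rw [norm_zero] at h4
        exact not_tendsto_nhds_of_tendsto_atTop h3 _ h4
      · have h3 := Polynomial.eq_C_of_degree_le_zero (not_lt.1 hd)
        rw [h3] at h2
        simp only [Polynomial.eval_C] at h2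
        have h4 := tendsto_nhds_unique h2 tendsto_const_nhds
        rw [← h4, Polynomial.C_0] at h3
        exact hne h3
    intro l hl
    rcases Nat.lt_succ_iff_lt_or_eq.1 hl with h1 | h1
    · refine ih ?_ l h1
      filter_upwards [h0] with m hm
      rwa [Finset.sum_range_succ, htop, Polynomial.eval_zero, zero_mul, add_zero] at hm
    · rw [h1, htop]

/-- a relation between two polynomials in `2 ^ m` forces them to be proportional -/
theorem prop_of_rel [CharZero K] (e : K →+* ℂ) {p q : Polynomial K} {d : ℕ}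
    {b : ℕ → Polynomial K} (hb : ∃ k ≤ d, b k ≠ 0)
    (h : ∀ᶠ m : ℕ in atTop, ∑ k ∈ Finset.range (d + 1),
      (b k).eval (m : K) * p.eval (2 ^ m) ^ k * q.eval (2 ^ m) ^ (d - k) = 0) (s t : K) :
    p.eval s * q.eval t = q.eval s * p.eval t := by
  classical
  let W : Polynomial (Polynomial K) := ∑ k ∈ Finset.range (d + 1),
    Polynomial.C (b k) * (p.map Polynomial.C) ^ k * (q.map Polynomial.C) ^ (d - k)
  have hWe : ∀ m : ℕ, (W.map (Polynomial.evalRingHom (m : K))).eval (2 ^ m) =
      ∑ k ∈ Finset.range (d + 1),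
      (b k).eval (m : K) * p.eval (2 ^ m) ^ k * q.eval (2 ^ m) ^ (d - k) := by
    intro m
    have h1 : (Polynomial.evalRingHom (m : K)).comp Polynomial.C = RingHom.id K := by
      ext c
      simp
    simp only [W, Polynomial.map_sum, Polynomial.map_mul, Polynomial.map_pow, Polynomial.map_C,
      Polynomial.map_map, h1, Polynomial.map_id, Polynomial.eval_finsetSum, Polynomial.eval_mul,
      Polynomial.eval_pow, Polynomial.eval_C]
    rfl
  have hW0 : W = 0 := by
    have h1 := indep_two (W.natDegree + 1) (fun l => (W.coeff l).map e) (by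
      filter_upwards [h] with m hm
      rw [← hWe, Polynomial.eval_eq_sum_range' (n := W.natDegree + 1)
        (Nat.lt_succ_of_le (Polynomial.natDegree_map_le))] at hm
      have h2 := congrArg e hm
      rw [map_zero, map_sum] at h2
      rw [← h2]
      refine Finset.sum_congr rfl fun l _ => ?_
      rw [map_mul, map_pow, map_pow, Polynomial.coeff_map, Polynomial.coe_evalRingHom,
        Polynomial.eval_map, map_ofNat, ← pow_mul, mul_comm m l]
      congr 1
      rw [Polynomial.eval₂_eq_eval_map, ← map_natCast e m, Polynomial.eval_map,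
        Polynomial.eval₂_hom])
    ext l : 1
    by_cases hl : l < W.natDegree + 1
    · have h2 := h1 l hl
      rw [Polynomial.coeff_zero]
      exact (Polynomial.map_eq_zero e).1 h2
    · rw [Polynomial.coeff_zero, Polynomial.coeff_eq_zero_of_natDegree_lt (by omega)]
  obtain ⟨k0, hk0, hne⟩ := hb
  obtain ⟨c, hc⟩ : ∃ c : K, (b k0).eval c ≠ 0 := by
    by_contra hcon
    push Not at hcon
    exact hne (Polynomial.funext fun c => by rw [hcon c, Polynomial.eval_zero])
  have hrel : ∑ k ∈ Finset.range (d + 1), Polynomial.C ((b k).eval c) * p ^ k * q ^ (d - k) = 0 := by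
    have h1 : (Polynomial.evalRingHom c).comp Polynomial.C = RingHom.id K := by
      ext c
      simp
    have h2 := congrArg (Polynomial.map (Polynomial.evalRingHom c)) hW0
    simp only [W, Polynomial.map_sum, Polynomial.map_mul, Polynomial.map_pow, Polynomial.map_C,
      Polynomial.map_map, h1, Polynomial.map_id, Polynomial.map_zero] at h2
    exact h2
  by_cases hq : q = 0
  · simp [hq]
  let Bp : Polynomial K := ∑ k ∈ Finset.range (d + 1),
    Polynomial.C ((b k).eval c) * Polynomial.X ^ k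
  have hBp : Bp ≠ 0 := by
    intro h0
    apply hc
    have h1 := congrArg (fun P => Polynomial.coeff P k0) h0
    simp only [Bp, Polynomial.finsetSum_coeff, Polynomial.coeff_C_mul_X_pow,
      Polynomial.coeff_zero] at h1
    rwa [Finset.sum_ite_eq, if_pos (Finset.mem_range.2 (by omega))] at h1
  have hprod : q * (Bp.roots.toFinset.prod fun ζ => p - Polynomial.C ζ * q) = 0 := by
    apply Polynomial.funext
    intro u
    rw [Polynomial.eval_mul, Polynomial.eval_zero, Polynomial.eval_prod]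
    by_cases hu : q.eval u = 0
    · rw [hu, zero_mul]
    · have h1 : Bp.eval (p.eval u / q.eval u) = 0 := by
        have h2 := congrArg (Polynomial.eval u) hrel
        simp only [Polynomial.eval_finsetSum, Polynomial.eval_mul, Polynomial.eval_pow,
          Polynomial.eval_C, Polynomial.eval_zero] at h2
        simp only [Bp, Polynomial.eval_finsetSum, Polynomial.eval_mul, Polynomial.eval_pow,
          Polynomial.eval_C, Polynomial.eval_X]
        have h3 : q.eval u ^ d * ∑ k ∈ Finset.range (d + 1),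
            (b k).eval c * (p.eval u / q.eval u) ^ k = 0 := by
          rw [← h2, Finset.mul_sum]
          refine Finset.sum_congr rfl fun k hk => ?_
          have h4 := Finset.mem_range.1 hk
          have h5 : q.eval u ^ d = q.eval u ^ (d - k) * q.eval u ^ k := by
            rw [← pow_add]
            congr 1
            omega
          rw [h5, div_pow]
          have h6 : q.eval u ^ k * (p.eval u ^ k / q.eval u ^ k) = p.eval u ^ k :=
            mul_div_cancel₀ _ (pow_ne_zero _ hu)
          linear_combination (q.eval u ^ (d - k) * (b k).eval c) * h6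
        exact (mul_eq_zero.1 h3).resolve_left (pow_ne_zero _ hu)
      rw [mul_eq_zero]
      right
      refine Finset.prod_eq_zero (i := p.eval u / q.eval u) ?_ ?_
      · rw [Multiset.mem_toFinset, Polynomial.mem_roots hBp]
        exact h1
      · rw [Polynomial.eval_sub, Polynomial.eval_mul, Polynomial.eval_C, div_mul_cancel₀ _ hu,
          sub_self]
  rcases mul_eq_zero.1 hprod with h1 | h1
  · exact absurd h1 hq
  · obtain ⟨ζ, -, hζ⟩ := Finset.prod_eq_zero_iff.1 h1
    rw [sub_eq_zero] at hζ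
    rw [hζ]
    simp only [Polynomial.eval_mul, Polynomial.eval_C]
    ring

theorem pow_two_ev [CharZero K] {P : Polynomial K} (hP : P ≠ 0) :
    ∀ᶠ m : ℕ in atTop, P.eval (2 ^ m) ≠ 0 := by
  have h1 : {z | P.eval z = 0}.Finite := Polynomial.finite_setOfPred_isRoot hP
  have hinj : Function.Injective fun m : ℕ => (2 : K) ^ m := by
    intro m m' h
    have h4 : ((2 ^ m : ℕ) : K) = ((2 ^ m' : ℕ) : K) := by push_cast; exact h
    exact Nat.pow_right_injective (le_refl 2) (Nat.cast_injective h4)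
  have h2 := h1.preimage (hinj.injOn (s := (fun m : ℕ => (2 : K) ^ m) ⁻¹' {z | P.eval z = 0}))
  have h3 := h2.compl_mem_cofinite
  rw [Nat.cofinite_eq_atTop] at h3
  exact h3

theorem eval_cur' {R N : ℕ} (w : Fin R → Fin (N + 1) → K) (j : Fin (N + 1)) (t : K) :
    (cur w (fun j => (j : ℕ)) j).eval t = ∑ i : Fin R, w i j * t ^ (i : ℕ) := by
  unfold cur
  rw [Polynomial.eval_finsetSum]
  exact Finset.sum_congr rfl fun i _ => by simp

/-- **Converse, projective case.** -/
theorem conv_proj {k : Type} [Field k] [NumberField k] {N : ℕ}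
    (FF : Set (MvPolynomial (Fin (N + 1)) k)) (hu : Uniruled (Ideal.span FF)) :
    ∃ r : ℕ, ∀ G : MvPolynomial (Fin (N + 1)) k, (∃ e, G.IsHomogeneous e) → G ∉ Ideal.span FF →
      ∃ (K : Type) (_ : Field K) (_ : NumberField K) (_ : Algebra k K)
        (x : ℕ → Fin (N + 1) → K), (∀ j, CRecO r (fun m => x m j)) ∧ (∀ m, x m ≠ 0) ∧
        (∀ F ∈ FF, ∀ m, aeval (x m) F = 0) ∧ (∀ m, aeval (x m) G ≠ 0) ∧
        ∃ i j, ¬ AlgIndex Set.univ (fun m => x m i) (fun m => x m j) := by
  classical
  obtain ⟨L, iL, iA, p, hp1, hp2, hp3⟩ := hu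
  set n : ℕ := Finset.univ.sup (fun i => (p i).natDegree) + 1 with hn
  have hNc : ∀ i m, n ≤ m → (p i).coeff m = 0 := by
    intro i m hm
    apply Polynomial.coeff_eq_zero_of_natDegree_lt
    have := Finset.le_sup (f := fun i => (p i).natDegree) (Finset.mem_univ i)
    omega
  refine ⟨n, ?_⟩
  intro G hG1 hG2
  obtain ⟨K, iK, iN, iAK, w, h1, h2, h3⟩ := Pool.Agent.TH409.SH.specialise k L p FF (by
      intro F hF
      exact hp1 F (Ideal.subset_span hF)) n hNc hp3 G (hp2 G hG1 hG2)
  let q : Fin (N + 1) → Polynomial K := cur w (fun j => (j : ℕ))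
  have hevG : ∀ (F : MvPolynomial (Fin (N + 1)) k) (t : K), (aeval q F).eval t =
      aeval (fun i => (q i).eval t) F := fun F t => Pool.Agent.Y215.AF.aeval_eval q F t
  have hG0 : aeval q G ≠ 0 := by
    intro h
    apply h3
    have := hevG G 1
    rw [h, Polynomial.eval_zero] at this
    exact this.symm
  obtain ⟨i1, i2, a, b, hab⟩ := Pool.Agent.TH409.SH.nonconst_of q h2
  have hq0 : ∃ i, q i ≠ 0 := by
    by_contra h
    push Not at h
    apply hab
    rw [h i1, h i2]
  obtain ⟨i0, hi0⟩ := hq0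
  obtain ⟨m1, hm1⟩ := eventually_atTop.1 ((pow_two_ev hG0).and (pow_two_ev hi0))
  have hcomp : ∀ (i : Fin (N + 1)) (m : ℕ), (q i).eval (2 ^ (m + m1)) =
      ((q i).comp (Polynomial.C (2 ^ m1) * Polynomial.X)).eval (2 ^ m) := by
    intro i m
    rw [Polynomial.eval_comp, Polynomial.eval_mul, Polynomial.eval_C, Polynomial.eval_X, pow_add,
      mul_comm]
  have hmap : Nonempty (K →+* ℂ) := inferInstance
  obtain ⟨e⟩ := hmap
  refine ⟨K, iK, iN, iAK, fun m i => (q i).eval (2 ^ (m + m1)), fun j => ?_, fun m h0 => ?_,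
    fun F hF m => ?_, fun m => ?_, i1, i2, ?_⟩
  · have h4 : (fun m => (q j).eval ((2 : K) ^ (m + m1))) = fun m => ∑ i : Fin n,
        (w i j * 2 ^ (m1 * (i : ℕ))) * ((2 : K) ^ (i : ℕ)) ^ m := by
      funext m
      simp only [q]
      rw [eval_cur' w]
      refine Finset.sum_congr rfl fun i _ => ?_
      rw [← pow_mul, ← pow_mul, Nat.add_mul, pow_add, mul_comm (i : ℕ) m]
      ring
    rw [h4]
    exact crec_expsum _ _
  · exact (hm1 (m + m1) (by omega)).2 (congrFun h0 i0)
  · change aeval (fun i => (q i).eval (2 ^ (m + m1))) F = 0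
    rw [← hevG, h1 F hF, Polynomial.eval_zero]
  · change aeval (fun i => (q i).eval (2 ^ (m + m1))) G ≠ 0
    rw [← hevG]
    exact (hm1 (m + m1) (by omega)).1
  · rintro ⟨d, b', hb', hrel⟩
    have hpos : (2 : K) ^ m1 ≠ 0 := pow_ne_zero _ two_ne_zero
    have h5 := prop_of_rel e (p := (q i1).comp (Polynomial.C (2 ^ m1) * Polynomial.X))
      (q := (q i2).comp (Polynomial.C (2 ^ m1) * Polynomial.X)) hb' (by
        filter_upwards [hrel] with m hm
        rw [← hcomp, ← hcomp]
        exact hm (Set.mem_univ m)) (a / 2 ^ m1) (b / 2 ^ m1)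
    simp only [Polynomial.eval_comp, Polynomial.eval_mul, Polynomial.eval_C, Polynomial.eval_X,
      mul_div_cancel₀ _ hpos] at h5
    exact hab h5

open Pool.Agent.H159R3.Exp in
/-- **Converse, affine case.** -/
theorem conv_aff {k : Type} [Field k] [NumberField k] {n : ℕ}
    (FF : Set (MvPolynomial (Fin n) k)) (hu : Pool.Agent.Y215.AF.GmUniruled (Ideal.span FF)) :
    ∃ r : ℕ, ∀ G : MvPolynomial (Fin n) k, G ∉ Ideal.span FF →
      ∃ (K : Type) (_ : Field K) (_ : NumberField K) (_ : Algebra k K)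
        (x : ℕ → Fin n → K), (∀ j, CRecO r (fun m => x m j)) ∧
        (∀ F ∈ FF, ∀ m, aeval (x m) F = 0) ∧ (∀ m, aeval (x m) G ≠ 0) ∧
        ∃ j, ¬ AlgIndex Set.univ (fun m => x m j) (fun _ => 1) := by
  classical
  obtain ⟨M0, _, _, v, hv, hvF, hvG, hnc⟩ := hu
  have hchar : CharZero M0 := charZero_of_injective_algebraMap (algebraMap k M0).injective
  obtain ⟨k1, j1, hk1⟩ := Pool.Agent.Y215.AF.exists_k1 v hv hnc
  obtain ⟨e, D, κ0, hκ0⟩ := Pool.Agent.Y215.AF.exists_cpt v hv
  refine ⟨D + 1, fun G hG => ?_⟩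
  have h20 : (2 : M0) ^ k1 ≠ 0 := pow_ne_zero _ two_ne_zero
  obtain ⟨L, iL, iA, hNF, κ, hκF, hκW⟩ := Pool.Agent.Y215.AF.descendC (fun F : FF => (F : MvPolynomial (Fin n) k))
    (rename Sum.inl G * (X (Sum.inr j1) - X (Sum.inl j1))) M0 e κ0
    (fun i t ht => by
      rw [hκ0 t ht]
      exact hvF _ (Ideal.subset_span i.2) t ht) k1 (by
    rw [hκ0 _ one_ne_zero, hκ0 _ h20, map_mul, aeval_rename, map_sub, aeval_X, aeval_X]
    simp only [Sum.elim_comp_inl, Sum.elim_inr, Sum.elim_inl]
    exact mul_ne_zero (hvG G hG) (sub_ne_zero.mpr hk1))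
  rw [map_mul, aeval_rename, map_sub, aeval_X, aeval_X] at hκW
  simp only [Sum.elim_comp_inl, Sum.elim_inr, Sum.elim_inl] at hκW
  have hG1 := left_ne_zero_of_mul hκW
  have hne := sub_ne_zero.mp (right_ne_zero_of_mul hκW)
  have hLv := cpt_laur e κ
  have hG0 : {m : ℕ | aeval (cpt e κ (2 ^ m)) G = 0}.Finite :=
    (Laur.eval₂ (algebraMap k L) (cpt e κ) hLv G).finite_zeros ⟨1, one_ne_zero, hG1⟩
  obtain ⟨m1, hm1⟩ : ∃ m1 : ℕ, ∀ m, m1 ≤ m → aeval (cpt e κ (2 ^ m)) G ≠ 0 := by
    have h3 := hG0.compl_mem_cofinite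
    rw [Nat.cofinite_eq_atTop] at h3
    exact eventually_atTop.1 h3
  have hmap : Nonempty (L →+* ℂ) := inferInstance
  obtain ⟨σ⟩ := hmap
  have h2L : (2 : L) ≠ 0 := two_ne_zero
  refine ⟨L, iL, hNF, iA, fun m => cpt e κ (2 ^ (m + m1)), fun j => ?_,
    fun F hF m => hκF ⟨F, hF⟩ _ (pow_ne_zero _ h2L), fun m => hm1 _ (by omega), j1, ?_⟩
  · have h4 : (fun m => cpt e κ ((2 : L) ^ (m + m1)) j) = fun m => ∑ i : Fin (D + 1),
        (κ (j, i) * (2 ^ (m1 * (i : ℕ)) * ((2 : L) ^ (m1 * e))⁻¹)) *
          ((2 : L) ^ (i : ℕ) * ((2 : L) ^ e)⁻¹) ^ m := by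
      funext m
      unfold cpt
      rw [Finset.sum_div]
      refine Finset.sum_congr rfl fun i _ => ?_
      rw [← pow_mul, ← pow_mul, Nat.add_mul, Nat.add_mul, pow_add, pow_add, mul_pow, inv_pow,
        ← pow_mul, ← pow_mul, mul_comm (i : ℕ) m, mul_comm e m, div_eq_mul_inv, mul_inv]
      ring
    rw [h4]
    exact crec_expsum _ _
  · rintro ⟨d, b', hb', hrel⟩
    let p : Polynomial L := ∑ i : Fin (D + 1), Polynomial.C (κ (j1, i)) * Polynomial.X ^ (i : ℕ)
    have hp : ∀ t : L, p.eval t = ∑ i : Fin (D + 1), κ (j1, i) * t ^ (i : ℕ) := by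
      intro t
      simp only [p]
      rw [Polynomial.eval_finsetSum]
      exact Finset.sum_congr rfl fun i _ => by simp
    have hc : ∀ t : L, cpt e κ t j1 = p.eval t / t ^ e := by
      intro t
      rw [hp]
      rfl
    have hpos : (2 : L) ^ m1 ≠ 0 := pow_ne_zero _ h2L
    have h5 := prop_of_rel σ (p := p.comp (Polynomial.C (2 ^ m1) * Polynomial.X))
      (q := (Polynomial.X ^ e : Polynomial L).comp (Polynomial.C (2 ^ m1) * Polynomial.X)) hb' (by
        filter_upwards [hrel] with m hm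
        have h6 := hm (Set.mem_univ m)
        have h7 : (Polynomial.C (2 ^ m1) * Polynomial.X : Polynomial L).eval (2 ^ m) =
            2 ^ (m + m1) := by
          rw [Polynomial.eval_mul, Polynomial.eval_C, Polynomial.eval_X, pow_add, mul_comm]
        simp only [Polynomial.eval_comp, h7, Polynomial.eval_pow, Polynomial.eval_X]
        have h8 : ((2 : L) ^ (m + m1)) ^ e ≠ 0 := pow_ne_zero _ (pow_ne_zero _ h2L)
        have h9 : (((2 : L) ^ (m + m1)) ^ e) ^ d * ∑ k ∈ Finset.range (d + 1),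
            (b' k).eval (m : L) * cpt e κ ((2 : L) ^ (m + m1)) j1 ^ k * 1 ^ (d - k) = 0 := by
          rw [h6, mul_zero]
        rw [← h9, Finset.mul_sum]
        refine Finset.sum_congr rfl fun k hk => ?_
        have h10 := Finset.mem_range.1 hk
        have h11 : (((2 : L) ^ (m + m1)) ^ e) ^ d = (((2 : L) ^ (m + m1)) ^ e) ^ (d - k) *
            (((2 : L) ^ (m + m1)) ^ e) ^ k := by
          rw [← pow_add]
          congr 1
          omega
        rw [hc, h11, one_pow, mul_one, div_pow]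
        have h12 : (((2 : L) ^ (m + m1)) ^ e) ^ k * (p.eval (2 ^ (m + m1)) ^ k /
            (((2 : L) ^ (m + m1)) ^ e) ^ k) = p.eval (2 ^ (m + m1)) ^ k :=
          mul_div_cancel₀ _ (pow_ne_zero _ h8)
        linear_combination (-((((2 : L) ^ (m + m1)) ^ e) ^ (d - k) * (b' k).eval (m : L))) * h12)
      (2 ^ k1 / 2 ^ m1) (1 / 2 ^ m1)
    simp only [Polynomial.eval_comp, Polynomial.eval_mul, Polynomial.eval_C, Polynomial.eval_X,
      Polynomial.eval_pow, mul_div_cancel₀ _ hpos, one_pow, mul_one] at h5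
    apply hne
    rw [hc, hc, one_pow, div_one, h5, mul_div_assoc]
    have h13 : ((2 : L) ^ k1) ^ e ≠ 0 := pow_ne_zero _ (pow_ne_zero _ h2L)
    field_simp

end Pool.Agent.Q183.RS
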