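import Pool.Agent.Q183.RS.Main

/-!
Sequences of points given by linear recurrences are not Zariski-dense.
-/

set_option autoImplicit false

namespace Pool.Agent.Q183.RS

open MvPolynomial Filter Pool.Agent.TH143.DE Pool.Agent.H533R3.SL Cardinal

variable {K : Type} [Field K] {B : Subalgebra K (ℕ → K)}

/-- The transcendence degree of the difference ring is at most `e`. -/
def TrK (B : Subalgebra K (ℕ → K)) (e : ℕ) : Prop :=
  ∀ b : Fin (e + 1) → ℕ → K, (∀ i, b i ∈ B) →
    ∃ P : MvPolynomial (Fin (e + 1)) K, P ≠ 0 ∧ ∀ᶠ m in atTop, eval (fun i => b i m) P = 0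

theorem RecK.mono {r r' : ℕ} {f : ℕ → K} (h : RecK B r f) (hr : r ≤ r') : RecK B r' f := by
  classical
  obtain ⟨a, ha, ⟨k0, hk0, hne⟩, h⟩ := h
  refine ⟨fun k => if k ≤ r then a k else 0, fun k => ?_, ⟨k0, hk0.trans hr, by
    simpa only [if_pos hk0] using hne⟩, ?_⟩
  · change (if k ≤ r then a k else 0) ∈ B
    split_ifs
    · exact ha k
    · exact B.zero_mem
  · filter_upwards [h] with m hm
    rw [← hm]
    symm
    refine Finset.sum_subset_zero_on_sdiff (Finset.range_mono (by omega)) (fun k hk => ?_)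
      fun k hk => ?_
    · have h1 := (Finset.mem_sdiff.1 hk).2
      rw [Finset.mem_range, not_lt] at h1
      rw [if_neg (by omega), Pi.zero_apply, zero_mul]
    · have h1 := Finset.mem_range.1 hk
      rw [if_pos (by omega)]

/-- the sequences which vanish from some index on along a set of indices -/
def EK (K : Type) [Field K] (A : Set ℕ) : Ideal (ℕ → K) where
  carrier := {f | ∀ᶠ m in atTop, m ∈ A → f m = 0}
  add_mem' := by
    intro f g hf hg
    filter_upwards [hf, hg] with m h1 h2 hm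
    rw [Pi.add_apply, h1 hm, h2 hm, add_zero]
  zero_mem' := Eventually.of_forall fun _ _ => rfl
  smul_mem' := by
    intro c f hf
    filter_upwards [hf] with m h1 hm
    rw [smul_eq_mul, Pi.mul_apply, h1 hm, mul_zero]

theorem mem_EK {A : Set ℕ} {f : ℕ → K} : f ∈ EK K A ↔ ∀ᶠ m in atTop, m ∈ A → f m = 0 := Iff.rfl

theorem aeval_seq {κ : Type} (b : κ → ℕ → K) (P : MvPolynomial κ K) (m : ℕ) :
    (aeval b P : ℕ → K) m = eval (fun i => b i m) P := by
  have h7 := MvPolynomial.comp_aeval_apply (f := b) (Pi.evalAlgHom K (fun _ : ℕ => K) m) P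
  have h8 : (aeval b P : ℕ → K) m = aeval (fun i => b i m) P := h7
  rw [h8, MvPolynomial.aeval_eq_eval]

theorem trdeg_image {e : ℕ} (he : TrK B e) {M : Type} [Field M] [Algebra K M]
    (θ : (ℕ → K) →ₐ[K] M) (hθ : ∀ f : ℕ → K, (∀ᶠ m in atTop, f m = 0) → θ f = 0) :
    Algebra.trdeg K (B.map θ) ≤ e := by
  classical
  by_contra hcon
  rw [not_le] at hcon
  obtain ⟨T, hT⟩ := exists_isTranscendenceBasis K (B.map θ)
  have hcard := hT.cardinalMk_eq_trdeg
  have h1 : ((e + 1 : ℕ) : Cardinal) ≤ Cardinal.mk T := by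
    rw [hcard]
    by_contra h
    rw [not_le] at h
    obtain ⟨k, hk⟩ := Cardinal.lt_aleph0.1 (h.trans Cardinal.natCast_lt_aleph0)
    rw [hk, Nat.cast_lt] at h
    rw [hk, Nat.cast_lt] at hcon
    omega
  obtain ⟨f⟩ : Nonempty (Fin (e + 1) ↪ T) := by
    rw [← Cardinal.mk_fin] at h1
    exact Cardinal.lift_mk_le'.1 (by simpa using h1)
  have h2 : AlgebraicIndependent K (fun i => ((f i : T) : B.map θ)) :=
    hT.1.comp f f.injective
  have h3 : ∀ i, ∃ b ∈ B, θ b = (((f i : T) : B.map θ) : M) := fun i => ((f i : T) : B.map θ).2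
  choose b hb hbe using h3
  obtain ⟨P, hP0, hP⟩ := he b hb
  apply hP0
  refine (AlgebraicIndependent.map' h2 (f := (B.map θ).val) Subtype.val_injective) ?_
  rw [map_zero]
  have h4 : ((B.map θ).val ∘ fun i => ((f i : T) : B.map θ)) = fun i => θ (b i) := by
    funext i
    exact (hbe i).symm
  rw [h4, ← MvPolynomial.comp_aeval_apply]
  apply hθ
  filter_upwards [hP] with m hm
  rw [aeval_seq, hm]

variable {N : ℕ}

/-- a linear form through a given point which does not vanish on the variety -/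
theorem exists_lineQ {Q : Type} [CommRing Q] [IsDomain Q] [Algebra K Q]
    (π : MvPolynomial (Fin (N + 1)) K →ₐ[K] Q) (hπ : Function.Surjective π) {e : ℕ}
    (hdim : (e : Cardinal) + 1 < Algebra.trdeg K Q)
    {v : Fin (N + 1) → K} (hv : v ≠ 0) :
    ∃ ℓ : MvPolynomial (Fin (N + 1)) K, ℓ.IsHomogeneous 1 ∧ π ℓ ≠ 0 ∧ aeval v ℓ = 0 := by
  classical
  by_contra hcon
  push Not at hcon
  obtain ⟨i0, hi0⟩ := Function.ne_iff.1 hv
  have hi0' : v i0 ≠ 0 := hi0
  have h1 : ∀ j, π (C (v i0) * X j - C (v j) * X i0) = 0 := by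
    intro j
    by_contra hne
    refine hcon _ ?_ hne ?_
    · have h2 := (isHomogeneous_C (Fin (N + 1)) (v i0)).mul (isHomogeneous_X K j)
      have h3 := (isHomogeneous_C (Fin (N + 1)) (v j)).mul (isHomogeneous_X K i0)
      rw [zero_add] at h2 h3
      exact h2.sub h3
    · simp only [map_sub, map_mul, aeval_C, aeval_X, Algebra.algebraMap_self, RingHom.id_apply]
      ring
  have hC : ∀ c : K, π (C c) = algebraMap K Q c := fun c => π.commutes c
  let s : Set Q := {π (X i0)}
  have htop : Algebra.adjoin K s = ⊤ := by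
    rw [eq_top_iff]
    rintro a -
    obtain ⟨F, rfl⟩ := hπ a
    induction F using MvPolynomial.induction_on with
    | C c =>
      rw [hC]
      exact Subalgebra.algebraMap_mem _ c
    | add p q hp hq =>
      rw [map_add]
      exact Subalgebra.add_mem _ hp hq
    | mul_X p j hp =>
      rw [map_mul]
      refine Subalgebra.mul_mem _ hp ?_
      have h2 : π (X j) = (v j / v i0) • π (X i0) := by
        have h3 := h1 j
        rw [map_sub, map_mul, map_mul, sub_eq_zero, hC, hC, ← Algebra.smul_def,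
          ← Algebra.smul_def] at h3
        rw [div_eq_inv_mul, mul_smul, ← h3, smul_smul, inv_mul_cancel₀ hi0', one_smul]
      rw [h2]
      have h6 : π (X i0) ∈ Algebra.adjoin K s := Algebra.subset_adjoin (Set.mem_singleton _)
      exact Subalgebra.smul_mem _ h6 _
  have halg : Algebra.IsAlgebraic (Algebra.adjoin K s) Q := by
    refine ⟨fun z => ?_⟩
    have hz : z ∈ Algebra.adjoin K s := by rw [htop]; exact Algebra.mem_top
    exact isAlgebraic_algebraMap (⟨z, hz⟩ : Algebra.adjoin K s)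
  have h3 := Algebra.IsAlgebraic.trdeg_le_cardinalMk K s
  have h4 : #s = 1 := Cardinal.mk_singleton _
  rw [h4] at h3
  have h5 : (1 : Cardinal) ≤ (e : Cardinal) + 1 := self_le_add_left _ _
  exact absurd (hdim.trans_le h3) (not_lt.2 h5)

/-- a transcendence degree -/
theorem trdeg_cone {M : Type} [Field M] [Algebra K M] (E : Subalgebra K M) {e : ℕ}
    (hE : Algebra.trdeg K E ≤ e) (F : Subalgebra E M) (hF : ∀ z ∈ F, IsAlgebraic E z) :
    Algebra.trdeg K (Polynomial F) ≤ (e : Cardinal) + 1 := by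
  have h1 : Algebra.IsAlgebraic E F := by
    refine ⟨fun z => ?_⟩
    have h2 := hF z z.2
    have h3 : (z : M) = algebraMap F M z := rfl
    rw [h3] at h2
    exact (isAlgebraic_algebraMap_iff (FaithfulSMul.algebraMap_injective F M)).1 h2
  have h2 := trdeg_add_eq K E (A := F)
  have h3 := trdeg_add_eq K F (A := Polynomial F)
  rw [Polynomial.trdeg_of_isDomain] at h3
  have h4 : Algebra.trdeg E F = 0 := trdeg_eq_zero
  rw [h4, add_zero] at h2
  rw [← h3, ← h2]
  gcongr

/-- the curve of a point over an extension field, with values in the cone -/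
noncomputable def cone {E M : Type} [Field M] [CommRing E] [Algebra E M] (F : Subalgebra E M)
    (z : Fin (N + 1) → F) (i : Fin (N + 1)) : Polynomial F :=
  Polynomial.C (z i) * Polynomial.X

theorem aeval_cone {E M : Type} [Field M] [CommRing E] [Algebra E M] (F : Subalgebra E M)
    [Algebra K F] (z : Fin (N + 1) → F) {G : MvPolynomial (Fin (N + 1)) K} {d : ℕ}
    (hG : G.IsHomogeneous d) :
    aeval (cone F z) G = Polynomial.C (aeval z G) * Polynomial.X ^ d := by
  classical
  have h1 : aeval (cone F z) G = ∑ α ∈ G.support, algebraMap K (Polynomial F) (coeff α G) *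
      ∏ i, (cone F z i) ^ α i := by
    rw [aeval_def, eval₂_eq']
  have h2 : aeval z G = ∑ α ∈ G.support, algebraMap K F (coeff α G) * ∏ i, z i ^ α i := by
    rw [aeval_def, eval₂_eq']
  rw [h1, h2, map_sum, Finset.sum_mul]
  refine Finset.sum_congr rfl fun α hα => ?_
  have h3 : ∑ i, α i = d := by
    have := hG (mem_support_iff.1 hα)
    rwa [Finsupp.weight_apply, Finsupp.sum_fintype _ _ (by simp), Finset.sum_congr rfl
      (fun i _ => by rw [Pi.one_apply, smul_eq_mul, mul_one])] at this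
  unfold cone
  simp only [mul_pow]
  rw [Finset.prod_mul_distrib, Finset.prod_pow_eq_pow_sum, h3, map_mul, map_prod]
  simp only [map_pow]
  rw [Polynomial.algebraMap_apply]
  ring

/-- the dimension of a variety whose generic point has algebraic coordinates -/
theorem dim_false {M : Type} [Field M] [Algebra K M] (FF : Set (MvPolynomial (Fin (N + 1)) K))
    (hFF : ∀ F ∈ FF, ∃ a, F.IsHomogeneous a) (E : Subalgebra K M) {e : ℕ}
    (hE : Algebra.trdeg K E ≤ e) (z : Fin (N + 1) → M) (i0 : Fin (N + 1)) (hi0 : z i0 ≠ 0)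
    (halg : ∀ i, IsAlgebraic E (z i / z i0))
    (hzI : ∀ H : MvPolynomial (Fin (N + 1)) K, (∃ e, H.IsHomogeneous e) → aeval z H = 0 →
      H ∈ Ideal.span FF) (hzF : ∀ F ∈ FF, aeval z F = 0)
    (hdim : (e : Cardinal) + 1 <
      Algebra.trdeg K (MvPolynomial (Fin (N + 1)) K ⧸ Ideal.span FF)) : False := by
  classical
  set I := Ideal.span FF with hI
  let F1 : Subalgebra E M := Subalgebra.algebraicClosure E M
  let y : Fin (N + 1) → F1 := fun i => ⟨z i / z i0, halg i⟩
  have hy : ∀ {H : MvPolynomial (Fin (N + 1)) K} {a : ℕ}, H.IsHomogeneous a →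
      ((aeval y H : F1) : M) * z i0 ^ a = aeval z H := by
    intro H a hH
    have h1 : ((aeval y H : F1) : M) = aeval (fun i => z i / z i0) H := by
      have h2 := MvPolynomial.comp_aeval_apply (f := y) (F1.val.restrictScalars K) H
      exact h2
    rw [h1, aeval_def, aeval_def, eval₂_eq', eval₂_eq', Finset.sum_mul]
    refine Finset.sum_congr rfl fun α hα => ?_
    have h3 : ∑ i, α i = a := by
      have := hH (mem_support_iff.1 hα)
      rwa [Finsupp.weight_apply, Finsupp.sum_fintype _ _ (by simp), Finset.sum_congr rfl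
        (fun i _ => by rw [Pi.one_apply, smul_eq_mul, mul_one])] at this
    rw [mul_assoc]
    congr 1
    simp only [div_pow]
    rw [Finset.prod_div_distrib, Finset.prod_pow_eq_pow_sum, h3,
      div_mul_cancel₀ _ (pow_ne_zero _ hi0)]
  have hyI : ∀ {H : MvPolynomial (Fin (N + 1)) K} {a : ℕ}, H.IsHomogeneous a →
      aeval y H = 0 → H ∈ I := by
    intro H a hH h0
    refine hzI H ⟨a, hH⟩ ?_
    rw [← hy hH, h0]
    simp
  let ψ : MvPolynomial (Fin (N + 1)) K →ₐ[K] Polynomial F1 := aeval (cone F1 y)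
  have hψI : ∀ F ∈ I, ψ F = 0 := by
    have h1 : I ≤ RingHom.ker ψ := by
      refine Ideal.span_le.2 fun F hF => ?_
      obtain ⟨a, ha⟩ := hFF F hF
      change aeval (cone F1 y) F = 0
      rw [aeval_cone F1 y ha]
      have h2 : aeval y F = 0 := by
        have h3 := hy ha
        have h4 : aeval z F = 0 := hzF F hF
        rw [h4] at h3
        exact Subtype.ext ((mul_eq_zero.1 h3).resolve_right (pow_ne_zero _ hi0))
      rw [h2, Polynomial.C_0, zero_mul]
    exact fun F hF => h1 hF
  have hψinj : ∀ F, ψ F = 0 → F ∈ I := by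
    intro F hF
    have h1 : ∀ a, homogeneousComponent a F ∈ I := by
      intro a
      refine hyI (homogeneousComponent_isHomogeneous a F) ?_
      have h2 : ψ F = ∑ i ∈ Finset.range (F.totalDegree + 1),
          Polynomial.C (aeval y (homogeneousComponent i F)) * Polynomial.X ^ i := by
        conv_lhs => rw [← sum_homogeneousComponent F, map_sum]
        exact Finset.sum_congr rfl fun i _ =>
          aeval_cone F1 y (homogeneousComponent_isHomogeneous i F)
      by_cases ha : a ≤ F.totalDegree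
      · have h3 := congrArg (fun p => Polynomial.coeff p a) (hF.symm.trans h2)
        simp only [Polynomial.finsetSum_coeff, Polynomial.coeff_C_mul_X_pow,
          Polynomial.coeff_zero] at h3
        rw [Finset.sum_ite_eq, if_pos (Finset.mem_range.2 (by omega))] at h3
        exact h3.symm
      · rw [homogeneousComponent_eq_zero _ _ (not_le.1 ha), map_zero]
    rw [← sum_homogeneousComponent F]
    exact Ideal.sum_mem _ fun a _ => h1 a
  let Ψ : (MvPolynomial (Fin (N + 1)) K ⧸ I) →ₐ[K] Polynomial F1 := Ideal.Quotient.liftₐ I ψ hψI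
  have hΨ : Function.Injective Ψ := by
    rw [injective_iff_map_eq_zero]
    intro a ha
    obtain ⟨F, rfl⟩ := Ideal.Quotient.mk_surjective a
    exact Ideal.Quotient.eq_zero_iff_mem.2 (hψinj F ha)
  have h1 : Algebra.trdeg K (MvPolynomial (Fin (N + 1)) K ⧸ I) ≤
      Algebra.trdeg K (Polynomial F1) := trdeg_le_of_injective Ψ hΨ
  exact absurd (hdim.trans_le (h1.trans (trdeg_cone E hE F1 fun z hz => hz))) (lt_irrefl _)


/-- **Not Zariski-dense.** -/
theorem weakK [CharZero K] (hK : #K ≤ 𝔠) (FF : Set (MvPolynomial (Fin (N + 1)) K))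
    (hprime : (Ideal.span FF).IsPrime) (hnu : ¬ Uniruled (Ideal.span FF)) (d : ℕ) (hd : 1 ≤ d)
    (hFF : ∀ F ∈ FF, ∃ e, e ≤ d ∧ F.IsHomogeneous e) (hB : DiffRing B) (e : ℕ) (he : TrK B e)
    (hdim : (e : Cardinal) + 1 < Algebra.trdeg K (MvPolynomial (Fin (N + 1)) K ⧸ Ideal.span FF))
    (x : ℕ → Fin (N + 1) → K) (hne : ∀ m, x m ≠ 0) (hx : ∀ j, ∃ r, RecK B r (fun m => x m j))
    (hX : ∀ m, ∀ F ∈ FF, aeval (x m) F = 0) :
    ∃ H : MvPolynomial (Fin (N + 1)) K, (∃ e, H.IsHomogeneous e) ∧ H ∉ Ideal.span FF ∧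
      ∀ m, aeval (x m) H = 0 := by
  classical
  by_contra hcon
  push Not at hcon
  -- density
  have hdense : ∀ H : MvPolynomial (Fin (N + 1)) K, (∃ e, H.IsHomogeneous e) →
      (∀ m, aeval (x m) H = 0) → H ∈ Ideal.span FF := by
    intro H hH h0
    by_contra hnot
    obtain ⟨m, hm⟩ := hcon H hH hnot
    exact hm (h0 m)
  choose r hr using hx
  set q := Finset.univ.sup r with hq
  have hxq : ∀ j, RecK B q (fun m => x m j) := fun j =>
    (hr j).mono (Finset.le_sup (f := r) (Finset.mem_univ j))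
  have hFF' : ∀ F ∈ FF, ∃ a, F.IsHomogeneous a := fun F hF =>
    let ⟨a, _, ha⟩ := hFF F hF
    ⟨a, ha⟩
  obtain ⟨G, ⟨eG, hG1⟩, hG2, hG3⟩ := projK FF hprime hnu d hd hFF q
  obtain ⟨t, ht⟩ := hG3 K hK B hB x hxq (fun F hF => Eventually.of_forall fun m => hX m F hF)
  set I := Ideal.span FF with hI
  have hdomQ : IsDomain (MvPolynomial (Fin (N + 1)) K ⧸ I) := Ideal.Quotient.isDomain I
  let π : MvPolynomial (Fin (N + 1)) K →ₐ[K] (MvPolynomial (Fin (N + 1)) K ⧸ I) :=
    Ideal.Quotient.mkₐ K I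
  have hπ : Function.Surjective π := Ideal.Quotient.mkₐ_surjective K I
  have hπ0 : ∀ F, π F = 0 ↔ F ∈ I := fun F => Ideal.Quotient.eq_zero_iff_mem
  have hline := fun m => exists_lineQ π hπ hdim (hne m)
  choose ℓ hℓ1 hℓ2 hℓ3 using hline
  -- points from some index on
  have htail : ∀ H : MvPolynomial (Fin (N + 1)) K, (∃ e, H.IsHomogeneous e) →
      (∀ᶠ m in atTop, aeval (x m) H = 0) → H ∈ I := by
    rintro H ⟨eH, hH⟩ h0
    obtain ⟨m0, hm0⟩ := eventually_atTop.1 h0
    have h1 : (H * ∏ m ∈ Finset.range m0, ℓ m) ∈ I := by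
      refine hdense _ ⟨eH + ∑ m ∈ Finset.range m0, 1, hH.mul
        (IsHomogeneous.prod _ _ _ fun m _ => hℓ1 m)⟩ fun m => ?_
      rw [map_mul, map_prod]
      by_cases hm : m0 ≤ m
      · rw [hm0 m hm, zero_mul]
      · rw [Finset.prod_eq_zero (Finset.mem_range.2 (not_le.1 hm)) (hℓ3 m), mul_zero]
    rcases hprime.mem_or_mem h1 with h2 | h2
    · exact h2
    · exfalso
      rw [hprime.prod_mem_iff] at h2
      obtain ⟨m, _, hm⟩ := h2
      exact hℓ2 m ((hπ0 _).2 hm)
  set A : Set ℕ := {m | aeval (x (m + t)) G ≠ 0} with hA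
  -- the prime ideal of sequences
  let T : Submonoid (ℕ → K) :=
    { carrier := {f | ∃ H : MvPolynomial (Fin (N + 1)) K, (∃ e, H.IsHomogeneous e) ∧ H ∉ I ∧
        f = fun m => aeval (x (m + t)) H}
      mul_mem' := by
        rintro _ _ ⟨H, ⟨a, ha⟩, h0, rfl⟩ ⟨H', ⟨b, hb⟩, h0', rfl⟩
        refine ⟨H * H', ⟨a + b, ha.mul hb⟩, ?_, ?_⟩
        · intro h
          rcases hprime.mem_or_mem h with h | h
          · exact h0 h
          · exact h0' h
        · funext m
          rw [map_mul]
          rfl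
      one_mem' := ⟨1, ⟨0, isHomogeneous_one _ _⟩, fun h => hprime.ne_top
        ((Ideal.eq_top_iff_one _).2 h), by
          funext m
          rw [map_one]
          rfl⟩ }
  have hdisj : Disjoint (EK K A : Set (ℕ → K)) T := by
    rw [Set.disjoint_left]
    rintro f hf ⟨H, ⟨eH, hH⟩, h0, rfl⟩
    apply h0
    have h1 : G * H ∈ I := by
      refine htail _ ⟨eG + eH, hG1.mul hH⟩ (eventually_unshift (t := t) ?_)
      filter_upwards [mem_EK.1 hf] with m hm
      rw [map_mul]
      by_cases hmA : m ∈ A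
      · rw [hm hmA, mul_zero]
      · have h2 : aeval (x (m + t)) G = 0 := by
          by_contra h3
          exact hmA h3
        rw [h2, zero_mul]
    rcases hprime.mem_or_mem h1 with h | h
    · exact absurd h hG2
    · exact h
  obtain ⟨P, hPp, hP, hPT⟩ := Ideal.exists_le_prime_disjoint (EK K A) T hdisj
  have hdomP : IsDomain ((ℕ → K) ⧸ P) := Ideal.Quotient.isDomain P
  let M := FractionRing ((ℕ → K) ⧸ P)
  let θ : (ℕ → K) →ₐ[K] M :=
    (IsScalarTower.toAlgHom K ((ℕ → K) ⧸ P) M).comp (Ideal.Quotient.mkₐ K P)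
  have hθ0 : ∀ f, θ f = 0 ↔ f ∈ P := by
    intro f
    change algebraMap ((ℕ → K) ⧸ P) M (Ideal.Quotient.mk P f) = 0 ↔ _
    rw [map_eq_zero_iff _ (IsFractionRing.injective ((ℕ → K) ⧸ P) M), Ideal.Quotient.eq_zero_iff_mem]
  have hEK : ∀ f : ℕ → K, (∀ᶠ m in atTop, m ∈ A → f m = 0) → θ f = 0 := fun f hf =>
    (hθ0 f).2 (hP hf)
  let z : Fin (N + 1) → M := fun j => θ fun m => x (m + t) j
  have hz : ∀ H : MvPolynomial (Fin (N + 1)) K, aeval z H = θ fun m => aeval (x (m + t)) H := by
    intro H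
    have h1 := MvPolynomial.comp_aeval_apply (f := fun j => (fun m => x (m + t) j : ℕ → K)) θ H
    have h2 : (aeval (fun j => (fun m => x (m + t) j : ℕ → K)) H : ℕ → K) =
        fun m => aeval (x (m + t)) H := by
      funext m
      rw [aeval_seq, MvPolynomial.aeval_eq_eval]
    rw [← h2]
    exact h1.symm
  have hzI : ∀ H : MvPolynomial (Fin (N + 1)) K, (∃ e, H.IsHomogeneous e) → aeval z H = 0 →
      H ∈ I := by
    intro H hH h0
    by_contra hnot
    rw [hz, hθ0] at h0
    exact Set.disjoint_left.1 hPT h0 ⟨H, hH, hnot, rfl⟩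
  obtain ⟨i0, hi0⟩ : ∃ i0, z i0 ≠ 0 := by
    by_contra hall
    push Not at hall
    obtain ⟨j, hj⟩ := Function.ne_iff.1 (hne 0)
    apply hj
    have h1 := hzI (X j) ⟨1, isHomogeneous_X _ _⟩ (by rw [aeval_X]; exact hall j)
    have h2 : I ≤ RingHom.ker (aeval (x 0) : MvPolynomial (Fin (N + 1)) K →ₐ[K] K) :=
      Ideal.span_le.2 fun F hF => hX 0 F hF
    have h3 : aeval (x 0) (X j : MvPolynomial (Fin (N + 1)) K) = 0 := h2 h1
    rwa [aeval_X] at h3
  -- the coefficients
  let E : Subalgebra K M := B.map θ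
  have hE : Algebra.trdeg K E ≤ e := trdeg_image he θ fun f hf => hEK f (by
    filter_upwards [hf] with m hm _
    exact hm)
  have halg : ∀ i, IsAlgebraic E (z i / z i0) := by
    intro i
    obtain ⟨D, b, hb, ⟨k0, hk0, hbne⟩, hrel⟩ := ht i i0
    let p : Polynomial E := ∑ k ∈ Finset.range (D + 1),
      Polynomial.C (⟨θ (b k), b k, hb k, rfl⟩ : E) * Polynomial.X ^ k
    refine ⟨p, fun h0 => ?_, ?_⟩
    · have h1 := congrArg (fun p => Polynomial.coeff p k0) h0
      simp only [p, Polynomial.finsetSum_coeff, Polynomial.coeff_C_mul_X_pow,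
        Polynomial.coeff_zero] at h1
      rw [Finset.sum_ite_eq, if_pos (Finset.mem_range.2 (by omega))] at h1
      have h2 : θ (b k0) = 0 := congrArg Subtype.val h1
      have h3 := (hB.dich _ (hb k0)).resolve_left hbne
      have h4 : θ ((fun m => (b k0 m)⁻¹) * b k0) = 1 := by
        rw [← map_one θ, ← sub_eq_zero, ← map_sub]
        apply hEK
        filter_upwards [h3] with m hm _
        rw [Pi.sub_apply, Pi.mul_apply, Pi.one_apply, inv_mul_cancel₀ hm, sub_self]
      rw [map_mul, h2, mul_zero] at h4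
      exact zero_ne_one h4
    · have h1 : ∑ k ∈ Finset.range (D + 1), θ (b k) * z i ^ k * z i0 ^ (D - k) = 0 := by
        have h2 : ∑ k ∈ Finset.range (D + 1), θ (b k) * z i ^ k * z i0 ^ (D - k) =
            θ (∑ k ∈ Finset.range (D + 1), b k * (fun m => x (m + t) i) ^ k *
              (fun m => x (m + t) i0) ^ (D - k)) := by
          rw [map_sum]
          refine Finset.sum_congr rfl fun k _ => ?_
          rw [map_mul, map_mul, map_pow, map_pow]
        rw [h2]
        apply hEK
        filter_upwards [hrel] with m hm hmA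
        rw [Finset.sum_apply]
        exact hm hmA
      have h2 : Polynomial.aeval (z i / z i0) p = ∑ k ∈ Finset.range (D + 1), θ (b k) * (z i / z i0) ^ k := by
        simp only [p, map_sum, map_mul, map_pow, Polynomial.aeval_C, Polynomial.aeval_X]
        rfl
      rw [h2]
      have h3 : z i0 ^ D * ∑ k ∈ Finset.range (D + 1), θ (b k) * (z i / z i0) ^ k = 0 := by
        rw [← h1, Finset.mul_sum]
        refine Finset.sum_congr rfl fun k hk => ?_
        have h4 := Finset.mem_range.1 hk
        have h5 : z i0 ^ D = z i0 ^ (D - k) * z i0 ^ k := by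
          rw [← pow_add]
          congr 1
          omega
        have h6 : z i0 ^ k ≠ 0 := pow_ne_zero _ hi0
        rw [h5, div_pow]
        have h7 : z i0 ^ k * (z i ^ k / z i0 ^ k) = z i ^ k := mul_div_cancel₀ _ h6
        linear_combination (z i0 ^ (D - k) * θ (b k)) * h7
      exact (mul_eq_zero.1 h3).resolve_left (pow_ne_zero _ hi0)
  exact dim_false FF hFF' E hE z i0 hi0 halg hzI (fun F hF => by
    rw [hz]
    apply hEK
    exact Eventually.of_forall fun m _ => hX (m + t) F hF) hdim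

end Pool.Agent.Q183.RS
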