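import Pool.Agent.Q183.RS.Fin
import Pool.Agent.Q183.RS.Weak

/-!
Specialisation of curves over an arbitrary field (the number field case is in TH409/SH/Conv), and
the converse over algebraically closed fields.
-/

set_option autoImplicit false

namespace Pool.Agent.Q183.RS

open MvPolynomial Filter Pool.Agent.H533R3.SL Cardinal

variable {n : ℕ}

/-- **Specialisation** of a generic curve. -/
theorem specialise' (k : Type) [Field k] (L : Type) [Field L] [Algebra k L]
    (p : Fin (n + 1) → Polynomial L) (FF : Set (MvPolynomial (Fin (n + 1)) k))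
    (hp : ∀ F ∈ FF, aeval p F = 0) (N : ℕ) (hN : ∀ i m, N ≤ m → (p i).coeff m = 0)
    (hc : ∃ i j, p i * Polynomial.C ((p j).eval 1) ≠ p j * Polynomial.C ((p i).eval 1))
    (G : MvPolynomial (Fin (n + 1)) k) (hG : aeval (fun i => (p i).eval 1) G ≠ 0) :
    ∃ (K : Type) (_ : Field K) (_ : Algebra k K) (_ : Module.Finite k K)
      (v : Fin N → Fin (n + 1) → K),
      (∀ F ∈ FF, aeval (cur v (fun j => (j : ℕ))) F = 0) ∧
      (∃ i j, cur v (fun j => (j : ℕ)) i * Polynomial.C ((cur v (fun j => (j : ℕ)) j).eval 1) ≠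
        cur v (fun j => (j : ℕ)) j * Polynomial.C ((cur v (fun j => (j : ℕ)) i).eval 1)) ∧
      aeval (fun i => (cur v (fun j => (j : ℕ)) i).eval 1) G ≠ 0 := by
  classical
  obtain ⟨i1, i2, hi⟩ := hc
  obtain ⟨w, hw⟩ : ∃ w, (p i1 * Polynomial.C ((p i2).eval 1) -
      p i2 * Polynomial.C ((p i1).eval 1)).coeff w ≠ 0 := by
    by_contra h
    push Not at h
    apply hi
    rw [← sub_eq_zero]
    ext m
    rw [h m, Polynomial.coeff_zero]
  set δ : L := (p i1 * Polynomial.C ((p i2).eval 1) -
      p i2 * Polynomial.C ((p i1).eval 1)).coeff w with hδ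
  set g : L := aeval (fun i => (p i).eval 1) G with hg
  let S : Finset L := (Finset.univ.image (fun q : Fin N × Fin (n + 1) => (p q.2).coeff q.1)) ∪
    {(g * δ)⁻¹}
  let R : Subalgebra k L := Algebra.adjoin k (S : Set L)
  have hft : Algebra.FiniteType k R := by
    rw [← Subalgebra.fg_iff_finiteType]
    exact Subalgebra.fg_adjoin_finset S
  have hcR : ∀ (j : Fin N) (i : Fin (n + 1)), (p i).coeff j ∈ R := by
    intro j i
    apply Algebra.subset_adjoin
    simp only [S, Finset.coe_union, Set.mem_union, Finset.mem_coe]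
    left
    exact Finset.mem_image.2 ⟨(j, i), Finset.mem_univ _, rfl⟩
  have hinvR : (g * δ)⁻¹ ∈ R := by
    apply Algebra.subset_adjoin
    simp only [S, Finset.coe_union, Set.mem_union, Finset.mem_coe]
    right
    exact Finset.mem_singleton_self _
  -- the lifted curve
  let c : Fin N → Fin (n + 1) → R := fun j i => ⟨(p i).coeff j, hcR j i⟩
  have hcp : ∀ i, Polynomial.mapAlgHom R.val (cur c (fun j => (j : ℕ)) i) = p i := by
    intro i
    unfold cur
    rw [map_sum]
    ext m
    rw [Polynomial.finsetSum_coeff]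
    have h1 : ∀ j : Fin N, (Polynomial.mapAlgHom R.val
        (Polynomial.C (c j i) * Polynomial.X ^ (j : ℕ))).coeff m =
        if m = (j : ℕ) then (p i).coeff j else 0 := by
      intro j
      rw [map_mul, map_pow, Polynomial.coe_mapAlgHom, Polynomial.map_C, Polynomial.map_X,
        Polynomial.coeff_C_mul_X_pow]
      rfl
    simp_rw [h1]
    by_cases hm : m < N
    · rw [Finset.sum_eq_single (⟨m, hm⟩ : Fin N)]
      · simp
      · intro j _ hj
        rw [if_neg]
        intro h
        apply hj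
        exact Fin.ext h.symm
      · intro h
        exact absurd (Finset.mem_univ _) h
    · rw [hN i m (by omega)]
      refine Finset.sum_eq_zero fun j _ => ?_
      rw [if_neg]
      have := j.2
      omega
  have hinj : Function.Injective (Polynomial.mapAlgHom R.val) :=
    Polynomial.map_injective _ Subtype.val_injective
  have hFc : ∀ F ∈ FF, aeval (cur c (fun j => (j : ℕ))) F = 0 := by
    intro F hF
    apply hinj
    rw [map_zero, MvPolynomial.comp_aeval_apply]
    rw [← hp F hF]
    congr 2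
    funext i
    exact hcp i
  have hev : ∀ i, R.val ((cur c (fun j => (j : ℕ)) i).eval 1) = (p i).eval 1 := by
    intro i
    rw [← hcp i]
    have h1 : (1 : L) = (R.val : R →+* L) 1 := (map_one _).symm
    rw [Polynomial.coe_mapAlgHom, h1, Polynomial.eval_map, Polynomial.eval₂_at_apply]
    rfl
  -- the maximal ideal
  obtain ⟨m, hm⟩ := Ideal.exists_maximal R
  let K : Type := R ⧸ m
  let _ : Field K := Ideal.Quotient.field m
  let φ : R →ₐ[k] K := Ideal.Quotient.mkₐ k m
  have hφ : Function.Surjective φ := Ideal.Quotient.mkₐ_surjective k m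
  have : Algebra.FiniteType k K := Algebra.FiniteType.of_surjective φ hφ
  have : Module.Finite k K := finite_of_finite_type_of_isJacobsonRing k K
  -- nonvanishing
  have hgδ : g * δ ≠ 0 := mul_ne_zero hG hw
  let gR : R := aeval (fun i => (cur c (fun j => (j : ℕ)) i).eval 1) G
  have hgR : R.val gR = g := by
    show R.val (aeval _ G) = _
    rw [MvPolynomial.comp_aeval_apply, hg]
    congr 2
    funext i
    exact hev i
  let δR : R := (cur c (fun j => (j : ℕ)) i1 *
      Polynomial.C ((cur c (fun j => (j : ℕ)) i2).eval 1) -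
      cur c (fun j => (j : ℕ)) i2 * Polynomial.C ((cur c (fun j => (j : ℕ)) i1).eval 1)).coeff w
  have hδR : R.val δR = δ := by
    have h1 : R.val δR = (Polynomial.mapAlgHom R.val (cur c (fun j => (j : ℕ)) i1 *
      Polynomial.C ((cur c (fun j => (j : ℕ)) i2).eval 1) -
      cur c (fun j => (j : ℕ)) i2 *
        Polynomial.C ((cur c (fun j => (j : ℕ)) i1).eval 1))).coeff w := by
      rw [Polynomial.coe_mapAlgHom, Polynomial.coeff_map]
      rfl
    rw [h1, map_sub, map_mul, map_mul, hcp, hcp, hδ]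
    congr 3
    · rw [Polynomial.coe_mapAlgHom, Polynomial.map_C]
      congr 1
      exact hev i2
    · rw [Polynomial.coe_mapAlgHom, Polynomial.map_C]
      congr 1
      exact hev i1
  have hunit : φ gR * φ δR * φ ⟨(g * δ)⁻¹, hinvR⟩ = 1 := by
    rw [← map_mul, ← map_mul]
    have h1 : gR * δR * ⟨(g * δ)⁻¹, hinvR⟩ = 1 := by
      apply Subtype.val_injective
      show R.val gR * R.val δR * (g * δ)⁻¹ = 1
      rw [hgR, hδR]
      exact mul_inv_cancel₀ hgδ
    rw [h1, map_one]
  have hg0 : φ gR ≠ 0 := by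
    intro h
    rw [h, zero_mul, zero_mul] at hunit
    exact zero_ne_one hunit
  have hδ0 : φ δR ≠ 0 := by
    intro h
    rw [h, mul_zero, zero_mul] at hunit
    exact zero_ne_one hunit
  -- the specialised curve
  let v : Fin N → Fin (n + 1) → K := fun j i => φ (c j i)
  have hcv : ∀ i, Polynomial.mapAlgHom φ (cur c (fun j => (j : ℕ)) i) =
      cur v (fun j => (j : ℕ)) i := by
    intro i
    unfold cur
    rw [map_sum]
    refine Finset.sum_congr rfl fun j _ => ?_
    rw [map_mul, map_pow, Polynomial.coe_mapAlgHom, Polynomial.map_C, Polynomial.map_X]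
    rfl
  have hevK : ∀ i, φ ((cur c (fun j => (j : ℕ)) i).eval 1) =
      (cur v (fun j => (j : ℕ)) i).eval 1 := by
    intro i
    rw [← hcv i]
    have h1 : (1 : K) = (φ : R →+* K) 1 := (map_one _).symm
    rw [Polynomial.coe_mapAlgHom, h1, Polynomial.eval_map, Polynomial.eval₂_at_apply]
    rfl
  refine ⟨K, inferInstance, inferInstance, ‹Module.Finite k K›, v, ?_, ⟨i1, i2, ?_⟩, ?_⟩
  · intro F hF
    have h1 := congrArg (Polynomial.mapAlgHom φ) (hFc F hF)
    rw [map_zero, MvPolynomial.comp_aeval_apply] at h1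
    rw [← h1]
    congr 2
    funext i
    exact (hcv i).symm
  · intro h
    apply hδ0
    have h1 : φ δR = (Polynomial.mapAlgHom φ (cur c (fun j => (j : ℕ)) i1 *
      Polynomial.C ((cur c (fun j => (j : ℕ)) i2).eval 1) -
      cur c (fun j => (j : ℕ)) i2 *
        Polynomial.C ((cur c (fun j => (j : ℕ)) i1).eval 1))).coeff w := by
      rw [Polynomial.coe_mapAlgHom, Polynomial.coeff_map]
      rfl
    have h2 : Polynomial.mapAlgHom φ (cur c (fun j => (j : ℕ)) i1 *
      Polynomial.C ((cur c (fun j => (j : ℕ)) i2).eval 1) -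
      cur c (fun j => (j : ℕ)) i2 *
        Polynomial.C ((cur c (fun j => (j : ℕ)) i1).eval 1)) = 0 := by
      rw [map_sub, map_mul, map_mul, hcv, hcv]
      have h3 : ∀ i, Polynomial.mapAlgHom φ
          (Polynomial.C ((cur c (fun j => (j : ℕ)) i).eval 1)) =
          Polynomial.C ((cur v (fun j => (j : ℕ)) i).eval 1) := by
        intro i
        rw [Polynomial.coe_mapAlgHom, Polynomial.map_C]
        congr 1
        exact hevK i
      rw [h3, h3, h, sub_self]
    rw [h1, h2, Polynomial.coeff_zero]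
  · intro h
    apply hg0
    show φ (aeval _ G) = 0
    rw [MvPolynomial.comp_aeval_apply, ← h]
    congr 2
    funext i
    exact hevK i

variable {N : ℕ}

/-- a curve gives sequences of points -/
theorem seq_of_curve {k K : Type} [Field k] [Field K] [CharZero K] [Algebra k K] (σ : K →+* ℂ)
    (FF : Set (MvPolynomial (Fin (N + 1)) k)) {n : ℕ} (w : Fin n → Fin (N + 1) → K)
    (h1 : ∀ F ∈ FF, aeval (cur w (fun j => (j : ℕ))) F = 0)
    (h2 : ∃ i j, cur w (fun j => (j : ℕ)) i * Polynomial.C ((cur w (fun j => (j : ℕ)) j).eval 1) ≠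
        cur w (fun j => (j : ℕ)) j * Polynomial.C ((cur w (fun j => (j : ℕ)) i).eval 1))
    (G : MvPolynomial (Fin (N + 1)) k)
    (h3 : aeval (fun i => (cur w (fun j => (j : ℕ)) i).eval 1) G ≠ 0) :
    ∃ x : ℕ → Fin (N + 1) → K,
      (∀ m j, x m j ∈ Subfield.closure (Set.range fun q : Fin n × Fin (N + 1) => w q.1 q.2)) ∧
      (∀ j, CRecO n (fun m => x m j)) ∧ (∀ m, x m ≠ 0) ∧
      (∀ F ∈ FF, ∀ m, aeval (x m) F = 0) ∧ (∀ m, aeval (x m) G ≠ 0) ∧
      ∃ i j, ¬ AlgIndex Set.univ (fun m => x m i) (fun m => x m j) := by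
  classical
  let q : Fin (N + 1) → Polynomial K := cur w (fun j => (j : ℕ))
  have hevG : ∀ (F : MvPolynomial (Fin (N + 1)) k) (t : K), (aeval q F).eval t =
      aeval (fun i => (q i).eval t) F := fun F t => Pool.Agent.Y215.AF.aeval_eval q F t
  have hG0 : aeval q G ≠ 0 := by
    intro h
    apply h3
    have := hevG G 1
    rw [h, Polynomial.eval_zero] at this
    exact this.symm
  have : Infinite K := CharZero.infinite K
  obtain ⟨i1, i2, a, b, hab⟩ := Pool.Agent.TH409.SH.nonconst_of q h2
  have hq0 : ∃ i, q i ≠ 0 := by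
    by_contra h
    push Not at h
    apply hab
    rw [h i1, h i2]
  obtain ⟨i0, hi0⟩ := hq0
  obtain ⟨m1, hm1⟩ := eventually_atTop.1 ((pow_two_ev hG0).and (pow_two_ev hi0))
  have hcomp : ∀ (i : Fin (N + 1)) (m : ℕ), (q i).eval (2 ^ (m + m1)) =
      ((q i).comp (Polynomial.C (2 ^ m1) * Polynomial.X)).eval (2 ^ m) := by
    intro i m
    rw [Polynomial.eval_comp, Polynomial.eval_mul, Polynomial.eval_C, Polynomial.eval_X, pow_add,
      mul_comm]
  refine ⟨fun m i => (q i).eval (2 ^ (m + m1)), fun m j => ?_, fun j => ?_, fun m h0 => ?_,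
    fun F hF m => ?_, fun m => ?_, i1, i2, ?_⟩
  · change (q j).eval ((2 : K) ^ (m + m1)) ∈ _
    simp only [q]
    rw [eval_cur' w]
    refine sum_mem fun i _ => mul_mem ?_ (pow_mem (pow_mem ?_ _) _)
    · exact Subfield.subset_closure ⟨(i, j), rfl⟩
    · exact ofNat_mem _ 2
  · have h4 : (fun m => (q j).eval ((2 : K) ^ (m + m1))) = fun m => ∑ i : Fin n,
        (w i j * 2 ^ (m1 * (i : ℕ))) * ((2 : K) ^ (i : ℕ)) ^ m := by
      funext m
      simp only [q]
      rw [eval_cur' w]
      refine Finset.sum_congr rfl fun i _ => ?_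
      rw [← pow_mul, ← pow_mul, Nat.add_mul, pow_add, mul_comm (i : ℕ) m]
      ring
    rw [h4]
    exact crec_expsum _ _
  · exact (hm1 (m + m1) (by omega)).2 (congrFun h0 i0)
  · change aeval (fun i => (q i).eval (2 ^ (m + m1))) F = 0
    rw [← hevG, h1 F hF, Polynomial.eval_zero]
  · change aeval (fun i => (q i).eval (2 ^ (m + m1))) G ≠ 0
    rw [← hevG]
    exact (hm1 (m + m1) (by omega)).1
  · rintro ⟨d, b', hb', hrel⟩
    have hpos : (2 : K) ^ m1 ≠ 0 := pow_ne_zero _ two_ne_zero
    have h5 := prop_of_rel σ (p := (q i1).comp (Polynomial.C (2 ^ m1) * Polynomial.X))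
      (q := (q i2).comp (Polynomial.C (2 ^ m1) * Polynomial.X)) hb' (by
        filter_upwards [hrel] with m hm
        rw [← hcomp, ← hcomp]
        exact hm (Set.mem_univ m)) (a / 2 ^ m1) (b / 2 ^ m1)
    simp only [Polynomial.eval_comp, Polynomial.eval_mul, Polynomial.eval_C, Polynomial.eval_X,
      mul_div_cancel₀ _ hpos] at h5
    exact hab h5

/-- **Converse over algebraically closed fields.** -/
theorem conv_closed {k : Type} [Field k] [CharZero k] [IsAlgClosed k] (hk : #k ≤ 𝔠)
    (FF : Set (MvPolynomial (Fin (N + 1)) k)) (hu : Uniruled (Ideal.span FF)) :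
    ∃ r : ℕ, ∀ G : MvPolynomial (Fin (N + 1)) k, (∃ e, G.IsHomogeneous e) → G ∉ Ideal.span FF →
      ∃ (S : Finset k) (x : ℕ → Fin (N + 1) → k), (∀ m j, x m j ∈ Subfield.closure (S : Set k)) ∧
        (∀ j, CRecO r (fun m => x m j)) ∧ (∀ m, x m ≠ 0) ∧
        (∀ F ∈ FF, ∀ m, aeval (x m) F = 0) ∧ (∀ m, aeval (x m) G ≠ 0) ∧
        ∃ i j, ¬ AlgIndex Set.univ (fun m => x m i) (fun m => x m j) := by
  classical
  obtain ⟨L, iL, iA, p, hp1, hp2, hp3⟩ := hu
  set n : ℕ := Finset.univ.sup (fun i => (p i).natDegree) + 1 with hn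
  have hNc : ∀ i m, n ≤ m → (p i).coeff m = 0 := by
    intro i m hm
    apply Polynomial.coeff_eq_zero_of_natDegree_lt
    have := Finset.le_sup (f := fun i => (p i).natDegree) (Finset.mem_univ i)
    omega
  refine ⟨n, ?_⟩
  intro G hG1 hG2
  obtain ⟨K, iK, iAK, iF, v, h1, h2, h3⟩ := specialise' k L p FF (by
      intro F hF
      exact hp1 F (Ideal.subset_span hF)) n hNc hp3 G (hp2 G hG1 hG2)
  have hbij : Function.Bijective (algebraMap k K) :=
    IsAlgClosed.algebraMap_bijective_of_isIntegral
  let ε : k ≃ₐ[k] K := AlgEquiv.ofBijective (Algebra.ofId k K) hbij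
  let w : Fin n → Fin (N + 1) → k := fun i j => ε.symm (v i j)
  have hw : ∀ i, Polynomial.mapAlgHom (ε.symm : K →ₐ[k] k) (cur v (fun j => (j : ℕ)) i) =
      cur w (fun j => (j : ℕ)) i := by
    intro i
    unfold cur
    rw [map_sum]
    refine Finset.sum_congr rfl fun j _ => ?_
    rw [map_mul, map_pow, Polynomial.coe_mapAlgHom, Polynomial.map_C, Polynomial.map_X]
    rfl
  have hw1 : ∀ i, ε.symm ((cur v (fun j => (j : ℕ)) i).eval 1) =
      (cur w (fun j => (j : ℕ)) i).eval 1 := by
    intro i
    rw [← hw i]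
    have h4 : (1 : k) = ((ε.symm : K →ₐ[k] k) : K →+* k) 1 := (map_one _).symm
    rw [Polynomial.coe_mapAlgHom, h4, Polynomial.eval_map, Polynomial.eval₂_at_apply]
    rfl
  obtain ⟨σ⟩ := exists_emb k hk
  obtain ⟨x, hx1, hx2⟩ := seq_of_curve σ FF w (fun F hF => by
      have h4 := congrArg (Polynomial.mapAlgHom (ε.symm : K →ₐ[k] k)) (h1 F hF)
      rw [map_zero, MvPolynomial.comp_aeval_apply] at h4
      rw [← h4]
      congr 2
      funext i
      exact (hw i).symm) (by
      obtain ⟨i, j, hij⟩ := h2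
      refine ⟨i, j, fun h => hij ?_⟩
      have hinj : Function.Injective (Polynomial.mapAlgHom (ε.symm : K →ₐ[k] k)) :=
        Polynomial.map_injective _ ε.symm.injective
      apply hinj
      have hC : ∀ i, Polynomial.mapAlgHom (ε.symm : K →ₐ[k] k)
          (Polynomial.C ((cur v (fun j => (j : ℕ)) i).eval 1)) =
          Polynomial.C ((cur w (fun j => (j : ℕ)) i).eval 1) := by
        intro i
        rw [Polynomial.coe_mapAlgHom, Polynomial.map_C]
        congr 1
        exact hw1 i
      rw [map_mul, map_mul, hw, hw, hC, hC]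
      exact h) G (by
      intro h
      apply h3
      have hinj : Function.Injective (ε.symm : K →ₐ[k] k) := ε.symm.injective
      apply hinj
      rw [map_zero, MvPolynomial.comp_aeval_apply, ← h]
      congr 2
      funext i
      exact hw1 i)
  refine ⟨Finset.univ.image fun q : Fin n × Fin (N + 1) => w q.1 q.2, x, fun m j => ?_, hx2⟩
  have h4 := hx1 m j
  rwa [Finset.coe_image, Finset.coe_univ, Set.image_univ]

/-- polynomials in the index have transcendence degree one -/
theorem polyB_trK {K : Type} [Field K] : TrK (polyB K) 1 := by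
  intro b hb
  choose P hP using hb
  have h1 : ¬ AlgebraicIndependent K P := by
    intro h
    have h2 := h.cardinalMk_le_trdeg
    rw [Polynomial.trdeg_of_isDomain] at h2
    simp only [Cardinal.mk_fintype, Fintype.card_fin] at h2
    norm_num at h2
  rw [algebraicIndependent_iff] at h1
  push Not at h1
  obtain ⟨F, hF, hne⟩ := h1
  refine ⟨F, hne, Eventually.of_forall fun m => ?_⟩
  have h2 := congrArg (Polynomial.eval (m : K)) hF
  rw [Polynomial.eval_zero, Pool.Agent.Y215.AF.aeval_eval] at h2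
  rw [← h2, MvPolynomial.aeval_eq_eval]
  congr 2
  funext i
  exact hP i m

end Pool.Agent.Q183.RS
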