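import Pool.Agent.Q183.RS.Few
import Pool.Agent.TH143.DE.Fam

/-!
Curves with few terms through the points of a sequence given by linear recurrences.
-/

set_option autoImplicit false

namespace Pool.Agent.Q183.RS

open MvPolynomial Filter Pool.Agent.TH143.DE Pool.Agent.TH143 Pool.Agent.TH143.GT

variable {n : ℕ} {B : Subalgebra ℂ (ℕ → ℂ)} {J : Type} [Fintype J]

set_option linter.unusedSectionVars false

/-- the coordinates as polynomials in the entries of the matrix -/
noncomputable def Ph (E : Matrix J (Fin n) ℂ) (y0 : Fin n → ℂ) (j : J) :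
    MvPolynomial (Fin n × Fin n) ℂ := ∑ i, ∑ k, C (E j i * y0 k) * X (i, k)

theorem eval_Ph (E : Matrix J (Fin n) ℂ) (y0 : Fin n → ℂ) (j : J) (V : Matrix (Fin n) (Fin n) ℂ) :
    eval (mv V) (Ph E y0 j) = (E.mulVec (V.mulVec y0)) j := by
  unfold Ph
  simp only [map_sum, map_mul, eval_C, eval_X]
  change _ = ∑ i, E j i * ∑ k, V i k * y0 k
  refine Finset.sum_congr rfl fun i _ => ?_
  rw [Finset.mul_sum]
  refine Finset.sum_congr rfl fun k _ => ?_
  change E j i * y0 k * V i k = _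
  ring

theorem eval_Dc_Ph (E : Matrix J (Fin n) ℂ) (y0 : Fin n → ℂ) (j : J)
    (V β : Matrix (Fin n) (Fin n) ℂ) :
    eval (mv V) (Dc β (Ph E y0 j)) = (E.mulVec ((V * β).mulVec y0)) j := by
  have h1 : ∀ i k, eval (mv V) (Dc β (C (E j i * y0 k) * X (i, k))) =
      E j i * y0 k * (V * β) i k := by
    intro i k
    rw [Derivation.leibniz]
    have h2 : Dc β (C (E j i * y0 k)) = 0 := derivation_C _ _
    have h3 : Dc β (X (i, k)) = Wc β (i, k) := mkDerivation_X _ _ _
    rw [h2, h3, smul_zero, add_zero, smul_eq_mul, map_mul, eval_C, eval_Wc]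
  unfold Ph
  simp only [map_sum, h1]
  change _ = ∑ i, E j i * ∑ k, (V * β) i k * y0 k
  refine Finset.sum_congr rfl fun i _ => ?_
  rw [Finset.mul_sum]
  refine Finset.sum_congr rfl fun k _ => ?_
  ring

/-- linear forms -/
def lf (c : J → ℂ) (x : J → ℂ) : ℂ := ∑ j, c j * x j

/-- the class of a sequence in a field -/
noncomputable def kl {I : Ideal (ℕ → ℂ)} (K : Type) [Field K] [Algebra ((ℕ → ℂ) ⧸ I) K]
    (f : ℕ → ℂ) : K := algebraMap ((ℕ → ℂ) ⧸ I) K (mk' I f)

/-- **Curves with few terms through the points of the sequence.** -/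
theorem curves (hB : CoefField B) {q R : ℕ} (hR : Fintype.card J * q ≤ R) {x : ℕ → J → ℂ}
    (hx : ∀ j, RecO B q (fun m => x m j)) :
    ∃ t : ℕ, ∀ (I : Ideal (ℕ → ℂ)) (hI : EZ ≤ I) (_ : I.IsPrime) (K : Type) [Field K]
      [Algebra ((ℕ → ℂ) ⧸ I) K] [IsFractionRing ((ℕ → ℂ) ⧸ I) K] [Algebra ℂ K]
      [IsScalarTower ℂ ((ℕ → ℂ) ⧸ I) K] (c1 c0 : J → ℂ) (a0 : ℂ),
      kl (I := I) K (fun m => a0 + lf c0 (x (m + t))) ≠ 0 →
      Transcendental (cf hB hI K) (kl (I := I) K (fun m => lf c1 (x (m + t))) /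
        kl (I := I) K (fun m => a0 + lf c0 (x (m + t)))) →
      ∃ (l : Fin R → ℤ) (u : ℕ → Fin R → J → ℂ),
        (∀ᶠ m in atTop, ∑ i, u m i = x (m + t)) ∧
        (∀ F : MvPolynomial J ℂ, (∀ᶠ m in atTop, eval (x m) F = 0) → ∀ᶠ m in atTop,
          ∀ w : ℂ, w ≠ 0 → eval (∑ i, w ^ (l i) • u m i) F = 0) ∧
        (fun m => lf c1 (∑ i, (l i : ℂ) • u m i) * (a0 + lf c0 (x (m + t))) -
          lf c1 (x (m + t)) * lf c0 (∑ i, (l i : ℂ) • u m i)) ∉ I := by
  classical
  obtain ⟨t, n, A, U, E, y0, hn, hU, hdet, hxE⟩ := exists_sysO hB (fun j m => x m j) hx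
  refine ⟨t, ?_⟩
  intro I hI hIp K _ _ _ _ _ c1 c0 a0 hz0 htr
  have hdom : IsDomain ((ℕ → ℂ) ⧸ I) := Ideal.Quotient.isDomain I
  have hpt : ∀ᶠ m in atTop, x (m + t) = E.mulVec ((U m).mulVec y0) := by
    filter_upwards [hxE] with m hm
    funext j
    exact hm j
  obtain ⟨D, hD⟩ := der_of_transcendental htr
  set a := algebraMap ((ℕ → ℂ) ⧸ I) K with ha
  obtain ⟨L, k, P, hP, hgen, hL, hLW⟩ := lie hB A U hU
  let G1 : MvPolynomial (Fin n × Fin n) ℂ := ∑ j, C (c1 j) * Ph E y0 j
  let G0 : MvPolynomial (Fin n × Fin n) ℂ := C a0 + ∑ j, C (c0 j) * Ph E y0 j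
  have hG1 : ∀ V : Matrix (Fin n) (Fin n) ℂ, eval (mv V) G1 =
      lf c1 (E.mulVec (V.mulVec y0)) := by
    intro V
    simp only [G1, map_sum, map_mul, eval_C, eval_Ph]
    rfl
  have hG0 : ∀ V : Matrix (Fin n) (Fin n) ℂ, eval (mv V) G0 =
      a0 + lf c0 (E.mulVec (V.mulVec y0)) := by
    intro V
    simp only [G0, map_add, map_sum, map_mul, eval_C, eval_Ph]
    rfl
  have hD1 : ∀ V β : Matrix (Fin n) (Fin n) ℂ, eval (mv V) (Dc β G1) =
      lf c1 (E.mulVec ((V * β).mulVec y0)) := by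
    intro V β
    have h1 : Dc β G1 = ∑ j, C (c1 j) * Dc β (Ph E y0 j) := by
      simp only [G1, map_sum]
      refine Finset.sum_congr rfl fun j _ => ?_
      rw [Derivation.leibniz]
      have h2 : Dc β (C (c1 j)) = 0 := derivation_C _ _
      rw [h2, smul_zero, add_zero, smul_eq_mul]
    rw [h1]
    simp only [map_sum, map_mul, eval_C, eval_Dc_Ph]
    rfl
  have hD0 : ∀ V β : Matrix (Fin n) (Fin n) ℂ, eval (mv V) (Dc β G0) =
      lf c0 (E.mulVec ((V * β).mulVec y0)) := by
    intro V β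
    have h1 : Dc β G0 = ∑ j, C (c0 j) * Dc β (Ph E y0 j) := by
      simp only [G0, map_add, map_sum]
      have h3 : Dc β (C a0) = 0 := derivation_C _ _
      rw [h3, zero_add]
      refine Finset.sum_congr rfl fun j _ => ?_
      rw [Derivation.leibniz]
      have h2 : Dc β (C (c0 j)) = 0 := derivation_C _ _
      rw [h2, smul_zero, add_zero, smul_eq_mul]
    rw [h1]
    simp only [map_sum, map_mul, eval_C, eval_Dc_Ph]
    rfl
  have hcl1 : a (cl I fun m => eval (mv (U m)) G1) = kl (I := I) K (fun m => lf c1 (x (m + t))) := by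
    unfold kl
    congr 1
    change mk' I _ = _
    rw [← sub_eq_zero, ← map_sub]
    refine mk'_zero.2 (hI ?_)
    rw [mem_EZ]
    filter_upwards [hpt] with m hm
    rw [Pi.sub_apply, hm, hG1, sub_self]
  have hcl0 : a (cl I fun m => eval (mv (U m)) G0) =
      kl (I := I) K (fun m => a0 + lf c0 (x (m + t))) := by
    unfold kl
    congr 1
    change mk' I _ = _
    rw [← sub_eq_zero, ← map_sub]
    refine mk'_zero.2 (hI ?_)
    rw [mem_EZ]
    filter_upwards [hpt] with m hm
    rw [Pi.sub_apply, hm, hG0, sub_self]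
  set z1 := kl (I := I) K (fun m => lf c1 (x (m + t))) with hz1d
  set z0 := kl (I := I) K (fun m => a0 + lf c0 (x (m + t))) with hz0d
  obtain ⟨β, hβL, hβ⟩ := exists_beta (B := B) hI D (fun a b => map_add D a b)
    (fun a b => D.leibniz a b) (fun b hb => D.map_algebraMap (⟨_, b, hb, rfl⟩ : cf hB hI K))
    U hdet L P hP hL G0 G1 (by
      rw [← ha, hcl0, hcl1]
      have h1 : z1 = (z1 / z0) * z0 := (div_mul_cancel₀ _ hz0).symm
      have h2 : D z1 = (z1 / z0) * D z0 + z0 := by
        conv_lhs => rw [h1]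
        rw [D.leibniz, hD, smul_eq_mul, smul_eq_mul, mul_one]
      have h3 : D z1 * z0 - z1 * D z0 = z0 ^ 2 := by
        rw [h2]
        linear_combination (-D z0) * h1
      rw [h3]
      exact pow_ne_zero _ hz0)
  obtain ⟨ex, he0, he1, -⟩ := exists_exp_flow β
  have he : ExpF β ex := ⟨he0, he1⟩
  have hflow : ∀ p : MvPolynomial (Fin n × Fin n) ℂ, (∀ᶠ m in atTop, eval (mv (U m)) p = 0) →
      ∀ᶠ m in atTop, ∀ t, eval (mv (U m * ex t)) p = 0 := by
    intro p hp
    have h1 := flow hP hgen (hLW β hβL) he (P' := cB B p) (by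
      rw [mem_JU]
      filter_upwards [hp] with m hm
      rw [at'_cB]
      exact hm)
    filter_upwards [h1] with m hm t
    rw [← at'_cB (B := B) m p]
    exact hm t
  -- the functional
  let ψ : ℕ → (Fin n → ℂ) →ₗ[ℂ] ℂ := fun m =>
    { toFun := fun w => lf c1 (E.mulVec ((U m).mulVec w)) * (a0 + lf c0 (E.mulVec ((U m).mulVec y0))) -
        lf c1 (E.mulVec ((U m).mulVec y0)) * lf c0 (E.mulVec ((U m).mulVec w))
      map_add' := by
        intro w w'
        simp only [Matrix.mulVec_add, lf, Pi.add_apply, mul_add, Finset.sum_add_distrib]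
        ring
      map_smul' := by
        intro c w
        simp only [Matrix.mulVec_smul, lf, Pi.smul_apply, smul_eq_mul, RingHom.id_apply]
        have h1 : ∀ (d : J → ℂ) (v : J → ℂ), ∑ j, d j * (c * v j) = c * ∑ j, d j * v j := by
          intro d v
          rw [Finset.mul_sum]
          exact Finset.sum_congr rfl fun j _ => by ring
        rw [h1, h1]
        ring }
  have hψ : (fun m => ψ m (β.mulVec y0)) ∉ I := by
    have h1 : (fun m => ψ m (β.mulVec y0)) = fun m => eval (mv (U m)) (Dc β G1) *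
        eval (mv (U m)) G0 - eval (mv (U m)) G1 * eval (mv (U m)) (Dc β G0) := by
      funext m
      rw [hD1, hD0, hG1, hG0]
      simp only [ψ, LinearMap.coe_mk, AddHom.coe_mk, Matrix.mulVec_mulVec, Matrix.mul_assoc]
    rw [h1]
    exact hβ
  obtain ⟨l, u, hu, hul, huF⟩ := few he y0 ((hn.trans hR)) I ψ hψ
  refine ⟨l, fun m i => E.mulVec ((U m).mulVec (u i)), ?_, ?_, ?_⟩
  · filter_upwards [hpt] with m hm
    rw [hm, ← hu, Matrix.mulVec_sum, Matrix.mulVec_sum]
  · intro F hF
    have h1 : ∀ V : Matrix (Fin n) (Fin n) ℂ, eval (mv V) (bind₁ (Ph E y0) F) =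
        eval (E.mulVec (V.mulVec y0)) F := by
      intro V
      have h1 : eval (mv V) (bind₁ (Ph E y0) F) = eval (fun j => eval (mv V) (Ph E y0 j)) F := by
        rw [eval, eval₂Hom_bind₁]
        rfl
      rw [h1]
      congr 1
      congr 1
      funext j
      exact eval_Ph _ _ _ _
    have h2 := hflow (bind₁ (Ph E y0) F) (by
      filter_upwards [hpt, eventually_shift hF t] with m h3 h4
      rw [h1, ← h3]
      exact h4)
    filter_upwards [h2] with m hm w hw
    have h3 := huF (E * U m) F (fun s => by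
      have h4 := hm s
      rw [h1] at h4
      rw [← h4]
      simp only [Matrix.mulVec_mulVec, Matrix.mul_assoc]) w hw
    have h4 : (∑ i, w ^ (l i) • E.mulVec ((U m).mulVec (u i))) =
        (E * U m).mulVec (∑ i, w ^ (l i) • u i) := by
      rw [Matrix.mulVec_sum]
      refine Finset.sum_congr rfl fun i _ => ?_
      rw [Matrix.mulVec_smul, Matrix.mulVec_mulVec]
    rw [h4]
    exact h3
  · have h1 : (fun m => ψ m (∑ i, (l i : ℂ) • u i)) -
        (fun m => lf c1 (∑ i, (l i : ℂ) • E.mulVec ((U m).mulVec (u i))) *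
          (a0 + lf c0 (x (m + t))) -
          lf c1 (x (m + t)) * lf c0 (∑ i, (l i : ℂ) • E.mulVec ((U m).mulVec (u i)))) ∈ I := by
      apply hI
      rw [mem_EZ]
      filter_upwards [hpt] with m hm
      have h4 : (∑ i, (l i : ℂ) • E.mulVec ((U m).mulVec (u i))) =
          E.mulVec ((U m).mulVec (∑ i, (l i : ℂ) • u i)) := by
        rw [Matrix.mulVec_sum, Matrix.mulVec_sum]
        refine Finset.sum_congr rfl fun i _ => ?_
        rw [Matrix.mulVec_smul, Matrix.mulVec_smul]
      rw [Pi.sub_apply, h4, hm]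
      simp only [ψ, LinearMap.coe_mk, AddHom.coe_mk]
      ring
    intro h2
    apply hul
    have h3 := I.add_mem h1 h2
    rwa [sub_add_cancel] at h3

end Pool.Agent.Q183.RS
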