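import Pool.Agent.TH143.DE.Flow

/-!
One-parameter groups of matrices: explicit formulas with few terms.
-/

set_option autoImplicit false

namespace Pool.Agent.Q183.RS

open MvPolynomial Filter Pool.Agent.TH143.DE

variable {n : ℕ}

theorem sum_extend {ι κ M : Type} [Fintype ι] [Fintype κ] [DecidableEq κ] [AddCommMonoid M] (g : ι → κ)
    (hg : Function.Injective g) (f : ι → M) :
    ∑ k, Function.extend g f (fun _ => 0) k = ∑ i, f i := by
  classical
  have h1 : ∑ i, f i = ∑ k ∈ Finset.univ.image g, Function.extend g f (fun _ => 0) k := by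
    rw [Finset.sum_image fun a _ b _ h => hg h]
    exact Finset.sum_congr rfl fun i _ => (hg.extend_apply f _ i).symm
  rw [h1]
  symm
  refine Finset.sum_subset (Finset.subset_univ _) fun k _ hk => ?_
  rw [Function.extend_apply' f (fun _ => (0 : M)) k]
  rintro ⟨i, rfl⟩
  exact hk (Finset.mem_image_of_mem _ (Finset.mem_univ i))

/-- decomposition of a vector into generalised eigenvectors -/
theorem exists_dec (T : Module.End ℂ (Fin n → ℂ)) (y : Fin n → ℂ) {R : ℕ} (hR : n ≤ R) :
    ∃ (μ : Fin R → ℂ) (v : Fin R → Fin n → ℂ), ∑ i, v i = y ∧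
      ∀ i, ((T - μ i • 1) ^ R) (v i) = 0 := by
  classical
  have hy : y ∈ ⨆ (μ : ℂ), T.maxGenEigenspace μ := by
    rw [Module.End.iSup_maxGenEigenspace_eq_top]
    exact Submodule.mem_top
  obtain ⟨f, hf, hsum⟩ := (Submodule.mem_iSup_iff_exists_finsupp _ _).1 hy
  have hli : LinearIndependent ℂ (fun i : f.support => f i) := by
    have h1 : iSupIndep fun i : f.support => T.maxGenEigenspace (i : ℂ) :=
      (Module.End.independent_maxGenEigenspace T).comp Subtype.val_injective
    exact h1.linearIndependent _ (fun i => hf i) (fun i => Finsupp.mem_support_iff.1 i.2)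
  have hcard : Fintype.card f.support ≤ R := by
    have h1 := hli.fintype_card_le_finrank
    rw [Module.finrank_fin_fun] at h1
    exact h1.trans hR
  obtain ⟨g⟩ : Nonempty (f.support ↪ Fin R) := by
    rw [Function.Embedding.nonempty_iff_card_le, Fintype.card_fin]
    exact hcard
  refine ⟨Function.extend g (fun i => (i : ℂ)) (fun _ => 0),
    Function.extend g (fun i => f i) (fun _ => 0), ?_, fun k => ?_⟩
  · rw [sum_extend g g.injective, ← hsum]
    exact Finset.sum_coe_sort f.support (fun i => f i)
  · by_cases hk : ∃ i, g i = k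
    · obtain ⟨i, rfl⟩ := hk
      rw [g.injective.extend_apply, g.injective.extend_apply]
      have h1 := hf i
      rw [Module.End.maxGenEigenspace_eq_genEigenspace_finrank,
        Module.End.mem_genEigenspace_nat, LinearMap.mem_ker, Module.finrank_fin_fun] at h1
      obtain ⟨e, rfl⟩ := Nat.exists_eq_add_of_le hR
      rw [add_comm n e, pow_add, Module.End.mul_apply, h1, map_zero]
    · rw [Function.extend_apply' _ _ _ hk, Function.extend_apply' _ _ _ hk, map_zero]

/-- the coefficient of the `a`-th power -/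
noncomputable def cf' (μ : ℂ) (a : ℕ) (t : ℂ) : ℂ := Complex.exp (μ * t) * (t ^ a / a.factorial)

theorem cf'_der_zero (μ t : ℂ) : HasDerivAt (cf' μ 0) (μ * cf' μ 0 t) t := by
  have h1 : HasDerivAt (fun t : ℂ => Complex.exp (μ * t)) (Complex.exp (μ * t) * μ) t := by
    have := ((hasDerivAt_id t).const_mul μ).cexp
    simpa using this
  have h2 : cf' μ 0 = fun t => Complex.exp (μ * t) := by
    funext t
    simp [cf']
  rw [h2]
  refine h1.congr_deriv ?_
  ring

theorem cf'_der_succ (μ t : ℂ) (a : ℕ) :
    HasDerivAt (cf' μ (a + 1)) (μ * cf' μ (a + 1) t + cf' μ a t) t := by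
  have h1 : HasDerivAt (fun t : ℂ => Complex.exp (μ * t)) (Complex.exp (μ * t) * μ) t := by
    have := ((hasDerivAt_id t).const_mul μ).cexp
    simpa using this
  have h2 : HasDerivAt (fun t : ℂ => t ^ (a + 1) / ((a + 1).factorial : ℂ))
      (((a + 1 : ℕ) : ℂ) * t ^ a / ((a + 1).factorial : ℂ)) t := (hasDerivAt_pow (a + 1) t).div_const _
  refine (h1.mul h2).congr_deriv ?_
  have h3 : ((a + 1 : ℕ) : ℂ) * t ^ a / ((a + 1).factorial : ℂ) = t ^ a / (a.factorial : ℂ) := by
    rw [Nat.factorial_succ]
    have h4 : ((a : ℂ) + 1) ≠ 0 := Nat.cast_add_one_ne_zero a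
    have h5 : (a.factorial : ℂ) ≠ 0 := Nat.cast_ne_zero.2 (Nat.factorial_ne_zero a)
    push_cast
    field_simp
  rw [h3]
  unfold cf'
  ring

/-- the solution with a generalised eigenvector as initial value -/
theorem sol_gen (T : Module.End ℂ (Fin n → ℂ)) (μ : ℂ) (v : Fin n → ℂ) {R : ℕ}
    (hv : ((T - μ • 1) ^ R) v = 0) :
    ∃ w' : ℂ → Fin n → ℂ, (∀ t k, HasDerivAt
        (fun t => (∑ a ∈ Finset.range R, cf' μ a t • ((T - μ • 1) ^ a) v) k) (w' t k) t) ∧
      (∀ t, w' t = T (∑ a ∈ Finset.range R, cf' μ a t • ((T - μ • 1) ^ a) v)) ∧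
      ∑ a ∈ Finset.range R, cf' μ a 0 • ((T - μ • 1) ^ a) v = v := by
  classical
  set N : Module.End ℂ (Fin n → ℂ) := T - μ • 1 with hN
  have hT : ∀ w, T w = μ • w + N w := by
    intro w
    rw [hN]
    simp
  cases R with
  | zero =>
    have hv0 : v = 0 := by simpa using hv
    refine ⟨fun _ => 0, fun t k => ?_, fun t => ?_, ?_⟩
    · simpa using hasDerivAt_const t (0 : ℂ)
    · simp
    · simp [hv0]
  | succ R =>
    let c' : ℕ → ℂ → ℂ := fun a t => if a = 0 then μ * cf' μ 0 t else μ * cf' μ a t + cf' μ (a - 1) t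
    have hc' : ∀ a t, HasDerivAt (cf' μ a) (c' a t) t := by
      intro a t
      cases a with
      | zero => exact cf'_der_zero μ t
      | succ a => exact cf'_der_succ μ t a
    refine ⟨fun t => ∑ a ∈ Finset.range (R + 1), c' a t • (N ^ a) v, fun t k => ?_, fun t => ?_, ?_⟩
    · have h3 : (fun t => (∑ a ∈ Finset.range (R + 1), cf' μ a t • (N ^ a) v) k) =
          fun t => ∑ a ∈ Finset.range (R + 1), cf' μ a t * (N ^ a) v k := by
        funext s
        rw [Finset.sum_apply]
        rfl
      rw [h3]
      simp only [Finset.sum_apply]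
      apply HasDerivAt.fun_sum
      intro l _
      exact (hc' l t).mul_const _
    · rw [hT, Finset.smul_sum, map_sum]
      simp only
      rw [Finset.sum_range_succ' (fun a => c' a t • (N ^ a) v)]
      rw [Finset.sum_range_succ' (fun a => μ • cf' μ a t • (N ^ a) v)]
      rw [Finset.sum_range_succ (fun a => N (cf' μ a t • (N ^ a) v))]
      have h4 : N (cf' μ R t • (N ^ R) v) = 0 := by
        rw [map_smul, ← Module.End.mul_apply, ← pow_succ', hv, smul_zero]
      rw [h4, add_zero]
      have h5 : ∀ a ∈ Finset.range R, c' (a + 1) t • (N ^ (a + 1)) v =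
          μ • cf' μ (a + 1) t • (N ^ (a + 1)) v + N (cf' μ a t • (N ^ a) v) := by
        intro a _
        rw [map_smul, ← Module.End.mul_apply, ← pow_succ']
        simp only [c', Nat.succ_ne_zero, if_false, Nat.add_sub_cancel, add_smul, smul_smul]
      rw [Finset.sum_congr rfl h5, Finset.sum_add_distrib]
      simp only [c', if_true, smul_smul]
      abel
    · rw [Finset.sum_range_succ', Finset.sum_eq_zero]
      · simp [cf']
      · intro a _
        simp [cf']

/-- **The formula for the one-parameter group.** -/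
theorem flow_formula {β : Matrix (Fin n) (Fin n) ℂ} {ex : ℂ → Matrix (Fin n) (Fin n) ℂ}
    (he : ExpF β ex) (y : Fin n → ℂ) {R : ℕ} (μ : Fin R → ℂ) (v : Fin R → Fin n → ℂ)
    (hy : ∑ i, v i = y)
    (hv : ∀ i, ((Matrix.toLin' β - μ i • 1) ^ R) (v i) = 0) (t : ℂ) :
    (ex t).mulVec y = ∑ i, ∑ a ∈ Finset.range R,
      cf' (μ i) a t • ((Matrix.toLin' β - μ i • 1) ^ a) (v i) := by
  classical
  choose w' h1 h2 h3 using fun i => sol_gen (Matrix.toLin' β) (μ i) (v i) (hv i)
  set w : ℂ → Fin n → ℂ := fun t => ∑ i, ∑ a ∈ Finset.range R,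
      cf' (μ i) a t • ((Matrix.toLin' β - μ i • 1) ^ a) (v i) with hw
  have hwd : ∀ t k, HasDerivAt (fun t => w t k) ((β.mulVec (w t)) k) t := by
    intro t k
    have h4 : (fun t => w t k) = fun t => ∑ i, (∑ a ∈ Finset.range R,
        cf' (μ i) a t • ((Matrix.toLin' β - μ i • 1) ^ a) (v i)) k := by
      funext t
      simp only [hw]
      rw [Finset.sum_apply]
    rw [h4]
    have h5 : (β.mulVec (w t)) k = ∑ i, w' i t k := by
      have h6 : β.mulVec (w t) = ∑ i, w' i t := by
        rw [← Matrix.toLin'_apply, hw]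
        simp only
        rw [map_sum]
        exact Finset.sum_congr rfl fun i _ => (h2 i t).symm
      rw [h6, Finset.sum_apply]
    rw [h5]
    exact HasDerivAt.fun_sum fun i _ => h1 i t k
  have hw0 : w 0 = y := by
    simp only [hw]
    rw [← hy]
    exact Finset.sum_congr rfl fun i _ => h3 i
  -- the function `ex (t - s) w s` is constant
  have hconst : ∀ (k : Fin n) (s : ℂ), HasDerivAt (fun s => ((ex (t - s)).mulVec (w s)) k) 0 s := by
    intro k s
    have h4 : (fun s => ((ex (t - s)).mulVec (w s)) k) = fun s => ∑ l, ex (t - s) k l * w s l := by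
      funext s
      rfl
    rw [h4]
    have h5 : ∀ l, HasDerivAt (fun s => ex (t - s) k l * w s l)
        (-((ex (t - s) * β) k l) * w s l + ex (t - s) k l * (β.mulVec (w s)) l) s := by
      intro l
      have h6 : HasDerivAt (fun s => ex (t - s) k l) (-((ex (t - s) * β) k l)) s := by
        have h7 := (he.der (t - s) k l)
        have h8 : HasDerivAt (fun s : ℂ => t - s) (-1) s := by
          simpa using (hasDerivAt_id s).const_sub t
        have h9 := HasDerivAt.comp s h7 h8
        refine HasDerivAt.congr_deriv h9 ?_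
        ring
      exact h6.mul (hwd s l)
    have h6 := HasDerivAt.fun_sum (u := Finset.univ) fun l _ => h5 l
    refine h6.congr_deriv ?_
    rw [Finset.sum_add_distrib]
    have h7 : ∑ l, ex (t - s) k l * (β.mulVec (w s)) l = ((ex (t - s) * β).mulVec (w s)) k := by
      rw [← Matrix.mulVec_mulVec]
      rfl
    rw [h7]
    have h8 : ((ex (t - s) * β).mulVec (w s)) k = ∑ l, (ex (t - s) * β) k l * w s l := rfl
    rw [h8]
    simp only [neg_mul, Finset.sum_neg_distrib, neg_add_cancel]
  funext k
  have h5 := is_const_of_deriv_eq_zero (fun s => (hconst k s).differentiableAt)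
    (fun s => (hconst k s).deriv) 0 t
  simp only [sub_zero, sub_self, he.zero, Matrix.one_mulVec, hw0] at h5
  exact h5

end Pool.Agent.Q183.RS
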