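import Pool.Agent.Q183.RS.Hyp

/-!
Difference rings of sequences over a field, and their extensions to the complex numbers.
-/

set_option autoImplicit false

namespace Pool.Agent.Q183.RS

open MvPolynomial Filter Pool.Agent.TH143.DE

variable {K : Type} [Field K]

/-- A difference ring of sequences over `K`: closed under the shift, and each of its elements is
zero from some index on or nonzero from some index on. -/
structure DiffRing (B : Subalgebra K (ℕ → K)) : Prop where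
  shift : ∀ b ∈ B, (fun m => b (m + 1)) ∈ B
  dich : ∀ b ∈ B, (∀ᶠ m in atTop, b m = 0) ∨ ∀ᶠ m in atTop, b m ≠ 0

variable [Algebra K ℂ]

/-- coordinates in a finite-dimensional space -/
theorem exists_coords (W : Submodule K ℂ) (hW : W.FG) :
    ∃ (s : ℕ) (β : Fin s → ℂ) (φ : Fin s → (ℂ →ₗ[K] K)), ∀ z ∈ W,
      z = ∑ j, algebraMap K ℂ (φ j z) * β j := by
  classical
  have hfin : Module.Finite K W := Module.Finite.iff_fg.2 hW
  let b := Module.finBasis K W
  choose φ hφ using fun j => LinearMap.exists_extend (b.coord j)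
  refine ⟨Module.finrank K W, fun j => b j, φ, fun z hz => ?_⟩
  have h1 := congrArg Subtype.val (b.sum_repr ⟨z, hz⟩)
  simp only [Submodule.coe_sum, Submodule.coe_smul] at h1
  conv_lhs => rw [← h1]
  refine Finset.sum_congr rfl fun j _ => ?_
  rw [Algebra.smul_def]
  congr 2
  have h2 := LinearMap.congr_fun (hφ j) ⟨z, hz⟩
  rw [LinearMap.comp_apply, Submodule.subtype_apply] at h2
  rw [h2]
  rfl

/-- the extension of the coefficients to the complex numbers -/
def extB (B : Subalgebra K (ℕ → K)) : Subalgebra ℂ (ℕ → ℂ) where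
  carrier := {f | ∃ W : Submodule K ℂ, W.FG ∧ (∀ m, f m ∈ W) ∧
    ∀ φ : ℂ →ₗ[K] K, (fun m => φ (f m)) ∈ B}
  mul_mem' := by
    rintro f g ⟨W, hW, hf, hfB⟩ ⟨W', hW', hg, hgB⟩
    refine ⟨W * W', hW.mul hW', fun m => Submodule.mul_mem_mul (hf m) (hg m), fun φ => ?_⟩
    obtain ⟨s, β, ψ, hψ⟩ := exists_coords W hW
    have h1 : (fun m => φ ((f * g) m)) =
        ∑ j, (fun m => ψ j (f m)) * fun m => (φ ∘ₗ LinearMap.mulLeft K (β j)) (g m) := by
      funext m
      rw [Pi.mul_apply, Finset.sum_apply]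
      conv_lhs => rw [hψ (f m) (hf m)]
      rw [Finset.sum_mul, map_sum]
      refine Finset.sum_congr rfl fun j _ => ?_
      rw [Pi.mul_apply, LinearMap.comp_apply, LinearMap.mulLeft_apply, mul_assoc,
        ← Algebra.smul_def, map_smul, smul_eq_mul]
    rw [h1]
    exact B.sum_mem fun j _ => B.mul_mem (hfB (ψ j)) (hgB _)
  add_mem' := by
    rintro f g ⟨W, hW, hf, hfB⟩ ⟨W', hW', hg, hgB⟩
    refine ⟨W ⊔ W', hW.sup hW', fun m => Submodule.add_mem_sup (hf m) (hg m), fun φ => ?_⟩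
    have h1 : (fun m => φ ((f + g) m)) = (fun m => φ (f m)) + fun m => φ (g m) := by
      funext m
      rw [Pi.add_apply, map_add]
      rfl
    rw [h1]
    exact B.add_mem (hfB φ) (hgB φ)
  algebraMap_mem' := by
    intro c
    refine ⟨Submodule.span K {c}, Submodule.fg_span_singleton c,
      fun m => Submodule.mem_span_singleton_self c, fun φ => ?_⟩
    exact B.algebraMap_mem (φ c)

theorem mem_extB {B : Subalgebra K (ℕ → K)} {f : ℕ → ℂ} : f ∈ extB B ↔
    ∃ W : Submodule K ℂ, W.FG ∧ (∀ m, f m ∈ W) ∧ ∀ φ : ℂ →ₗ[K] K, (fun m => φ (f m)) ∈ B := Iff.rfl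

theorem emb_mem {B : Subalgebra K (ℕ → K)} {b : ℕ → K} (hb : b ∈ B) :
    (fun m => algebraMap K ℂ (b m)) ∈ extB B := by
  refine ⟨Submodule.span K {1}, Submodule.fg_span_singleton 1, fun m => ?_, fun φ => ?_⟩
  · change algebraMap K ℂ (b m) ∈ _
    rw [← mul_one (algebraMap K ℂ (b m)), ← Algebra.smul_def]
    exact Submodule.smul_mem _ _ (Submodule.mem_span_singleton_self 1)
  · have h1 : (fun m => φ (algebraMap K ℂ (b m))) = b * fun _ => φ 1 := by
      funext m
      rw [← mul_one (algebraMap K ℂ (b m)), ← Algebra.smul_def, map_smul, smul_eq_mul]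
      rfl
    rw [h1]
    exact B.mul_mem hb (B.algebraMap_mem (φ 1))

/-- a functional which is not eventually zero -/
theorem exists_phi {B : Subalgebra K (ℕ → K)} (hB : DiffRing B) {f : ℕ → ℂ} (hf : f ∈ extB B)
    (h : ¬ ∀ᶠ m in atTop, f m = 0) : ∃ φ : ℂ →ₗ[K] K, ∀ᶠ m in atTop, φ (f m) ≠ 0 := by
  classical
  obtain ⟨W, hW, hfW, hfB⟩ := mem_extB.1 hf
  obtain ⟨s, β, ψ, hψ⟩ := exists_coords W hW
  by_contra hcon
  push Not at hcon
  apply h
  have h1 : ∀ j, ∀ᶠ m in atTop, ψ j (f m) = 0 := by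
    intro j
    rcases hB.dich _ (hfB (ψ j)) with h2 | h2
    · exact h2
    · exact absurd h2 (by
        intro h3
        exact hcon (ψ j) h3)
  filter_upwards [eventually_all.2 h1] with m hm
  rw [hψ (f m) (hfW m)]
  refine Finset.sum_eq_zero fun j _ => ?_
  rw [hm j, map_zero, zero_mul]

theorem dich_ext {B : Subalgebra K (ℕ → K)} (hB : DiffRing B) {f : ℕ → ℂ} (hf : f ∈ extB B) :
    (∀ᶠ m in atTop, f m = 0) ∨ ∀ᶠ m in atTop, f m ≠ 0 := by
  by_cases h : ∀ᶠ m in atTop, f m = 0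
  · exact Or.inl h
  · right
    obtain ⟨φ, hφ⟩ := exists_phi hB hf h
    filter_upwards [hφ] with m hm h0
    rw [h0, map_zero] at hm
    exact hm rfl

theorem ext_shift {B : Subalgebra K (ℕ → K)} (hB : DiffRing B) {f : ℕ → ℂ} (hf : f ∈ extB B) :
    (fun m => f (m + 1)) ∈ extB B := by
  obtain ⟨W, hW, hfW, hfB⟩ := mem_extB.1 hf
  exact ⟨W, hW, fun m => hfW (m + 1), fun φ => hB.shift _ (hfB φ)⟩

/-- the field of coefficients -/
def fracB (B : Subalgebra K (ℕ → K)) : Subalgebra ℂ (ℕ → ℂ) where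
  carrier := {f | ∃ g ∈ extB B, ∃ h ∈ extB B, (∀ᶠ m in atTop, h m ≠ 0) ∧
    ∀ᶠ m in atTop, f m = g m / h m}
  mul_mem' := by
    rintro f f' ⟨g, hg, h, hh, h0, hf⟩ ⟨g', hg', h', hh', h0', hf'⟩
    refine ⟨g * g', (extB B).mul_mem hg hg', h * h', (extB B).mul_mem hh hh', ?_, ?_⟩
    · filter_upwards [h0, h0'] with m h1 h2
      exact mul_ne_zero h1 h2
    · filter_upwards [hf, hf'] with m h1 h2
      rw [Pi.mul_apply, Pi.mul_apply, Pi.mul_apply, h1, h2, div_mul_div_comm]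
  add_mem' := by
    rintro f f' ⟨g, hg, h, hh, h0, hf⟩ ⟨g', hg', h', hh', h0', hf'⟩
    refine ⟨g * h' + h * g', (extB B).add_mem ((extB B).mul_mem hg hh') ((extB B).mul_mem hh hg'),
      h * h', (extB B).mul_mem hh hh', ?_, ?_⟩
    · filter_upwards [h0, h0'] with m h1 h2
      exact mul_ne_zero h1 h2
    · filter_upwards [hf, hf', h0, h0'] with m h1 h2 h3 h4
      rw [Pi.add_apply, Pi.add_apply, Pi.mul_apply, Pi.mul_apply, Pi.mul_apply, h1, h2,
        div_add_div _ _ h3 h4]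
  algebraMap_mem' := fun c => ⟨_, (extB B).algebraMap_mem c, 1, (extB B).one_mem,
    Eventually.of_forall fun m => one_ne_zero, Eventually.of_forall fun m => by
      rw [Pi.one_apply, div_one]⟩

theorem ext_le_frac (B : Subalgebra K (ℕ → K)) : extB B ≤ fracB B := fun f hf =>
  ⟨f, hf, 1, (extB B).one_mem, Eventually.of_forall fun m => one_ne_zero,
    Eventually.of_forall fun m => by rw [Pi.one_apply, div_one]⟩

theorem frac_field {B : Subalgebra K (ℕ → K)} (hB : DiffRing B) : CoefField (fracB B) := by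
  refine ⟨⟨?_, ?_⟩, ?_⟩
  · rintro f ⟨g, hg, h, hh, h0, hf⟩
    exact ⟨_, ext_shift hB hg, _, ext_shift hB hh, eventually_shift h0 1, eventually_shift hf 1⟩
  · rintro f ⟨g, hg, h, hh, h0, hf⟩
    rcases dich_ext hB hg with h1 | h1
    · left
      filter_upwards [hf, h1] with m h2 h3
      rw [h2, h3, zero_div]
    · right
      filter_upwards [hf, h1, h0] with m h2 h3 h4
      rw [h2]
      exact div_ne_zero h3 h4
  · rintro f ⟨g, hg, h, hh, h0, hf⟩
    rcases dich_ext hB hg with h1 | h1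
    · refine ⟨0, (extB B).zero_mem, 1, (extB B).one_mem, Eventually.of_forall fun m => one_ne_zero, ?_⟩
      filter_upwards [hf, h1] with m h2 h3
      rw [h2, h3, zero_div, inv_zero, Pi.zero_apply, zero_div]
    · refine ⟨h, hh, g, hg, h1, ?_⟩
      filter_upwards [hf] with m h2
      rw [h2, inv_div]

/-- The sequence `f` satisfies a nontrivial linear recurrence of order at most `r` with coefficients
in the difference ring `B`. -/
def RecK (B : Subalgebra K (ℕ → K)) (r : ℕ) (f : ℕ → K) : Prop :=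
  ∃ a : ℕ → ℕ → K, (∀ k, a k ∈ B) ∧ (∃ k ≤ r, ¬ ∀ᶠ m in atTop, a k m = 0) ∧
    ∀ᶠ m in atTop, ∑ k ∈ Finset.range (r + 1), a k m * f (m + k) = 0

theorem RecK.recO {B : Subalgebra K (ℕ → K)} {r : ℕ} {f : ℕ → K} (h : RecK B r f) :
    RecO (fracB B) r (fun m => algebraMap K ℂ (f m)) := by
  obtain ⟨a, ha, ⟨k0, hk0, hne⟩, h⟩ := h
  refine ⟨fun k m => algebraMap K ℂ (a k m), fun k => ext_le_frac B (emb_mem (ha k)),
    ⟨k0, hk0, fun h0 => hne ?_⟩, ?_⟩
  · filter_upwards [h0] with m hm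
    exact (map_eq_zero _).1 hm
  · filter_upwards [h] with m hm
    have h1 := congrArg (algebraMap K ℂ) hm
    rw [map_sum, map_zero] at h1
    rw [← h1]
    exact Finset.sum_congr rfl fun k _ => (map_mul _ _ _).symm

/-- The quotient of the sequences `f` and `g` is algebraic over `B` along the set `A` of indices. -/
def AlgPairK (B : Subalgebra K (ℕ → K)) (A : Set ℕ) (f g : ℕ → K) : Prop :=
  ∃ (d : ℕ) (b : ℕ → ℕ → K), (∀ k, b k ∈ B) ∧ (∃ k ≤ d, ¬ ∀ᶠ m in atTop, b k m = 0) ∧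
    ∀ᶠ m in atTop, m ∈ A → ∑ k ∈ Finset.range (d + 1), b k m * f m ^ k * g m ^ (d - k) = 0

/-- a common denominator -/
theorem clear_den {B : Subalgebra K (ℕ → K)} (d : ℕ) (b : ℕ → ℕ → ℂ)
    (hb : ∀ k, b k ∈ fracB B) (hne : ∃ k ≤ d, ¬ ∀ᶠ m in atTop, b k m = 0) :
    ∃ (H : ℕ → ℂ) (b' : ℕ → ℕ → ℂ), (∀ k, b' k ∈ extB B) ∧ (∀ᶠ m in atTop, H m ≠ 0) ∧
      (∃ k ≤ d, ¬ ∀ᶠ m in atTop, b' k m = 0) ∧
      ∀ᶠ m in atTop, ∀ k ∈ Finset.range (d + 1), b' k m = H m * b k m := by
  classical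
  choose g hg h hh h0 hf using hb
  obtain ⟨k0, hk0, hne⟩ := hne
  have hall : ∀ᶠ m in atTop, ∀ k ∈ Finset.range (d + 1), h k m ≠ 0 ∧ b k m = g k m / h k m := by
    rw [Finset.eventually_all]
    intro k _
    exact (h0 k).and (hf k)
  have key : ∀ᶠ m in atTop, ∀ k ∈ Finset.range (d + 1),
      (g k * ∏ i ∈ (Finset.range (d + 1)).erase k, h i) m =
        (∏ i ∈ Finset.range (d + 1), h i m) * b k m := by
    filter_upwards [hall] with m hm k hk
    rw [Pi.mul_apply, Finset.prod_apply, (hm k hk).2, ← Finset.mul_prod_erase _ _ hk]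
    have h1 := (hm k hk).1
    field_simp
  have hH : ∀ᶠ m in atTop, (∏ i ∈ Finset.range (d + 1), h i m) ≠ 0 := by
    filter_upwards [hall] with m hm
    exact Finset.prod_ne_zero_iff.2 fun k hk => (hm k hk).1
  refine ⟨fun m => ∏ i ∈ Finset.range (d + 1), h i m,
    fun k => g k * ∏ i ∈ (Finset.range (d + 1)).erase k, h i,
    fun k => (extB B).mul_mem (hg k) ((extB B).prod_mem fun i _ => hh i), hH,
    ⟨k0, hk0, fun hz => hne ?_⟩, key⟩
  filter_upwards [hz, key, hH] with m h1 h2 h3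
  have h4 := h2 k0 (Finset.mem_range.2 (by omega))
  rw [h1] at h4
  exact (mul_eq_zero.1 h4.symm).resolve_left h3

/-- descent of algebraic relations -/
theorem AlgPair.descend {B : Subalgebra K (ℕ → K)} (hB : DiffRing B) {A : Set ℕ} {f g : ℕ → K}
    (h : AlgPair (fracB B) A (fun m => algebraMap K ℂ (f m)) (fun m => algebraMap K ℂ (g m))) :
    AlgPairK B A f g := by
  obtain ⟨d, b, hb, hne, h⟩ := h
  obtain ⟨H, b', hb', hH, ⟨k0, hk0, hne'⟩, hbb⟩ := clear_den d b hb hne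
  obtain ⟨φ, hφ⟩ := exists_phi hB (hb' k0) hne'
  refine ⟨d, fun k m => φ (b' k m), fun k => ?_, ⟨k0, hk0, fun h0 => ?_⟩, ?_⟩
  · obtain ⟨W, _, _, h1⟩ := mem_extB.1 (hb' k)
    exact h1 φ
  · obtain ⟨m, h1, h2⟩ := (h0.and hφ).exists
    exact h2 h1
  · filter_upwards [h, hbb] with m h1 h2 hmA
    have h3 : ∀ (z : ℂ) (a : K), φ (z * algebraMap K ℂ a) = φ z * a := by
      intro z a
      rw [mul_comm, ← Algebra.smul_def, map_smul, smul_eq_mul, mul_comm]
    have h4 : ∑ k ∈ Finset.range (d + 1), φ (b' k m) * f m ^ k * g m ^ (d - k) =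
        φ (∑ k ∈ Finset.range (d + 1), b' k m * algebraMap K ℂ (f m) ^ k *
          algebraMap K ℂ (g m) ^ (d - k)) := by
      rw [map_sum]
      refine Finset.sum_congr rfl fun k _ => ?_
      rw [← map_pow, ← map_pow, h3, h3]
    rw [h4]
    have h5 : ∑ k ∈ Finset.range (d + 1), b' k m * algebraMap K ℂ (f m) ^ k *
          algebraMap K ℂ (g m) ^ (d - k) = H m * ∑ k ∈ Finset.range (d + 1),
            b k m * algebraMap K ℂ (f m) ^ k * algebraMap K ℂ (g m) ^ (d - k) := by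
      rw [Finset.mul_sum]
      refine Finset.sum_congr rfl fun k hk => ?_
      rw [h2 k hk]
      ring
    rw [h5, h1 hmA, mul_zero, map_zero]

end Pool.Agent.Q183.RS
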