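import Pool.Agent.TH143.DE.Sys

/-!
From scalar linear recurrences of bounded order to linear systems of bounded size.
-/

set_option autoImplicit false

namespace Pool.Agent.Q183.RS

open MvPolynomial Filter Pool.Agent.TH143.DE

variable {B : Subalgebra ℂ (ℕ → ℂ)}

/-- The sequence `f` satisfies a nontrivial linear recurrence of order at most `r` with coefficients
in `B`. -/
def RecO (B : Subalgebra ℂ (ℕ → ℂ)) (r : ℕ) (f : ℕ → ℂ) : Prop :=
  ∃ a : ℕ → ℕ → ℂ, (∀ k, a k ∈ B) ∧ (∃ k ≤ r, ¬ ∀ᶠ m in atTop, a k m = 0) ∧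
    ∀ᶠ m in atTop, ∑ k ∈ Finset.range (r + 1), a k m * f (m + k) = 0

/-- normal form of a recurrence -/
theorem RecO.normal (hB : CoefField B) {r : ℕ} {f : ℕ → ℂ} (hf : RecO B r f) :
    ∃ l : ℕ, ∀ s, l ≤ s → ∃ (r' : ℕ) (c : ℕ → B), r' ≤ r ∧
      (∀ᶠ m in atTop, f (m + r' + s) = ∑ i ∈ Finset.range r', (c i : ℕ → ℂ) m * f (m + i + s)) ∧
      (0 < r' → ∀ᶠ m in atTop, (c 0 : ℕ → ℂ) m ≠ 0) := by
  classical
  obtain ⟨a, ha, ⟨k0, hk0, hn⟩, h⟩ := hf
  let T := (Finset.range (r + 1)).filter fun k => ¬ ∀ᶠ m in atTop, a k m = 0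
  have hT : T.Nonempty :=
    ⟨k0, Finset.mem_filter.mpr ⟨Finset.mem_range.mpr (Nat.lt_succ_of_le hk0), hn⟩⟩
  set t := T.max' hT with ht
  set l := T.min' hT with hl
  have htT := Finset.mem_filter.mp (T.max'_mem hT)
  have hlT := Finset.mem_filter.mp (T.min'_mem hT)
  have hlt : l ≤ t := T.min'_le _ (T.max'_mem hT)
  have hout : ∀ k ∈ Finset.range (r + 1), k ∉ Finset.Icc l t → ∀ᶠ m in atTop, a k m = 0 := by
    intro k hk hk'
    by_contra hcon
    apply hk'
    have hkT : k ∈ T := Finset.mem_filter.mpr ⟨hk, hcon⟩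
    exact Finset.mem_Icc.mpr ⟨T.min'_le _ hkT, T.le_max' _ hkT⟩
  have hsum : ∀ᶠ m in atTop, ∑ k ∈ Finset.Icc l t, a k m * f (m + k) = 0 := by
    have h1 : ∀ᶠ m in atTop, ∀ k ∈ Finset.range (r + 1), k ∉ Finset.Icc l t → a k m = 0 := by
      rw [Finset.eventually_all]
      intro k hk
      by_cases hk' : k ∈ Finset.Icc l t
      · exact Eventually.of_forall fun _ h => absurd hk' h
      · filter_upwards [hout k hk hk'] with m hm _
        exact hm
    filter_upwards [h, h1] with m hm h1m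
    rw [← hm]
    apply Finset.sum_subset
    · intro k hk
      have h2 := (Finset.mem_Icc.mp hk).2
      have h3 := Finset.mem_range.mp htT.1
      exact Finset.mem_range.mpr (lt_of_le_of_lt h2 h3)
    · intro k hk hk'
      rw [h1m k hk hk', zero_mul]
  have hat : ∀ᶠ m in atTop, a t m ≠ 0 := (hB.dich _ (ha t)).resolve_left htT.2
  have hal : ∀ᶠ m in atTop, a l m ≠ 0 := (hB.dich _ (ha l)).resolve_left hlT.2
  refine ⟨l, fun s hs => ⟨t - l, fun i => ⟨fun m => -a (l + i) (m + (s - l)) *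
    (a t (m + (s - l)))⁻¹, ?_⟩, ?_, ?_, ?_⟩⟩
  · have h1 := B.mul_mem (B.neg_mem (hB.toCoefRing.shift' (ha (l + i)) (s - l)))
      (hB.inv _ (hB.toCoefRing.shift' (ha t) (s - l)))
    exact h1
  · have h1 := Finset.mem_range.mp htT.1
    omega
  · filter_upwards [eventually_shift hsum (s - l), eventually_shift hat (s - l)] with m h1 h2
    have h3 : ∑ k ∈ Finset.Icc l t, a k (m + (s - l)) * f (m + (s - l) + k) =
        ∑ i ∈ Finset.range (t - l + 1), a (l + i) (m + (s - l)) * f (m + i + s) := by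
      rw [Finset.range_eq_Ico, ← Finset.Ico_succ_right_eq_Icc]
      have h4 := Finset.sum_Ico_add (fun k => a k (m + (s - l)) * f (m + (s - l) + k)) 0
        (t - l + 1) l
      rw [zero_add] at h4
      have h5 : t - l + 1 + l = Order.succ t := by
        rw [Nat.succ_eq_succ]
        omega
      rw [h5] at h4
      rw [← h4]
      refine Finset.sum_congr rfl fun i _ => ?_
      congr 2
      omega
    rw [h3, Finset.sum_range_succ] at h1
    have h6 : l + (t - l) = t := by omega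
    rw [h6] at h1
    have h7 : ∑ i ∈ Finset.range (t - l), -a (l + i) (m + (s - l)) * (a t (m + (s - l)))⁻¹ *
        f (m + i + s) = -(a t (m + (s - l)))⁻¹ *
          ∑ i ∈ Finset.range (t - l), a (l + i) (m + (s - l)) * f (m + i + s) := by
      rw [Finset.mul_sum]
      exact Finset.sum_congr rfl fun i _ => by ring
    rw [h7]
    field_simp
    linear_combination h1
  · intro _
    filter_upwards [eventually_shift hal (s - l), eventually_shift hat (s - l)] with m h1 h2
    change -a (l + 0) (m + (s - l)) * (a t (m + (s - l)))⁻¹ ≠ 0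
    rw [add_zero]
    exact mul_ne_zero (neg_ne_zero.mpr h1) (inv_ne_zero h2)

/-- **The system.** -/
theorem exists_sysO (hB : CoefField B) {J : Type} [Fintype J] {q : ℕ} (f : J → ℕ → ℂ)
    (hf : ∀ j, RecO B q (f j)) :
    ∃ (s n : ℕ) (A : Fin n → Fin n → B) (U : ℕ → Matrix (Fin n) (Fin n) ℂ)
      (E : Matrix J (Fin n) ℂ) (y0 : Fin n → ℂ), n ≤ Fintype.card J * q ∧
      (∀ᶠ m in atTop, U (m + 1) = Am A m * U m) ∧ (∀ᶠ m in atTop, (U m).det ≠ 0) ∧
      ∀ᶠ m in atTop, ∀ j, f j (m + s) = (E.mulVec ((U m).mulVec y0)) j := by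
  classical
  choose l hl using fun j => (hf j).normal hB
  set s := ∑ j, l j with hs
  have hls : ∀ j, l j ≤ s := fun j =>
    Finset.single_le_sum (f := l) (fun _ _ => Nat.zero_le _) (Finset.mem_univ j)
  choose r c hrq hc hc0 using fun j => hl j s (hls j)
  let ι := Σ j, Fin (r j)
  set n := Fintype.card ι with hn
  let e : ι ≃ Fin n := Fintype.equivFin ι
  let yi : ℕ → ι → ℂ := fun m p => f p.1 (m + p.2 + s)
  let y : ℕ → Fin n → ℂ := fun m i => yi m (e.symm i)
  have hy : ∀ m j (i : Fin (r j)), y m (e ⟨j, i⟩) = f j (m + i + s) := by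
    intro m j i
    change yi m (e.symm (e ⟨j, i⟩)) = _
    rw [e.symm_apply_apply]
  let Ai : ι → ι → B := fun p x =>
    if (p.2 : ℕ) + 1 < r p.1 then (if x.1 = p.1 ∧ (x.2 : ℕ) = p.2 + 1 then 1 else 0)
    else (if x.1 = p.1 then c p.1 x.2 else 0)
  let A : Fin n → Fin n → B := fun i k => Ai (e.symm i) (e.symm k)
  -- sums over the index set
  have hsum : ∀ (F : ι → ℂ), ∑ k, F (e.symm k) = ∑ j, ∑ i : Fin (r j), F ⟨j, i⟩ := by
    intro F
    rw [e.symm.sum_comp F, Fintype.sum_sigma]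
  have hrow : ∀ (m : ℕ) (j : J) (i : Fin (r j)) (v : Fin n → ℂ),
      (Am A m).mulVec v (e ⟨j, i⟩) = if h : (i : ℕ) + 1 < r j then v (e ⟨j, ⟨i + 1, h⟩⟩) else
        ∑ i' : Fin (r j), (c j i' : ℕ → ℂ) m * v (e ⟨j, i'⟩) := by
    intro m j i v
    have h1 : (Am A m).mulVec v (e ⟨j, i⟩) = ∑ k, (fun x : ι =>
        ((Ai ⟨j, i⟩ x : B) : ℕ → ℂ) m * v (e x)) (e.symm k) := by
      change ∑ k, ((Ai (e.symm (e ⟨j, i⟩)) (e.symm k) : B) : ℕ → ℂ) m * v k = _
      rw [e.symm_apply_apply]
      refine Finset.sum_congr rfl fun k _ => ?_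
      change _ = _ * v (e (e.symm k))
      rw [e.apply_symm_apply]
    rw [h1, hsum (fun x : ι => ((Ai ⟨j, i⟩ x : B) : ℕ → ℂ) m * v (e x))]
    simp only [Ai]
    by_cases h : (i : ℕ) + 1 < r j
    · simp only [if_pos h, dif_pos h]
      rw [Finset.sum_eq_single j, Finset.sum_eq_single (⟨i + 1, h⟩ : Fin (r j))]
      · simp
      · intro b _ hb
        have h2 : ¬ ((b : ℕ) = i + 1) := fun h3 => hb (Fin.ext h3)
        simp [h2]
      · intro h2
        exact absurd (Finset.mem_univ _) h2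
      · intro b _ hb
        refine Finset.sum_eq_zero fun x _ => ?_
        simp [hb]
      · intro h2
        exact absurd (Finset.mem_univ _) h2
    · simp only [if_neg h, dif_neg h]
      rw [Finset.sum_eq_single j]
      · simp
      · intro b _ hb
        refine Finset.sum_eq_zero fun x _ => ?_
        simp [hb]
      · intro h2
        exact absurd (Finset.mem_univ _) h2
  have hrec : ∀ᶠ m in atTop, y (m + 1) = (Am A m).mulVec (y m) := by
    have h1 : ∀ᶠ m in atTop, ∀ j, f j (m + r j + s) =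
        ∑ i ∈ Finset.range (r j), (c j i : ℕ → ℂ) m * f j (m + i + s) :=
      eventually_all.2 fun j => hc j
    filter_upwards [h1] with m hm
    funext k
    obtain ⟨⟨j, i⟩, rfl⟩ := e.surjective k
    rw [hrow]
    simp only [hy]
    by_cases h : (i : ℕ) + 1 < r j
    · rw [dif_pos h]
      congr 1
      ring
    · rw [dif_neg h]
      have h2 : (i : ℕ) + 1 = r j := by have := i.2; omega
      have h3 := hm j
      rw [Finset.sum_range] at h3
      rw [← h3]
      congr 1
      omega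
  have hdetA : ∀ᶠ m in atTop, (Am A m).det ≠ 0 := by
    have h1 : ∀ᶠ m in atTop, ∀ j, 0 < r j → (c j 0 : ℕ → ℂ) m ≠ 0 := by
      refine eventually_all.2 fun j => ?_
      by_cases h : 0 < r j
      · filter_upwards [hc0 j h] with m hm _
        exact hm
      · exact Eventually.of_forall fun _ h' => absurd h' h
    filter_upwards [h1] with m hm h0
    obtain ⟨v, hv, hv0⟩ := Matrix.exists_mulVec_eq_zero_iff.2 h0
    apply hv
    have h2 : ∀ (j : J) (i : Fin (r j)) (_ : 0 < (i : ℕ)), v (e ⟨j, i⟩) = 0 := by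
      intro j i hi
      have h3 := congrFun hv0 (e ⟨j, ⟨i - 1, by have := i.2; omega⟩⟩)
      rw [hrow] at h3
      have h4 : ((⟨(i : ℕ) - 1, by have := i.2; omega⟩ : Fin (r j)) : ℕ) + 1 < r j := by
        change (i : ℕ) - 1 + 1 < r j
        have := i.2
        omega
      rw [dif_pos h4] at h3
      have h5 : (⟨((⟨(i : ℕ) - 1, by have := i.2; omega⟩ : Fin (r j)) : ℕ) + 1, h4⟩ :
          Fin (r j)) = i := by
        apply Fin.ext
        change (i : ℕ) - 1 + 1 = i
        omega
      rw [h5] at h3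
      exact h3
    funext k
    obtain ⟨⟨j, i⟩, rfl⟩ := e.surjective k
    by_cases hi : 0 < (i : ℕ)
    · exact h2 j i hi
    · have hr : 0 < r j := lt_of_le_of_lt (Nat.zero_le _) i.2
      have hi0 : i = ⟨0, hr⟩ := Fin.ext (by
        change (i : ℕ) = 0
        omega)
      have h3 := congrFun hv0 (e ⟨j, ⟨r j - 1, by omega⟩⟩)
      rw [hrow] at h3
      have h4 : ¬ ((⟨r j - 1, by omega⟩ : Fin (r j)) : ℕ) + 1 < r j := by
        change ¬ (r j - 1 + 1 < r j)
        omega
      rw [dif_neg h4, Finset.sum_eq_single (⟨0, hr⟩ : Fin (r j))] at h3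
      · rw [hi0]
        exact (mul_eq_zero.1 h3).resolve_left (hm j hr)
      · intro b _ hb
        rw [h2 j b, mul_zero]
        by_contra h5
        exact hb (Fin.ext (by
          change (b : ℕ) = 0
          omega))
      · intro h5
        exact absurd (Finset.mem_univ _) h5
  obtain ⟨m0, hm0⟩ := eventually_atTop.1 (hrec.and hdetA)
  let U : ℕ → Matrix (Fin n) (Fin n) ℂ := fun m => Nat.rec 1 (fun k V =>
    if k < m0 then 1 else Am A k * V) m
  have hUs : ∀ m, m0 ≤ m → U (m + 1) = Am A m * U m := by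
    intro m hm
    change (if m < m0 then 1 else Am A m * U m) = _
    rw [if_neg (not_lt.2 hm)]
  have hU0 : U m0 = 1 := by
    rcases Nat.eq_zero_or_pos m0 with h | h
    · rw [h]
      rfl
    · obtain ⟨k, rfl⟩ := Nat.exists_eq_add_of_le' h
      change (if k < k + 1 then 1 else Am A k * U k) = _
      rw [if_pos (Nat.lt_succ_self k)]
  have hUy : ∀ m, m0 ≤ m → (U m).det ≠ 0 ∧ y m = (U m).mulVec (y m0) := by
    intro m hm
    induction m, hm using Nat.le_induction with
    | base => rw [hU0, Matrix.det_one, Matrix.one_mulVec]; exact ⟨one_ne_zero, rfl⟩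
    | succ m hm ih =>
      rw [hUs m hm, Matrix.det_mul, (hm0 m hm).1, ih.2, Matrix.mulVec_mulVec]
      exact ⟨mul_ne_zero (hm0 m hm).2 ih.1, rfl⟩
  refine ⟨s, n, A, U, Matrix.of fun j k => if h : 0 < r j then (if k = e ⟨j, ⟨0, h⟩⟩ then 1 else 0) else 0,
    y m0, ?_, eventually_atTop.2 ⟨m0, hUs⟩, eventually_atTop.2 ⟨m0, fun m hm => (hUy m hm).1⟩, ?_⟩
  · rw [hn, Fintype.card_sigma]
    simp only [Fintype.card_fin]
    refine (Finset.sum_le_sum fun j _ => hrq j).trans ?_
    rw [Finset.sum_const, Finset.card_univ, smul_eq_mul]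
  have h1 : ∀ᶠ m in atTop, ∀ j, f j (m + r j + s) =
      ∑ i ∈ Finset.range (r j), (c j i : ℕ → ℂ) m * f j (m + i + s) :=
    eventually_all.2 fun j => hc j
  filter_upwards [h1, eventually_ge_atTop m0] with m h1m hm j
  rw [← (hUy m hm).2]
  change _ = ∑ k, (if h : 0 < r j then (if k = e ⟨j, ⟨0, h⟩⟩ then 1 else 0) else 0) * y m k
  by_cases h : 0 < r j
  · simp only [dif_pos h, ite_mul, one_mul, zero_mul, Finset.sum_ite_eq', Finset.mem_univ, if_true]
    rw [hy]
    rfl
  · simp only [dif_neg h, zero_mul, Finset.sum_const_zero]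
    have h2 : r j = 0 := by omega
    have h3 := h1m j
    rw [h2, Finset.range_zero, Finset.sum_empty, add_zero] at h3
    exact h3

end Pool.Agent.Q183.RS
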