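import Pool.Agent.Q183.RS.Dec
import Pool.Agent.Q183.RS.Sys
import Pool.Agent.TH143.DE.Emb

/-!
Curves with few terms in the closure of a one-parameter group.
-/

set_option autoImplicit false

namespace Pool.Agent.Q183.RS

open MvPolynomial Filter Pool.Agent.TH143.DE
open Pool.Agent.H159R3.Exp (vec core' exists_b)

variable {n : ℕ}

/-- a point of the closure of the one-parameter group -/
noncomputable def cv (T : Module.End ℂ (Fin n → ℂ)) {R : ℕ} (μ : Fin R → ℂ) (v : Fin R → Fin n → ℂ)
    (z : ℂ) (s : Fin R → ℂ) : Fin n → ℂ :=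
  ∑ i, ∑ a ∈ Finset.range R, (s i * (z ^ a / a.factorial)) • ((T - μ i • 1) ^ a) (v i)

/-- the coordinates as polynomials -/
noncomputable def cvP {J : Type} (M : Matrix J (Fin n) ℂ) (T : Module.End ℂ (Fin n → ℂ)) {R : ℕ}
    (μ : Fin R → ℂ) (v : Fin R → Fin n → ℂ) (j : J) : MvPolynomial (Fin (R + 1)) ℂ :=
  ∑ i : Fin R, ∑ a ∈ Finset.range R,
    C ((M.mulVec (((T - μ i • 1) ^ a) (v i))) j / a.factorial) * (X 0 ^ a * X i.succ)

theorem eval_cvP {J : Type} (M : Matrix J (Fin n) ℂ) (T : Module.End ℂ (Fin n → ℂ)) {R : ℕ}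
    (μ : Fin R → ℂ) (v : Fin R → Fin n → ℂ) (j : J) (z : ℂ) (s : Fin R → ℂ) :
    eval (Fin.cons z s : Fin (R + 1) → ℂ) (cvP M T μ v j) = (M.mulVec (cv T μ v z s)) j := by
  unfold cvP cv
  simp only [map_sum, map_mul, eval_C, map_pow, eval_X, Fin.cons_zero, Fin.cons_succ]
  rw [Matrix.mulVec_sum, Finset.sum_apply]
  refine Finset.sum_congr rfl fun i _ => ?_
  rw [Matrix.mulVec_sum, Finset.sum_apply]
  refine Finset.sum_congr rfl fun a _ => ?_
  rw [Matrix.mulVec_smul, Pi.smul_apply, smul_eq_mul]
  ring

/-- **Relations persist.** -/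
theorem cv_rel {β : Matrix (Fin n) (Fin n) ℂ} {ex : ℂ → Matrix (Fin n) (Fin n) ℂ}
    (he : ExpF β ex) (y : Fin n → ℂ) {R : ℕ} (μ : Fin R → ℂ) (v : Fin R → Fin n → ℂ)
    (hy : ∑ i, v i = y) (hv : ∀ i, ((Matrix.toLin' β - μ i • 1) ^ R) (v i) = 0)
    {J : Type} (M : Matrix J (Fin n) ℂ) (F : MvPolynomial J ℂ)
    (hF : ∀ t, eval (M.mulVec ((ex t).mulVec y)) F = 0) (z : ℂ) (s : Fin R → ℂ)
    (hs0 : ∀ i, s i ≠ 0)
    (hs : ∀ q : Fin R → ℤ, ∑ i, (q i : ℂ) * μ i = 0 → ∏ i, s i ^ q i = 1) :
    eval (M.mulVec (cv (Matrix.toLin' β) μ v z s)) F = 0 := by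
  classical
  let g : Fin R → ℂ → ℂ := fun i t => μ i * t
  have hg : ∀ i, Differentiable ℂ (g i) := fun i => by fun_prop
  have hgd : ∀ i, deriv (g i) 0 = μ i := fun i => by
    simp only [g]
    simp
  have hev : ∀ (z : ℂ) (s : Fin R → ℂ), eval (Fin.cons z s : Fin (R + 1) → ℂ)
      (bind₁ (cvP M (Matrix.toLin' β) μ v) F) = eval (M.mulVec (cv (Matrix.toLin' β) μ v z s)) F := by
    intro z s
    have h1 : eval (Fin.cons z s : Fin (R + 1) → ℂ) (bind₁ (cvP M (Matrix.toLin' β) μ v) F) =
        eval (fun j => eval (Fin.cons z s : Fin (R + 1) → ℂ) (cvP M (Matrix.toLin' β) μ v j)) F := by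
      rw [eval, eval₂Hom_bind₁]
      rfl
    rw [h1]
    congr 1
    congr 1
    funext j
    exact eval_cvP _ _ _ _ _ _ _
  have h1 := core' g hg 0 s hs0 (fun q hq => hs q (by simpa only [hgd] using hq)) z
    (bind₁ (cvP M (Matrix.toLin' β) μ v) F) (fun t => by
      have h2 : vec g t = Fin.cons t fun i => Complex.exp (μ i * t) := rfl
      rw [h2, hev, ← hF t]
      congr 2
      rw [flow_formula he y μ v hy hv t]
      unfold cv cf'
      rfl)
  have h2 : (fun i => Complex.exp (g i 0) * s i) = s := by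
    funext i
    simp [g]
  rw [h2, hev] at h1
  exact h1

theorem deriv_coeff (a : ℕ) {R : ℕ} (ha : a < R) :
    ∑ p : Fin R, ((p : ℕ) : ℂ) * (((Polynomial.X - Polynomial.C 1 : Polynomial ℂ) ^ a).coeff p) =
      if a = 1 then 1 else 0 := by
  set q : Polynomial ℂ := (Polynomial.X - Polynomial.C 1) ^ a with hq
  have hdeg : q.natDegree < R := by
    rw [hq, Polynomial.natDegree_pow, Polynomial.natDegree_X_sub_C, mul_one]
    exact ha
  have h1 : (Polynomial.derivative q).eval 1 = if a = 1 then 1 else 0 := by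
    rw [hq, Polynomial.derivative_X_sub_C_pow]
    by_cases h : a = 1
    · subst h
      simp
    · rw [if_neg h]
      rcases Nat.lt_or_ge a 1 with h0 | h0
      · have : a = 0 := by omega
        subst this
        simp
      · have h2 : a - 1 ≠ 0 := by omega
        simp [h2]
  have h2 : (Polynomial.derivative q).eval 1 = ∑ p ∈ Finset.range R, (p : ℂ) * q.coeff p := by
    conv_lhs => rw [Polynomial.as_sum_range' q R hdeg]
    rw [Polynomial.derivative_sum, Polynomial.eval_finsetSum]
    refine Finset.sum_congr rfl fun p _ => ?_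
    rw [Polynomial.derivative_monomial, Polynomial.eval_monomial]
    ring
  rw [← h1, h2, Finset.sum_range]

theorem eval_coeff (a : ℕ) {R : ℕ} (ha : a < R) (x : ℂ) :
    ∑ p : Fin R, x ^ (p : ℕ) * (((Polynomial.X - Polynomial.C 1 : Polynomial ℂ) ^ a).coeff p) =
      (x - 1) ^ a := by
  set q : Polynomial ℂ := (Polynomial.X - Polynomial.C 1) ^ a with hq
  have hdeg : q.natDegree < R := by
    rw [hq, Polynomial.natDegree_pow, Polynomial.natDegree_X_sub_C, mul_one]
    exact ha
  have h2 := Polynomial.eval_eq_sum_range' hdeg x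
  have h3 : q.eval x = (x - 1) ^ a := by
    rw [hq]
    simp
  rw [← h3, h2, Finset.sum_range]
  exact Finset.sum_congr rfl fun p _ => mul_comm _ _

/-- **Curves with few terms.** -/
theorem few {β : Matrix (Fin n) (Fin n) ℂ} {ex : ℂ → Matrix (Fin n) (Fin n) ℂ}
    (he : ExpF β ex) (y : Fin n → ℂ) {R : ℕ} (hR : n ≤ R) (I : Ideal (ℕ → ℂ))
    (ψ : ℕ → (Fin n → ℂ) →ₗ[ℂ] ℂ) (hψ : (fun m => ψ m (β.mulVec y)) ∉ I) :
    ∃ (l : Fin R → ℤ) (u : Fin R → Fin n → ℂ), ∑ i, u i = y ∧
      (fun m => ψ m (∑ i, (l i : ℂ) • u i)) ∉ I ∧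
      ∀ {J : Type} (M : Matrix J (Fin n) ℂ) (F : MvPolynomial J ℂ),
        (∀ t, eval (M.mulVec ((ex t).mulVec y)) F = 0) →
        ∀ x : ℂ, x ≠ 0 → eval (M.mulVec (∑ i, x ^ (l i) • u i)) F = 0 := by
  classical
  obtain ⟨μ, v, hy, hv⟩ := exists_dec (Matrix.toLin' β) y hR
  set T := Matrix.toLin' β with hT
  have hβy : β.mulVec y = (∑ i, (T - μ i • 1) (v i)) + ∑ i, μ i • v i := by
    rw [← Matrix.toLin'_apply, ← hT, ← hy, map_sum, ← Finset.sum_add_distrib]
    refine Finset.sum_congr rfl fun i _ => ?_
    rw [LinearMap.sub_apply, LinearMap.smul_apply, Module.End.one_apply, sub_add_cancel]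
  have hsplit : (fun m => ψ m (β.mulVec y)) =
      (fun m => ψ m (∑ i, (T - μ i • 1) (v i))) + fun m => ψ m (∑ i, μ i • v i) := by
    funext m
    rw [Pi.add_apply, ← map_add, ← hβy]
  by_cases h1 : (fun m => ψ m (∑ i, (T - μ i • 1) (v i))) ∈ I
  · have h2 : (fun m => ψ m (∑ i, μ i • v i)) ∉ I := by
      intro h2
      apply hψ
      rw [hsplit]
      exact I.add_mem h1 h2
    let V : Submodule ℂ (Fin R → ℂ) :=
      { carrier := {c | (fun m => ψ m (∑ i, c i • v i)) ∈ I}
        add_mem' := by
          intro c c' hc hc'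
          have h3 : (fun m => ψ m (∑ i, (c + c') i • v i)) =
              (fun m => ψ m (∑ i, c i • v i)) + fun m => ψ m (∑ i, c' i • v i) := by
            funext m
            rw [Pi.add_apply, ← map_add, ← Finset.sum_add_distrib]
            congr 1
            exact Finset.sum_congr rfl fun i _ => by rw [Pi.add_apply, add_smul]
          change (fun m => ψ m (∑ i, (c + c') i • v i)) ∈ I
          rw [h3]
          exact I.add_mem hc hc'
        zero_mem' := by
          have h3 : (fun m => ψ m (∑ i, (0 : Fin R → ℂ) i • v i)) = 0 := by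
            funext m
            simp
          change (fun m => ψ m (∑ i, (0 : Fin R → ℂ) i • v i)) ∈ I
          rw [h3]
          exact I.zero_mem
        smul_mem' := by
          intro a c hc
          have h3 : (fun m => ψ m (∑ i, (a • c) i • v i)) =
              (fun _ => a) * fun m => ψ m (∑ i, c i • v i) := by
            funext m
            rw [Pi.mul_apply, ← smul_eq_mul, ← map_smul, Finset.smul_sum]
            congr 1
            exact Finset.sum_congr rfl fun i _ => by rw [Pi.smul_apply, smul_eq_mul, smul_smul]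
          change (fun m => ψ m (∑ i, (a • c) i • v i)) ∈ I
          rw [h3]
          exact I.mul_mem_left _ hc }
    have hμV : μ ∉ V := h2
    obtain ⟨φ, hφ, hφV⟩ := Submodule.exists_dual_map_eq_bot_of_notMem hμV inferInstance
    have hφe : ∀ c : Fin R → ℂ, φ c = ∑ l, φ (Pi.single l 1) * c l := by
      intro c
      conv_lhs => rw [pi_eq_sum_univ' c]
      rw [map_sum]
      exact Finset.sum_congr rfl fun l _ => by rw [map_smul, smul_eq_mul, mul_comm]
    obtain ⟨b, hb, hb'⟩ := exists_b μ (fun l => φ (Pi.single l 1)) (by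
      rw [← hφe]
      exact hφ)
    refine ⟨b, v, hy, fun hcon => hb' ?_, fun {J} M F hF x hx => ?_⟩
    · rw [← hφe (fun l => (b l : ℂ))]
      have h6 : φ (fun l => (b l : ℂ)) ∈ V.map φ :=
        Submodule.mem_map_of_mem (show (fun l => (b l : ℂ)) ∈ V from hcon)
      rw [hφV] at h6
      exact (Submodule.mem_bot ℂ).1 h6
    · have h3 := cv_rel he y μ v hy hv M F hF 0 (fun i => x ^ b i) (fun i => zpow_ne_zero _ hx)
        (fun q hq => by
          have h2 : ∏ i, (x ^ b i) ^ q i = x ^ ∑ i, q i * b i := by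
            rw [← Pool.Agent.TH143.GT.prod_zpow hx]
            refine Finset.prod_congr rfl fun i _ => ?_
            rw [← zpow_mul, mul_comm]
          rw [h2, hb q hq, zpow_zero])
      have h4 : cv (Matrix.toLin' β) μ v 0 (fun i => x ^ b i) = ∑ i, x ^ b i • v i := by
        unfold cv
        refine Finset.sum_congr rfl fun i _ => ?_
        have hR0 : 0 < R := lt_of_le_of_lt (Nat.zero_le _) i.2
        rw [Finset.sum_eq_single 0]
        · simp
        · intro a _ ha
          simp [ha]
        · intro h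
          exact absurd (Finset.mem_range.2 hR0) h
      rwa [h4] at h3
  · let u : Fin R → Fin n → ℂ := fun p => ∑ i, ∑ a ∈ Finset.range R,
      ((((Polynomial.X - Polynomial.C 1 : Polynomial ℂ) ^ a).coeff p) / a.factorial) •
        ((T - μ i • 1) ^ a) (v i)
    have hux : ∀ x : ℂ, ∑ p : Fin R, x ^ (p : ℕ) • u p = cv T μ v (x - 1) (fun _ => 1) := by
      intro x
      unfold cv
      simp only [u, Finset.smul_sum]
      rw [Finset.sum_comm]
      refine Finset.sum_congr rfl fun i _ => ?_
      rw [Finset.sum_comm]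
      refine Finset.sum_congr rfl fun a ha => ?_
      rw [← eval_coeff a (Finset.mem_range.1 ha) x]
      simp only [smul_smul]
      rw [← Finset.sum_smul]
      congr 1
      rw [one_mul, Finset.sum_div]
      exact Finset.sum_congr rfl fun p _ => by ring
    refine ⟨fun p => ((p : ℕ) : ℤ), u, ?_, ?_, fun {J} M F hF x hx => ?_⟩
    · have h3 := hux 1
      simp only [one_pow, one_smul, sub_self] at h3
      rw [h3, ← hy]
      unfold cv
      refine Finset.sum_congr rfl fun i _ => ?_
      have hR0 : 0 < R := lt_of_le_of_lt (Nat.zero_le _) i.2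
      rw [Finset.sum_eq_single 0]
      · simp
      · intro a _ ha
        simp [ha]
      · intro h
        exact absurd (Finset.mem_range.2 hR0) h
    · have h3 : ∑ p : Fin R, ((((p : ℕ) : ℤ)) : ℂ) • u p = ∑ i, (T - μ i • 1) (v i) := by
        simp only [u, Finset.smul_sum]
        rw [Finset.sum_comm]
        refine Finset.sum_congr rfl fun i _ => ?_
        rw [Finset.sum_comm]
        have h4 : ∀ a ∈ Finset.range R, ∑ p : Fin R, ((((p : ℕ) : ℤ)) : ℂ) •
            ((((Polynomial.X - Polynomial.C 1 : Polynomial ℂ) ^ a).coeff p) / a.factorial) •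
              ((T - μ i • 1) ^ a) (v i) =
            (if a = 1 then (1 : ℂ) else 0) • ((T - μ i • 1) ^ a) (v i) := by
          intro a ha
          simp only [smul_smul]
          rw [← Finset.sum_smul]
          congr 1
          have h5 := deriv_coeff a (Finset.mem_range.1 ha)
          have h6 : ∑ p : Fin R, ((((p : ℕ) : ℤ)) : ℂ) *
              ((((Polynomial.X - Polynomial.C 1 : Polynomial ℂ) ^ a).coeff p) / a.factorial) =
              (∑ p : Fin R, ((p : ℕ) : ℂ) *
                (((Polynomial.X - Polynomial.C 1 : Polynomial ℂ) ^ a).coeff p)) / a.factorial := by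
            rw [Finset.sum_div]
            refine Finset.sum_congr rfl fun p _ => ?_
            push_cast
            ring
          rw [h6, h5]
          split_ifs with h7
          · subst h7
            simp
          · simp
        rw [Finset.sum_congr rfl h4]
        rcases Nat.lt_or_ge 1 R with h5 | h5
        · rw [Finset.sum_eq_single 1]
          · simp
          · intro a _ ha
            rw [if_neg ha, zero_smul]
          · intro h
            exact absurd (Finset.mem_range.2 h5) h
        · have h6 : R = 1 := by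
            have := i.2
            omega
          have h7 := hv i
          subst h6
          rw [pow_one] at h7
          rw [h7]
          simp
      rw [h3]
      exact h1
    · have h3 := cv_rel he y μ v hy hv M F hF (x - 1) (fun _ => 1) (fun _ => one_ne_zero)
        (fun q _ => by simp)
      rw [← hux x] at h3
      simp only [zpow_natCast]
      exact h3

end Pool.Agent.Q183.RS
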