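import Pool.Agent.Q183.RS.Conv
import Pool.Agent.TH143.HE.Pts

/-!
The final statements.
-/

set_option autoImplicit false

namespace Pool.Agent.Q183.RS

open MvPolynomial Filter Pool.Agent.TH143.DE Pool.Agent.TH143.HE Pool.Agent.H533R3.SL Cardinal
open IsDedekindDomain NumberField

theorem PRecO.recRB {K : Type} [Field K] [Algebra K ℂ] {r : ℕ} {f : ℕ → K} (h : PRecO r f) :
    RecO RB r (fun m => algebraMap K ℂ (f m)) := by
  obtain ⟨a, ⟨k0, hk0, hne⟩, h⟩ := h
  refine ⟨fun k m => ((a k).map (algebraMap K ℂ)).eval (m : ℂ), fun k =>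
    ⟨(a k).map (algebraMap K ℂ), 1, one_ne_zero, Eventually.of_forall fun m => by simp⟩,
    ⟨k0, hk0, fun h0 => ?_⟩, Eventually.of_forall fun m => ?_⟩
  · have h1 : (a k0).map (algebraMap K ℂ) ≠ 0 := by
      rwa [Ne, Polynomial.map_eq_zero]
    obtain ⟨m, h2, h3⟩ := (h0.and (ev_ne Nat.cast_injective h1)).exists
    exact h3 h2
  · have h1 := congrArg (algebraMap K ℂ) (h m)
    rw [map_sum, map_zero] at h1
    rw [← h1]
    refine Finset.sum_congr rfl fun k _ => ?_
    change ((a k).map (algebraMap K ℂ)).eval (m : ℂ) * algebraMap K ℂ (f (m + k)) = _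
    rw [map_mul, Polynomial.eval_map]
    congr 1
    have h3 := Polynomial.hom_eval₂ (a k) (RingHom.id _) (algebraMap K ℂ) (m : K)
    rw [map_natCast, RingHom.comp_id] at h3
    exact h3.symm

theorem RecO.lin {B : Subalgebra ℂ (ℕ → ℂ)} {r : ℕ} {f : ℕ → ℂ} (h : RecO B r f) : LinRec B f :=
  let ⟨a, h1, h2, h3⟩ := h
  ⟨r, a, h1, h2, h3⟩

/-- **Projective varieties.** -/
theorem proj_fin {k : Type} [Field k] {N : ℕ} (FF : Set (MvPolynomial (Fin (N + 1)) k))
    (hprime : (Ideal.span FF).IsPrime) (hnu : ¬ Uniruled (Ideal.span FF)) (d : ℕ) (hd : 1 ≤ d)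
    (hFF : ∀ F ∈ FF, ∃ e, e ≤ d ∧ F.IsHomogeneous e) (q : ℕ) :
    ∃ G : MvPolynomial (Fin (N + 1)) k, (∃ e, G.IsHomogeneous e) ∧ G ∉ Ideal.span FF ∧
      ∀ (K : Type) [Field K] [CharZero K] [Algebra k K], #K ≤ 𝔠 →
        (∀ B : Subalgebra K (ℕ → K), DiffRing B → ∀ x : ℕ → Fin (N + 1) → K,
          (∀ j, RecK B q (fun m => x m j)) → (∀ F ∈ FF, ∀ᶠ m in atTop, aeval (x m) F = 0) →
          ∃ t : ℕ, ∀ i j, AlgPairK B {m | aeval (x (m + t)) G ≠ 0} (fun m => x (m + t) i)
            (fun m => x (m + t) j)) ∧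
        (∀ x : ℕ → Fin (N + 1) → K, (∀ m, x m ≠ 0) → (∀ j, PRecO q (fun m => x m j)) →
          (∀ F ∈ FF, ∀ᶠ m in atTop, aeval (x m) F = 0) → (∀ᶠ m in atTop, aeval (x m) G ≠ 0) →
          ∃ (M : ℕ) (p : ℕ → Fin (N + 1) → Polynomial K), 0 < M ∧
            (∀ a < M, ∀ F ∈ FF, aeval (p a) F = 0) ∧
            ∀ᶠ m : ℕ in atTop, ∃ b : K, b ≠ 0 ∧ ∀ j, (p (m % M) j).eval (m : K) = b * x m j) := by
  classical
  obtain ⟨G, hG1, hG2, hG3⟩ := proj_main FF hprime hnu d hd hFF q
  refine ⟨G, hG1, hG2, ?_⟩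
  intro K _ _ _ hK
  obtain ⟨e⟩ := exists_emb K hK
  let _ : Algebra K ℂ := e.toAlgebra
  let _ : Algebra k ℂ := (e.comp (algebraMap k K)).toAlgebra
  have hev : ∀ (y : Fin (N + 1) → K) (F : MvPolynomial (Fin (N + 1)) k),
      aeval (fun j => algebraMap K ℂ (y j)) F = algebraMap K ℂ (aeval y F) := by
    intro y F
    rw [aeval_def, aeval_def]
    exact (eval₂_comp_left e (algebraMap k K) y F).symm
  refine ⟨?_, ?_⟩
  · intro B hB x hx hF
    obtain ⟨t, -, ht⟩ := hG3 (fracB B) (frac_field hB) (fun m j => algebraMap K ℂ (x m j))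
      (fun j => (hx j).recO) (fun F hFF' => by
        filter_upwards [hF F hFF'] with m hm
        rw [hev, hm, map_zero])
    refine ⟨t, fun i j => ?_⟩
    have h1 := AlgPair.descend hB (ht i j)
    have h2 : {m | aeval (fun j => algebraMap K ℂ (x (m + t) j)) G ≠ 0} =
        {m | aeval (x (m + t)) G ≠ 0} := by
      ext m
      simp only [Set.mem_ofPred_eq, hev, ne_eq, map_eq_zero]
    rwa [h2] at h1
  · intro x hne hx hF hG
    have hrec : ∀ j, RecO RB q (fun m => algebraMap K ℂ (x m j)) := fun j => (hx j).recRB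
    obtain ⟨t, ht, -⟩ := hG3 RB RB_field (fun m j => algebraMap K ℂ (x m j)) hrec
      (fun F hFF' => by
        filter_upwards [hF F hFF'] with m hm
        rw [hev, hm, map_zero])
    have hA : ∀ᶠ m in atTop, m ∈ {m | aeval (fun j => algebraMap K ℂ (x (m + t) j)) G ≠ 0} := by
      filter_upwards [eventually_shift hG t] with m hm
      change aeval (fun j => algebraMap K ℂ (x (m + t) j)) G ≠ 0
      rw [hev, Ne, map_eq_zero]
      exact hm
    obtain ⟨M, ρ, hM, hρ⟩ := par (x := fun m j => algebraMap K ℂ (x m j)) (fun m h0 => hne m (by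
      funext j
      have := congrFun h0 j
      simpa using this)) (fun j => (hrec j).lin) t (fun c hc j => (ht c hc j).exists_rel hA)
    obtain ⟨p, hp⟩ := par_descend (L := K) hne hM hρ
    refine ⟨M, p, hM, fun a ha F hF' => ?_, hp⟩
    obtain ⟨e', _, he'⟩ := hFF F hF'
    exact par_curve hM hp he' (hF F hF') a ha

theorem aff_curve {k L : Type} [Field k] [Field L] [CharZero L] [Algebra k L] {n : ℕ}
    {x : ℕ → Fin n → L} {K : ℕ} (hK : 0 < K) {p : ℕ → Fin n → Polynomial L}
    (h : ∀ᶠ m : ℕ in atTop, ∀ j, x m j = (p (m % K) j).eval (m : L))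
    {F : MvPolynomial (Fin n) k}
    (hF : ∀ᶠ m in atTop, aeval (x m) F = 0) (a : ℕ) (ha : a < K) : aeval (p a) F = 0 := by
  classical
  obtain ⟨m0, hm0⟩ := eventually_atTop.1 (h.and hF)
  apply Polynomial.eq_zero_of_infinite_isRoot
  refine Set.Infinite.mono (s := (fun i : ℕ => ((a + K * (m0 + i) : ℕ) : L)) '' Set.univ) ?_ ?_
  · rintro _ ⟨i, -, rfl⟩
    have hidx : m0 ≤ a + K * (m0 + i) ∧ (a + K * (m0 + i)) % K = a :=
      ⟨by have : m0 + i ≤ K * (m0 + i) := Nat.le_mul_of_pos_left _ hK; omega,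
        by rw [Nat.add_mul_mod_self_left, Nat.mod_eq_of_lt ha]⟩
    obtain ⟨h1, h2⟩ := hm0 _ hidx.1
    rw [hidx.2] at h1
    change Polynomial.eval _ (aeval (p a) F) = 0
    rw [Pool.Agent.Y215.AF.aeval_eval, ← h2]
    congr 2
    funext j
    exact (h1 j).symm
  · refine Set.infinite_univ.image ?_
    intro i _ i' _ hii
    have h2 : a + K * (m0 + i) = a + K * (m0 + i') := Nat.cast_injective hii
    have h3 : K * (m0 + i) = K * (m0 + i') := by omega
    have h4 := Nat.eq_of_mul_eq_mul_left hK h3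
    omega

theorem exists_phi_one (L : Type) [Field L] [Algebra L ℂ] : ∃ φ : ℂ →ₗ[L] L, φ 1 = 1 := by
  obtain ⟨φ, hφ⟩ := exists_phi' (L := L) (z := 1) one_ne_zero
  exact ⟨(φ 1)⁻¹ • φ, by rw [LinearMap.smul_apply, smul_eq_mul, inv_mul_cancel₀ hφ]⟩

/-- **Affine varieties.** -/
theorem aff_fin {k : Type} [Field k] [CharZero k] {n : ℕ} (FF : Set (MvPolynomial (Fin n) k))
    (hprime : (Ideal.span FF).IsPrime) (hnu : ¬ Pool.Agent.Y215.AF.GmUniruled (Ideal.span FF))
    (d : ℕ) (hd1 : 1 ≤ d) (hd : ∀ F ∈ FF, F.totalDegree ≤ d) (q : ℕ) :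
    ∃ G : MvPolynomial (Fin n) k, G ∉ Ideal.span FF ∧
      (∀ (K : Type) [Field K] [Algebra k K], #K ≤ 𝔠 →
        ∀ B : Subalgebra K (ℕ → K), DiffRing B → ∀ x : ℕ → Fin n → K,
        (∀ j, RecK B q (fun m => x m j)) → (∀ F ∈ FF, ∀ᶠ m in atTop, aeval (x m) F = 0) →
        ∃ t : ℕ, ∀ j, AlgOnK B {m | aeval (x (m + t)) G ≠ 0} (fun m => x (m + t) j)) ∧
      (∀ (K : Type) [Field K] [NumberField K] [Algebra k K]
        (S : Set (HeightOneSpectrum (𝓞 K))), S.Finite → ∀ x : ℕ → Fin n → K,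
        (∀ m j, x m j ∈ S.integer K) → (∀ j, PRecO q (fun m => x m j)) →
        (∀ F ∈ FF, ∀ m, aeval (x m) F = 0) → (∀ᶠ m in atTop, aeval (x m) G ≠ 0) →
        ∃ (M : ℕ) (p : ℕ → Fin n → Polynomial K), 0 < M ∧
          (∀ a < M, ∀ F ∈ FF, aeval (p a) F = 0) ∧
          ∀ᶠ m : ℕ in atTop, ∀ j, x m j = (p (m % M) j).eval (m : K)) := by
  classical
  obtain ⟨G, hG2, hG3⟩ := aff_main FF hprime hnu d hd1 hd q
  refine ⟨G, hG2, ?_, ?_⟩
  · intro K _ _ hK B hB x hx hF
    have hchar : CharZero K := charZero_of_injective_algebraMap (algebraMap k K).injective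
    obtain ⟨e⟩ := exists_emb K hK
    let _ : Algebra K ℂ := e.toAlgebra
    let _ : Algebra k ℂ := (e.comp (algebraMap k K)).toAlgebra
    have hev : ∀ (y : Fin n → K) (F : MvPolynomial (Fin n) k),
        aeval (fun j => algebraMap K ℂ (y j)) F = algebraMap K ℂ (aeval y F) := by
      intro y F
      rw [aeval_def, aeval_def]
      exact (eval₂_comp_left e (algebraMap k K) y F).symm
    obtain ⟨t, ht⟩ := hG3 (fracB B) (frac_field hB) (fun m j => algebraMap K ℂ (x m j))
      (fun j => (hx j).recO) (fun F hFF' => by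
        filter_upwards [hF F hFF'] with m hm
        rw [hev, hm, map_zero])
    refine ⟨t, fun j => ?_⟩
    have h0 := (ht j).pair
    have h3 : (fun _ : ℕ => (1 : ℂ)) = fun _ => algebraMap K ℂ 1 := by
      funext m
      rw [map_one]
    rw [h3] at h0
    have h1 := AlgPair.descend hB (g := fun _ => 1) h0
    have h2 : {m | aeval (fun j => algebraMap K ℂ (x (m + t) j)) G ≠ 0} =
        {m | aeval (x (m + t)) G ≠ 0} := by
      ext m
      simp only [Set.mem_ofPred_eq, hev, ne_eq, map_eq_zero]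
    rw [h2] at h1
    exact algOn_iff_pair.2 h1
  · intro K _ _ _ S hS x hxS hx hF hG
    have hemb : Nonempty (K →+* ℂ) := inferInstance
    obtain ⟨e⟩ := hemb
    let _ : Algebra K ℂ := e.toAlgebra
    let _ : Algebra k ℂ := (e.comp (algebraMap k K)).toAlgebra
    have hev : ∀ (y : Fin n → K) (F : MvPolynomial (Fin n) k),
        aeval (fun j => algebraMap K ℂ (y j)) F = algebraMap K ℂ (aeval y F) := by
      intro y F
      rw [aeval_def, aeval_def]
      exact (eval₂_comp_left e (algebraMap k K) y F).symm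
    have hrec : ∀ j, RecO RB q (fun m => algebraMap K ℂ (x m j)) := fun j => (hx j).recRB
    obtain ⟨t, ht⟩ := hG3 RB RB_field (fun m j => algebraMap K ℂ (x m j)) hrec
      (fun F hFF' => Eventually.of_forall fun m => by rw [hev, hF F hFF' m, map_zero])
    have hA : ∀ᶠ m in atTop, m ∈ {m | aeval (fun j => algebraMap K ℂ (x (m + t) j)) G ≠ 0} := by
      filter_upwards [eventually_shift hG t] with m hm
      change aeval (fun j => algebraMap K ℂ (x (m + t) j)) G ≠ 0
      rw [hev, Ne, map_eq_zero]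
      exact hm
    obtain ⟨φ, hφ⟩ := exists_phi_one K
    have hpoly : ∀ j, ∃ (M : ℕ) (r : ℕ → Polynomial K), 0 < M ∧
        ∀ᶠ m : ℕ in atTop, x (m + t) j = (r (m % M)).eval (m : K) := by
      intro j
      obtain ⟨P, hP, hP0⟩ := (ht j).exists_rel hA
      obtain ⟨p, M, r, hp, hM, hpr⟩ := quasi_rational
        (LinRec.shift RB_field ((hrec j).lin) t) hP hP0
      have h1 : ∀ a, ∃ r : Polynomial ℂ, ∀ᶠ m : ℕ in atTop, m % M = a % M →
          e (x (m + t) j) = r.eval (m : ℂ) := by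
        intro a
        refine poly_of_int e hS (y := fun m => x (m + t) j)
          (Eventually.of_forall fun m => hxS (m + t) j) hp (q := r (a % M)) hM ?_
        filter_upwards [hpr] with m hm hmk
        exact hm.trans (by rw [hmk])
      choose R hR using h1
      refine ⟨M, fun a => mapF φ (R a), hM, ?_⟩
      have h2 : ∀ᶠ m : ℕ in atTop, ∀ a ∈ Finset.range M, m % M = a % M →
          e (x (m + t) j) = (R a).eval (m : ℂ) := by
        rw [Finset.eventually_all]
        intro a _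
        exact hR a
      filter_upwards [h2] with m hm
      have h3 := hm (m % M) (Finset.mem_range.2 (Nat.mod_lt _ hM)) (Nat.mod_mod _ _).symm
      rw [mapF_eval, ← h3]
      have h4 : e (x (m + t) j) = (x (m + t) j) • (1 : ℂ) := by
        rw [Algebra.smul_def, mul_one]
        rfl
      rw [h4, map_smul, hφ, smul_eq_mul, mul_one]
    choose M r hM hr using hpoly
    set T := ∏ j, M j with hT
    have hTpos : 0 < T := Finset.prod_pos fun j _ => hM j
    have hfin : ∀ᶠ m : ℕ in atTop, ∀ j, x m j =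
        ((r j (((m + (T - 1) * t) % T) % M j)).comp (Polynomial.X - Polynomial.C (t : K))).eval
          (m : K) := by
      refine eventually_unshift (t := t) (eventually_all.2 fun j => ?_)
      filter_upwards [hr j] with m hm
      have h1 : (m + t + (T - 1) * t) % T = m % T := by
        have h2 : (T - 1) * t + t = T * t := by
          obtain ⟨T', hT'⟩ := Nat.exists_eq_add_of_le' hTpos
          rw [hT']
          simp only [Nat.add_sub_cancel]
          ring
        have h3 : m + t + (T - 1) * t = m + T * t := by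
          rw [← h2]
          ring
        rw [h3, Nat.add_mul_mod_self_left]
      rw [h1, Nat.mod_mod_of_dvd _ (Finset.dvd_prod_of_mem M (Finset.mem_univ j)), hm,
        Polynomial.eval_comp]
      simp only [Polynomial.eval_sub, Polynomial.eval_X, Polynomial.eval_C]
      push_cast
      rw [add_sub_cancel_right]
    have hfin' : ∀ᶠ m : ℕ in atTop, ∀ j, x m j =
        ((r j (((m % T + (T - 1) * t) % T) % M j)).comp
          (Polynomial.X - Polynomial.C (t : K))).eval (m : K) := by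
      filter_upwards [hfin] with m hm j
      rw [Nat.mod_add_mod]
      exact hm j
    refine ⟨T, fun a j => (r j (((a + (T - 1) * t) % T) % M j)).comp
      (Polynomial.X - Polynomial.C (t : K)), hTpos, fun a ha F hF' => ?_, hfin'⟩
    exact aff_curve hTpos (p := fun a j => (r j (((a + (T - 1) * t) % T) % M j)).comp
      (Polynomial.X - Polynomial.C (t : K))) hfin' (Eventually.of_forall fun m => hF F hF' m) a ha

end Pool.Agent.Q183.RS
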