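import Pool.Agent.Q183.RS.Alg
import Pool.Agent.H533R3.SL.Asm
import Pool.Agent.Y215.AF.LogHyp

/-!
Sequences of points given by linear recurrences of bounded order, off one hypersurface.
-/

set_option autoImplicit false

namespace Pool.Agent.Q183.RS

open MvPolynomial Filter Pool.Agent.TH143.DE Pool.Agent.H533R3.SL

variable {B : Subalgebra ℂ (ℕ → ℂ)}

/-- a common shift of the exponents -/
theorem exists_shiftexp {R : ℕ} (l : Fin R → ℤ) : ∃ (a : ℕ) (l' : Fin R → ℕ), ∀ i, (l' i : ℤ) = a + l i := by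
  refine ⟨∑ i, (l i).natAbs, fun i => (((∑ i, (l i).natAbs : ℕ) : ℤ) + l i).toNat, fun i => ?_⟩
  rw [Int.toNat_of_nonneg]
  have h1 : (l i).natAbs ≤ ∑ i, (l i).natAbs :=
    Finset.single_le_sum (f := fun i => (l i).natAbs) (fun _ _ => Nat.zero_le _) (Finset.mem_univ i)
  omega

theorem eval_cur {R N : ℕ} (u : Fin R → Fin (N + 1) → ℂ) (l' : Fin R → ℕ) (w : ℂ)
    (j : Fin (N + 1)) : (cur u l' j).eval w = ∑ i, u i j * w ^ l' i := by
  unfold cur
  rw [Polynomial.eval_finsetSum]
  refine Finset.sum_congr rfl fun i _ => ?_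
  simp

theorem pow_shift {R : ℕ} {l : Fin R → ℤ} {a : ℕ} {l' : Fin R → ℕ} (h : ∀ i, (l' i : ℤ) = a + l i)
    {w : ℂ} (hw : w ≠ 0) (i : Fin R) : w ^ l' i = w ^ a * w ^ l i := by
  rw [← zpow_natCast, h, zpow_add₀ hw, zpow_natCast]

theorem poly_ext_ne {p q : Polynomial ℂ} (h : ∀ w : ℂ, w ≠ 0 → p.eval w = q.eval w) : p = q := by
  apply Polynomial.eq_of_infinite_eval_eq
  refine Set.Infinite.mono (s := {x : ℂ | x ≠ 0}) (fun x hx => h x hx) ?_
  exact (Set.finite_singleton (0 : ℂ)).infinite_compl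

theorem aeval_eval' {k : Type} [Field k] [Algebra k ℂ] {m : ℕ}
    (P : Fin m → Polynomial ℂ) (F : MvPolynomial (Fin m) k) (s : ℂ) :
    (aeval P F : Polynomial ℂ).eval s = aeval (fun i => (P i).eval s) F :=
  Pool.Agent.Y215.AF.aeval_eval P F s

/-- the derivative at the point `1` -/
theorem cur_deriv {R N : ℕ} (u : Fin R → Fin (N + 1) → ℂ) {l : Fin R → ℤ} {a : ℕ}
    {l' : Fin R → ℕ} (h : ∀ i, (l' i : ℤ) = a + l i) (j : Fin (N + 1)) :
    (Polynomial.derivative (cur u l' j)).eval 1 =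
      a * (∑ i, u i) j + (∑ i, (l i : ℂ) • u i) j := by
  unfold cur
  rw [Polynomial.derivative_sum, Polynomial.eval_finsetSum, Finset.sum_apply, Finset.sum_apply,
    Finset.mul_sum, ← Finset.sum_add_distrib]
  refine Finset.sum_congr rfl fun i _ => ?_
  have h1 : ((l' i : ℕ) : ℂ) = a + (l i : ℂ) := by
    have h2 := congrArg (fun z : ℤ => (z : ℂ)) (h i)
    push_cast at h2
    exact h2
  rw [Polynomial.derivative_C_mul_X_pow]
  simp only [Polynomial.eval_mul, Polynomial.eval_C, Polynomial.eval_pow, Polynomial.eval_X,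
    one_pow, mul_one, Pi.smul_apply, smul_eq_mul]
  rw [h1]
  ring

/-- **A moving curve lies in the hypersurface.** -/
theorem moves_zero {k : Type} [Field k] [Algebra k ℂ] {N R : ℕ}
    {FF : Set (MvPolynomial (Fin (N + 1)) k)} (hFF : ∀ F ∈ FF, ∃ e, F.IsHomogeneous e)
    {G : MvPolynomial (Fin (N + 1)) k}
    (hG : ∀ (c : Fin R → Fin (N + 1) → ℂ) (l : Fin R → ℕ),
        (∀ F ∈ FF, MvPolynomial.aeval (cur c l) F = 0) →
        (∃ i i', cur c l i * Polynomial.C (∑ j, c j i') ≠
          cur c l i' * Polynomial.C (∑ j, c j i)) →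
        MvPolynomial.aeval (fun i => ∑ j, c j i) G = 0)
    {c1 c0 x : Fin (N + 1) → ℂ}
    (hM : Moves R ((MvPolynomial.map (algebraMap k ℂ)) '' FF) c1 c0 0 x) :
    aeval x G = 0 := by
  obtain ⟨l, u, hu, hF, hne⟩ := hM
  obtain ⟨a, l', hl'⟩ := exists_shiftexp l
  have h1 := hG u l' ?_ ?_
  · have h2 : (fun i => ∑ j, u j i) = x := by
      rw [← hu]
      funext i
      rw [Finset.sum_apply]
    rwa [h2] at h1
  · intro F hFF'
    obtain ⟨e, he⟩ := hFF F hFF'
    apply poly_ext_ne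
    intro w hw
    rw [aeval_eval', Polynomial.eval_zero]
    have h2 : (fun j => (cur u l' j).eval w) = fun j => w ^ a * (∑ i, w ^ (l i) • u i) j := by
      funext j
      rw [eval_cur, Finset.sum_apply, Finset.mul_sum]
      refine Finset.sum_congr rfl fun i _ => ?_
      rw [pow_shift hl' hw, Pi.smul_apply, smul_eq_mul]
      ring
    have h3 := hF _ ⟨F, hFF', rfl⟩ w hw
    rw [h2]
    have h4 : aeval (fun j => w ^ a * (∑ i, w ^ (l i) • u i) j) F =
        eval (fun j => w ^ a * (∑ i, w ^ (l i) • u i) j) (MvPolynomial.map (algebraMap k ℂ) F) := by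
      rw [eval_map]
      rfl
    rw [h4, Pool.Agent.TH143.GT.eval_smul_homog (he.map _), h3, mul_zero]
  · by_contra hcon
    push Not at hcon
    apply hne
    have hx : ∀ j, ∑ i, u i j = x j := fun j => by rw [← hu, Finset.sum_apply]
    have h2 : ∀ i i' : Fin (N + 1), (∑ i, (l i : ℂ) • u i) i * x i' =
        (∑ i, (l i : ℂ) • u i) i' * x i := by
      intro i i'
      have h3 := congrArg (fun p => (Polynomial.derivative p).eval 1) (hcon i i')
      simp only [Polynomial.derivative_mul, Polynomial.derivative_C, mul_zero, add_zero,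
        Polynomial.eval_mul, Polynomial.eval_C] at h3
      rw [cur_deriv u hl', cur_deriv u hl', hu, hx, hx] at h3
      linear_combination h3
    have h3 : lf c1 (∑ i, (l i : ℂ) • u i) * lf c0 x = lf c1 x * lf c0 (∑ i, (l i : ℂ) • u i) := by
      unfold lf
      rw [Finset.sum_mul_sum, Finset.sum_mul_sum]
      refine Finset.sum_congr rfl fun i _ => Finset.sum_congr rfl fun i' _ => ?_
      linear_combination c1 i * c0 i' * h2 i i'
    rw [zero_add, h3, sub_self]

/-- the sequence given by a polynomial in the coordinates vanishes from some index on -/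
theorem ev_map {k : Type} [Field k] [Algebra k ℂ] {σ : Type} (x : σ → ℂ) (F : MvPolynomial σ k) :
    eval x (MvPolynomial.map (algebraMap k ℂ) F) = aeval x F := by
  rw [eval_map]
  rfl

/-- **The projective theorem.** -/
theorem proj_main {k : Type} [Field k] {N : ℕ} (FF : Set (MvPolynomial (Fin (N + 1)) k))
    (hprime : (Ideal.span FF).IsPrime) (hnu : ¬ Uniruled (Ideal.span FF)) (d : ℕ) (hd : 1 ≤ d)
    (hFF : ∀ F ∈ FF, ∃ e, e ≤ d ∧ F.IsHomogeneous e) (q : ℕ) :
    ∃ G : MvPolynomial (Fin (N + 1)) k, (∃ e, G.IsHomogeneous e) ∧ G ∉ Ideal.span FF ∧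
      ∀ [Algebra k ℂ] (B : Subalgebra ℂ (ℕ → ℂ)), CoefField B → ∀ x : ℕ → Fin (N + 1) → ℂ,
        (∀ j, RecO B q (fun m => x m j)) → (∀ F ∈ FF, ∀ᶠ m in atTop, aeval (x m) F = 0) →
        ∃ t : ℕ, (∀ c : Fin (N + 1) → ℂ, (∀ᶠ m in atTop, lf c (x m) ≠ 0) → ∀ j,
          AlgOn B {m | aeval (x (m + t)) G ≠ 0} (fun m => x (m + t) j / lf c (x (m + t)))) ∧
        ∀ i j, AlgPair B {m | aeval (x (m + t)) G ≠ 0} (fun m => x (m + t) i)
          (fun m => x (m + t) j) := by
  classical
  obtain ⟨G, hG1, hG2, hG3⟩ := exists_hyper FF hprime hnu d hd hFF ((N + 1) * q)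
  refine ⟨G, hG1, hG2, ?_⟩
  intro _ B hB x hx hF
  obtain ⟨t, ht⟩ := alg_main hB (R := (N + 1) * q) (by rw [Fintype.card_fin]) hx
    ((MvPolynomial.map (algebraMap k ℂ)) '' FF) (by
      rintro _ ⟨F, hFF', rfl⟩
      filter_upwards [hF F hFF'] with m hm
      rw [ev_map]
      exact hm)
  have hlf : ∀ (j : Fin (N + 1)) (v : Fin (N + 1) → ℂ), lf (Pi.single j 1) v = v j := by
    intro j v
    unfold lf
    simp [Pi.single_apply]
  refine ⟨t, fun c hc j => ?_, fun i j => ?_⟩
  · have h1 := ht {m | aeval (x m) G ≠ 0} (Pi.single j 1) c 0 (by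
      filter_upwards [hc] with m hm _
      rwa [zero_add]) (Eventually.of_forall fun m hm hM => hm
        (moves_zero (fun F hF' => let ⟨e, _, he⟩ := hFF F hF'; ⟨e, he⟩)
          (fun c l h1 h2 => hG3 ℂ c l h1 h2) hM))
    simp only [zero_add, hlf] at h1
    exact h1
  · apply AlgPair.of_div
    have h1 := ht {m | aeval (x m) G ≠ 0 ∧ x m j ≠ 0} (Pi.single i 1) (Pi.single j 1) 0 (by
      refine Eventually.of_forall fun m hm => ?_
      rw [zero_add, hlf]
      exact hm.2) (Eventually.of_forall fun m hm hM => hm.1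
        (moves_zero (fun F hF' => let ⟨e, _, he⟩ := hFF F hF'; ⟨e, he⟩)
          (fun c l h1 h2 => hG3 ℂ c l h1 h2) hM))
    simp only [zero_add, hlf] at h1
    exact h1

open Pool.Agent.Y215.AF Pool.Agent.W235.RM

/-- **A moving affine curve lies in the hypersurface.** -/
theorem moves_zeroA {k : Type} [Field k] [Algebra k ℂ] {n R d : ℕ}
    {FF : Set (MvPolynomial (Fin n) k)} (hFF : ∀ F ∈ FF, F.totalDegree ≤ d)
    {G : MvPolynomial (Fin n) k}
    (hG : ∀ (c : Fin R → Fin n → ℂ) (l : Fin (R + 1) → ℕ),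
        (∀ F ∈ FF, aeval (cur (homC c) l) (hmg d F) = 0) →
        (∃ i i', cur (homC c) l i * Polynomial.C (∑ j, homC c j i') ≠
          cur (homC c) l i' * Polynomial.C (∑ j, homC c j i)) →
        aeval (fun i => ∑ j, c j i) G = 0)
    {c1 x : Fin n → ℂ}
    (hM : Moves R ((MvPolynomial.map (algebraMap k ℂ)) '' FF) c1 0 1 x) :
    aeval x G = 0 := by
  obtain ⟨l, u, hu, hF, hne⟩ := hM
  obtain ⟨a, l', hl'⟩ := exists_shiftexp l
  have hlc : ∀ w : ℂ, w ≠ 0 → ∀ j, lc u (Fin.cons a l' : Fin (R + 1) → ℕ) w j =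
      (∑ i, w ^ (l i) • u i) j := by
    intro w hw j
    unfold lc
    rw [Fin.cons_zero, div_eq_iff (pow_ne_zero _ hw), Finset.sum_apply, Finset.sum_mul]
    refine Finset.sum_congr rfl fun i _ => ?_
    rw [Fin.cons_succ, pow_shift hl' hw, Pi.smul_apply, smul_eq_mul]
    ring
  have h1 := hG u (Fin.cons a l') ?_ ?_
  · have h2 : (fun i => ∑ j, u j i) = x := by
      rw [← hu]
      funext i
      rw [Finset.sum_apply]
    rwa [h2] at h1
  · intro F hFF'
    apply poly_ext_ne
    intro w hw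
    rw [aeval_eval', Polynomial.eval_zero, cur_eval_lc u _ w hw, aeval_def,
      hmg_eval _ d F (hFF F hFF')]
    have h3 := hF _ ⟨F, hFF', rfl⟩ w hw
    rw [ev_map, aeval_def] at h3
    have h4 : (fun j => lc u (Fin.cons a l' : Fin (R + 1) → ℕ) w j) = ∑ i, w ^ (l i) • u i := by
      funext j
      exact hlc w hw j
    have h5 : (fun j => lc u (Fin.cons a l' : Fin (R + 1) → ℕ) w j) =
        lc u (Fin.cons a l' : Fin (R + 1) → ℕ) w := rfl
    rw [← h5, h4, h3, mul_zero]
  · by_contra hcon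
    push Not at hcon
    apply hne
    have hx : ∀ j, ∑ i, u i j = x j := fun j => by rw [← hu, Finset.sum_apply]
    have hs := homC_sum u
    have hs0 : ∑ j, homC u j 0 = 1 := by
      have := congrFun hs 0
      simpa using this
    have hsj : ∀ b : Fin n, ∑ j, homC u j b.succ = x b := by
      intro b
      have := congrFun hs b.succ
      simp only [Fin.cons_succ] at this
      rw [this, hx]
    have h2 : ∑ i, (l i : ℂ) • u i = 0 := by
      funext b
      have h3 := congrArg (fun p => (Polynomial.derivative p).eval 1) (hcon b.succ 0)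
      simp only [hs0, hsj, Polynomial.C_1, mul_one] at h3
      rw [cur_homC_zero, cur_homC_succ, Fin.cons_zero] at h3
      simp only [Fin.cons_succ, Polynomial.derivative_mul, Polynomial.derivative_C, mul_zero,
        add_zero, Polynomial.eval_mul, Polynomial.eval_C, Polynomial.derivative_X_pow,
        Polynomial.eval_pow, Polynomial.eval_X, one_pow, mul_one, Polynomial.derivative_sum,
        Polynomial.eval_finsetSum, zero_mul, zero_add, Polynomial.eval_natCast,
        Polynomial.C_eq_natCast] at h3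
      rw [Finset.sum_apply, Pi.zero_apply]
      have h4 : ∀ i, ((l' i : ℕ) : ℂ) = a + (l i : ℂ) := by
        intro i
        have h2 := congrArg (fun z : ℤ => (z : ℂ)) (hl' i)
        push_cast at h2
        exact h2
      have h5 : ∑ i, u i b * ((l' i : ℕ) : ℂ) = a * x b + ∑ i, ((l i : ℂ) • u i) b := by
        rw [← hx b, Finset.mul_sum, ← Finset.sum_add_distrib]
        refine Finset.sum_congr rfl fun i _ => ?_
        rw [h4, Pi.smul_apply, smul_eq_mul]
        ring
      have h6 : ∑ i, u i b * ((l' i : ℕ) : ℂ) = a * x b := by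
        rw [← h3]
      rw [h5] at h6
      linear_combination h6
    rw [h2]
    simp [lf]

/-- **The affine theorem.** -/
theorem aff_main {k : Type} [Field k] [CharZero k] {n : ℕ} (FF : Set (MvPolynomial (Fin n) k))
    (hprime : (Ideal.span FF).IsPrime) (hnu : ¬ GmUniruled (Ideal.span FF)) (d : ℕ) (hd1 : 1 ≤ d)
    (hd : ∀ F ∈ FF, F.totalDegree ≤ d) (q : ℕ) :
    ∃ G : MvPolynomial (Fin n) k, G ∉ Ideal.span FF ∧
      ∀ [Algebra k ℂ] (B : Subalgebra ℂ (ℕ → ℂ)), CoefField B → ∀ x : ℕ → Fin n → ℂ,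
        (∀ j, RecO B q (fun m => x m j)) → (∀ F ∈ FF, ∀ᶠ m in atTop, aeval (x m) F = 0) →
        ∃ t : ℕ, ∀ j, AlgOn B {m | aeval (x (m + t)) G ≠ 0} (fun m => x (m + t) j) := by
  classical
  obtain ⟨G, hG2, hG3⟩ := exists_hyperA FF hprime hnu d hd1 hd (n * q)
  refine ⟨G, hG2, ?_⟩
  intro _ B hB x hx hF
  obtain ⟨t, ht⟩ := alg_main hB (R := n * q) (by rw [Fintype.card_fin]) hx
    ((MvPolynomial.map (algebraMap k ℂ)) '' FF) (by
      rintro _ ⟨F, hFF', rfl⟩
      filter_upwards [hF F hFF'] with m hm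
      rw [ev_map]
      exact hm)
  refine ⟨t, fun j => ?_⟩
  have h1 := ht {m | aeval (x m) G ≠ 0} (Pi.single j 1) 0 1 (Eventually.of_forall fun m => by
    simp [lf]) (Eventually.of_forall fun m hm hM => hm
      (moves_zeroA hd (fun c l h1 h2 => hG3 ℂ c l h1 h2) hM))
  have h2 : (fun m => lf (Pi.single j 1) (x (m + t)) / (1 + lf 0 (x (m + t)))) =
      fun m => x (m + t) j := by
    funext m
    unfold lf
    simp [Pi.single_apply]
  rw [h2] at h1
  exact h1

end Pool.Agent.Q183.RS
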