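import Pool.Agent.Q183.RS.Ext

/-!
Sequences of points over a field given by linear recurrences of bounded order.
-/

set_option autoImplicit false

namespace Pool.Agent.Q183.RS

open MvPolynomial Filter Pool.Agent.TH143.DE Pool.Agent.H533R3.SL Cardinal

/-- A field of characteristic zero with at most continuum many elements embeds into `ℂ`. -/
theorem exists_emb (F : Type) [Field F] [CharZero F] (hF : #F ≤ 𝔠) : Nonempty (F →+* ℂ) := by
  classical
  -- a field with exactly continuum many elements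
  let M := FractionRing (MvPolynomial ℝ F)
  have hM : #M ≤ 𝔠 := by
    have h1 : #(MvPolynomial ℝ F) ≤ 𝔠 := by
      refine MvPolynomial.cardinalMk_le_max.trans ?_
      refine max_le (max_le hF ?_) aleph0_le_continuum
      rw [mk_real]
    refine (IsFractionRing.cardinalMk (MvPolynomial ℝ F) M).le.trans h1
  have hM' : 𝔠 ≤ #M := by
    have h3 : Function.Injective fun r : ℝ => algebraMap (MvPolynomial ℝ F) M (X r) :=
      (IsFractionRing.injective (MvPolynomial ℝ F) M).comp (X_injective)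
    have := mk_le_of_injective h3
    rwa [mk_real] at this
  have h0 : CharZero M := charZero_of_injective_algebraMap (algebraMap F M).injective
  have h1 : CharZero (AlgebraicClosure M) :=
    charZero_of_injective_algebraMap (algebraMap M (AlgebraicClosure M)).injective
  have h2 : #(AlgebraicClosure M) = 𝔠 := by
    refine le_antisymm ?_ ?_
    · refine (Algebra.IsAlgebraic.cardinalMk_le_max M (AlgebraicClosure M)).trans ?_
      exact max_le hM aleph0_le_continuum
    · exact hM'.trans (mk_le_of_injective (algebraMap M (AlgebraicClosure M)).injective)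
  obtain ⟨e⟩ := IsAlgClosed.ringEquiv_of_equiv_of_charZero
    (K := AlgebraicClosure M) (L := ℂ) (by rw [h2]; exact aleph0_lt_continuum)
    (Cardinal.eq.1 (h2.trans Cardinal.mk_complex.symm))
  exact ⟨((e : AlgebraicClosure M →+* ℂ).comp (algebraMap M (AlgebraicClosure M))).comp
    (algebraMap F M)⟩

/-- **The projective theorem over a field.** -/
theorem projK {k : Type} [Field k] {N : ℕ} (FF : Set (MvPolynomial (Fin (N + 1)) k))
    (hprime : (Ideal.span FF).IsPrime) (hnu : ¬ Uniruled (Ideal.span FF)) (d : ℕ) (hd : 1 ≤ d)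
    (hFF : ∀ F ∈ FF, ∃ e, e ≤ d ∧ F.IsHomogeneous e) (q : ℕ) :
    ∃ G : MvPolynomial (Fin (N + 1)) k, (∃ e, G.IsHomogeneous e) ∧ G ∉ Ideal.span FF ∧
      ∀ (K : Type) [Field K] [CharZero K] [Algebra k K], #K ≤ 𝔠 →
        ∀ B : Subalgebra K (ℕ → K), DiffRing B → ∀ x : ℕ → Fin (N + 1) → K,
        (∀ j, RecK B q (fun m => x m j)) → (∀ F ∈ FF, ∀ᶠ m in atTop, aeval (x m) F = 0) →
        ∃ t : ℕ, ∀ i j, AlgPairK B {m | aeval (x (m + t)) G ≠ 0} (fun m => x (m + t) i)
          (fun m => x (m + t) j) := by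
  classical
  obtain ⟨G, hG1, hG2, hG3⟩ := proj_main FF hprime hnu d hd hFF q
  refine ⟨G, hG1, hG2, ?_⟩
  intro K _ _ _ hK B hB x hx hF
  obtain ⟨e⟩ := exists_emb K hK
  let _ : Algebra K ℂ := e.toAlgebra
  let _ : Algebra k ℂ := (e.comp (algebraMap k K)).toAlgebra
  have hev : ∀ (y : Fin (N + 1) → K) (F : MvPolynomial (Fin (N + 1)) k),
      aeval (fun j => algebraMap K ℂ (y j)) F = algebraMap K ℂ (aeval y F) := by
    intro y F
    rw [aeval_def, aeval_def]
    exact (eval₂_comp_left e (algebraMap k K) y F).symm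
  obtain ⟨t, -, ht⟩ := hG3 (fracB B) (frac_field hB) (fun m j => algebraMap K ℂ (x m j))
    (fun j => (hx j).recO) (fun F hFF' => by
      filter_upwards [hF F hFF'] with m hm
      rw [hev, hm, map_zero])
  refine ⟨t, fun i j => ?_⟩
  have h1 := AlgPair.descend hB (ht i j)
  have h2 : {m | aeval (fun j => algebraMap K ℂ (x (m + t) j)) G ≠ 0} =
      {m | aeval (x (m + t)) G ≠ 0} := by
    ext m
    simp only [Set.mem_ofPred_eq, hev, ne_eq, map_eq_zero]
  rwa [h2] at h1

/-- The sequence `f` is algebraic over `B` along the set `A` of indices. -/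
def AlgOnK {K : Type} [Field K] (B : Subalgebra K (ℕ → K)) (A : Set ℕ) (f : ℕ → K) : Prop :=
  ∃ (d : ℕ) (b : ℕ → ℕ → K), (∀ k, b k ∈ B) ∧ (∃ k ≤ d, ¬ ∀ᶠ m in atTop, b k m = 0) ∧
    ∀ᶠ m in atTop, m ∈ A → ∑ k ∈ Finset.range (d + 1), b k m * f m ^ k = 0

theorem algOn_iff_pair {K : Type} [Field K] {B : Subalgebra K (ℕ → K)} {A : Set ℕ} {f : ℕ → K} :
    AlgOnK B A f ↔ AlgPairK B A f (fun _ => 1) := by
  unfold AlgOnK AlgPairK
  simp only [one_pow, mul_one]

theorem AlgOn.pair {B : Subalgebra ℂ (ℕ → ℂ)} {A : Set ℕ} {f : ℕ → ℂ} (h : AlgOn B A f) :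
    AlgPair B A f (fun _ => 1) := by
  unfold AlgOn at h
  unfold AlgPair
  simpa only [one_pow, mul_one] using h

/-- **The affine theorem over a field.** -/
theorem affK {k : Type} [Field k] [CharZero k] {n : ℕ} (FF : Set (MvPolynomial (Fin n) k))
    (hprime : (Ideal.span FF).IsPrime) (hnu : ¬ Pool.Agent.Y215.AF.GmUniruled (Ideal.span FF))
    (d : ℕ) (hd1 : 1 ≤ d) (hd : ∀ F ∈ FF, F.totalDegree ≤ d) (q : ℕ) :
    ∃ G : MvPolynomial (Fin n) k, G ∉ Ideal.span FF ∧
      ∀ (K : Type) [Field K] [Algebra k K], #K ≤ 𝔠 →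
        ∀ B : Subalgebra K (ℕ → K), DiffRing B → ∀ x : ℕ → Fin n → K,
        (∀ j, RecK B q (fun m => x m j)) → (∀ F ∈ FF, ∀ᶠ m in atTop, aeval (x m) F = 0) →
        ∃ t : ℕ, ∀ j, AlgOnK B {m | aeval (x (m + t)) G ≠ 0} (fun m => x (m + t) j) := by
  classical
  obtain ⟨G, hG2, hG3⟩ := aff_main FF hprime hnu d hd1 hd q
  refine ⟨G, hG2, ?_⟩
  intro K _ _ hK B hB x hx hF
  have hchar : CharZero K := charZero_of_injective_algebraMap (algebraMap k K).injective
  obtain ⟨e⟩ := exists_emb K hK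
  let _ : Algebra K ℂ := e.toAlgebra
  let _ : Algebra k ℂ := (e.comp (algebraMap k K)).toAlgebra
  have hev : ∀ (y : Fin n → K) (F : MvPolynomial (Fin n) k),
      aeval (fun j => algebraMap K ℂ (y j)) F = algebraMap K ℂ (aeval y F) := by
    intro y F
    rw [aeval_def, aeval_def]
    exact (eval₂_comp_left e (algebraMap k K) y F).symm
  obtain ⟨t, ht⟩ := hG3 (fracB B) (frac_field hB) (fun m j => algebraMap K ℂ (x m j))
    (fun j => (hx j).recO) (fun F hFF' => by
      filter_upwards [hF F hFF'] with m hm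
      rw [hev, hm, map_zero])
  refine ⟨t, fun j => ?_⟩
  have h0 := (ht j).pair
  have h3 : (fun _ : ℕ => (1 : ℂ)) = fun _ => algebraMap K ℂ 1 := by
    funext m
    rw [map_one]
  rw [h3] at h0
  have h1 := AlgPair.descend hB (g := fun _ => 1) h0
  have h2 : {m | aeval (fun j => algebraMap K ℂ (x (m + t) j)) G ≠ 0} =
      {m | aeval (x (m + t)) G ≠ 0} := by
    ext m
    simp only [Set.mem_ofPred_eq, hev, ne_eq, map_eq_zero]
  rw [h2] at h1
  exact algOn_iff_pair.2 h1

/-! ### inversive difference rings -/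

variable {K : Type} [Field K]

/-- The shift of the difference ring is surjective. -/
def Inversive (B : Subalgebra K (ℕ → K)) : Prop :=
  ∀ b ∈ B, ∃ b' ∈ B, ∀ᶠ m in atTop, b' (m + 1) = b m

theorem Inversive.iter {B : Subalgebra K (ℕ → K)} (hB : Inversive B) (t : ℕ) {b : ℕ → K}
    (hb : b ∈ B) : ∃ b' ∈ B, ∀ᶠ m in atTop, b' (m + t) = b m := by
  induction t with
  | zero => exact ⟨b, hb, Eventually.of_forall fun m => rfl⟩
  | succ t ih =>
    obtain ⟨b', hb', h⟩ := ih
    obtain ⟨b'', hb'', h''⟩ := hB b' hb'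
    refine ⟨b'', hb'', ?_⟩
    filter_upwards [h, eventually_shift h'' t] with m h1 h2
    rw [← h1, ← h2]
    rfl

theorem eventually_unshift {p : ℕ → Prop} {t : ℕ} (h : ∀ᶠ m in atTop, p (m + t)) :
    ∀ᶠ m in atTop, p m := by
  obtain ⟨m0, hm0⟩ := eventually_atTop.1 h
  refine eventually_atTop.2 ⟨m0 + t, fun m hm => ?_⟩
  have := hm0 (m - t) (by omega)
  rwa [Nat.sub_add_cancel (by omega)] at this

theorem AlgPairK.unshift {B : Subalgebra K (ℕ → K)} (hB : Inversive B) {A : Set ℕ} {t : ℕ}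
    {f g : ℕ → K}
    (h : AlgPairK B {m | m + t ∈ A} (fun m => f (m + t)) (fun m => g (m + t))) :
    AlgPairK B A f g := by
  obtain ⟨d, b, hb, ⟨k0, hk0, hne⟩, h⟩ := h
  choose b' hb' hbb using fun k => hB.iter t (hb k)
  refine ⟨d, b', hb', ⟨k0, hk0, fun h0 => hne ?_⟩, ?_⟩
  · filter_upwards [hbb k0, eventually_shift h0 t] with m h1 h2
    rw [← h1, h2]
  · refine eventually_unshift (t := t) ?_
    have h1 : ∀ᶠ m in atTop, ∀ k ∈ Finset.range (d + 1), b' k (m + t) = b k m := by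
      rw [Finset.eventually_all]
      exact fun k _ => hbb k
    filter_upwards [h, h1] with m h2 h3 hmA
    rw [← h2 hmA]
    refine Finset.sum_congr rfl fun k hk => ?_
    rw [h3 k hk]

/-! ### polynomials in the index -/

/-- the polynomials in the index -/
def polyB (K : Type) [Field K] : Subalgebra K (ℕ → K) where
  carrier := {f | ∃ P : Polynomial K, ∀ m : ℕ, f m = P.eval (m : K)}
  mul_mem' := by
    rintro f g ⟨P, hP⟩ ⟨Q, hQ⟩
    exact ⟨P * Q, fun m => by rw [Pi.mul_apply, hP, hQ, Polynomial.eval_mul]⟩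
  add_mem' := by
    rintro f g ⟨P, hP⟩ ⟨Q, hQ⟩
    exact ⟨P + Q, fun m => by rw [Pi.add_apply, hP, hQ, Polynomial.eval_add]⟩
  algebraMap_mem' := fun c => ⟨Polynomial.C c, fun m => by
    rw [Polynomial.eval_C]
    rfl⟩

theorem eval_ev_ne [CharZero K] {P : Polynomial K} (hP : P ≠ 0) :
    ∀ᶠ m : ℕ in atTop, P.eval (m : K) ≠ 0 := by
  have h1 : {z | P.eval z = 0}.Finite := Polynomial.finite_setOfPred_isRoot hP
  have h2 := h1.preimage (Nat.cast_injective.injOn (s := (fun m : ℕ => (m : K)) ⁻¹' {z | P.eval z = 0}))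
  have h3 := h2.compl_mem_cofinite
  rw [Nat.cofinite_eq_atTop] at h3
  exact h3

theorem polyB_ring [CharZero K] : DiffRing (polyB K) := by
  refine ⟨?_, ?_⟩
  · rintro f ⟨P, hP⟩
    refine ⟨P.comp (Polynomial.X + 1), fun m => ?_⟩
    change f (m + 1) = _
    rw [hP, Polynomial.eval_comp]
    simp
  · rintro f ⟨P, hP⟩
    by_cases h : P = 0
    · left
      exact Eventually.of_forall fun m => by rw [hP, h, Polynomial.eval_zero]
    · right
      filter_upwards [eval_ev_ne h] with m hm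
      rwa [hP]

theorem polyB_inv : Inversive (polyB K) := by
  rintro f ⟨P, hP⟩
  refine ⟨fun m => (P.comp (Polynomial.X - 1)).eval (m : K), ⟨_, fun m => rfl⟩,
    Eventually.of_forall fun m => ?_⟩
  change (P.comp (Polynomial.X - 1)).eval ((m + 1 : ℕ) : K) = f m
  rw [hP, Polynomial.eval_comp]
  simp

/-- The sequence `f` satisfies a nontrivial linear recurrence of order at most `r` whose
coefficients are polynomials in the index. -/
def PRecO (r : ℕ) (f : ℕ → K) : Prop :=
  ∃ a : ℕ → Polynomial K, (∃ k ≤ r, a k ≠ 0) ∧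
    ∀ m : ℕ, ∑ k ∈ Finset.range (r + 1), (a k).eval (m : K) * f (m + k) = 0

theorem PRecO.recK [CharZero K] {r : ℕ} {f : ℕ → K} (h : PRecO r f) : RecK (polyB K) r f := by
  obtain ⟨a, ⟨k0, hk0, hne⟩, h⟩ := h
  refine ⟨fun k m => (a k).eval (m : K), fun k => ⟨a k, fun m => rfl⟩, ⟨k0, hk0, fun h0 => ?_⟩,
    Eventually.of_forall h⟩
  obtain ⟨m, h1, h2⟩ := (h0.and (eval_ev_ne hne)).exists
  exact h2 h1

/-- The quotient of the sequences `f` and `g` is an algebraic function of the index along `A`. -/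
def AlgIndex (A : Set ℕ) (f g : ℕ → K) : Prop :=
  ∃ (d : ℕ) (b : ℕ → Polynomial K), (∃ k ≤ d, b k ≠ 0) ∧
    ∀ᶠ m : ℕ in atTop, m ∈ A →
      ∑ k ∈ Finset.range (d + 1), (b k).eval (m : K) * f m ^ k * g m ^ (d - k) = 0

theorem AlgPairK.index {A : Set ℕ} {f g : ℕ → K} (h : AlgPairK (polyB K) A f g) :
    AlgIndex A f g := by
  obtain ⟨d, b, hb, ⟨k0, hk0, hne⟩, h⟩ := h
  choose P hP using hb
  refine ⟨d, P, ⟨k0, hk0, fun h0 => hne ?_⟩, ?_⟩
  · exact Eventually.of_forall fun m => by rw [hP, h0, Polynomial.eval_zero]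
  · filter_upwards [h] with m hm hmA
    rw [← hm hmA]
    exact Finset.sum_congr rfl fun k _ => by rw [hP]

end Pool.Agent.Q183.RS
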