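import Pool.Agent.Q183.RS.Main
import Pool.Agent.TH143.HE.Proj
import Pool.Agent.TH143.HE.Quot

/-!
P-recursive sequences of points: polynomial parametrisation on residue classes.
-/

set_option autoImplicit false

namespace Pool.Agent.Q183.RS

open MvPolynomial Filter Pool.Agent.TH143.DE Pool.Agent.TH143.HE Pool.Agent.H533R3.SL Cardinal

/-- relations with polynomial coefficients -/
theorem AlgOn.exists_rel {A : Set ℕ} (hA : ∀ᶠ m in atTop, m ∈ A) {y : ℕ → ℂ} (h : AlgOn RB A y) :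
    ∃ P : Polynomial (Polynomial ℂ), P ≠ 0 ∧ ∀ᶠ m in atTop, evs y P m = 0 := by
  classical
  obtain ⟨d, b, hb, ⟨k0, hk0, hne⟩, h⟩ := h
  choose g r hr hg using hb
  let c : ℕ → Polynomial ℂ := fun k => g k * ∏ i ∈ (Finset.range (d + 1)).erase k, r i
  let H : Polynomial ℂ := ∏ i ∈ Finset.range (d + 1), r i
  have hH : H ≠ 0 := Finset.prod_ne_zero_iff.2 fun i _ => hr i
  have hev : ∀ᶠ m : ℕ in atTop, ∀ k ∈ Finset.range (d + 1),
      (c k).eval (m : ℂ) = H.eval (m : ℂ) * b k m := by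
    rw [Finset.eventually_all]
    intro k hk
    filter_upwards [hg k, ev_ne Nat.cast_injective (hr k)] with m h1 h2
    simp only [c, H]
    rw [h1, ← Finset.mul_prod_erase _ _ hk, Polynomial.eval_mul, Polynomial.eval_mul]
    field_simp
  let P : Polynomial (Polynomial ℂ) := ∑ k ∈ Finset.range (d + 1),
    Polynomial.C (c k) * Polynomial.X ^ k
  have hP : ∀ k ∈ Finset.range (d + 1), P.coeff k = c k := by
    intro k hk
    simp only [P, Polynomial.finsetSum_coeff, Polynomial.coeff_C_mul_X_pow]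
    rw [Finset.sum_eq_single k]
    · rw [if_pos rfl]
    · intro i _ hik
      rw [if_neg (Ne.symm hik)]
    · intro h1
      exact absurd hk h1
  refine ⟨P, fun h0 => hne ?_, ?_⟩
  · have hk : k0 ∈ Finset.range (d + 1) := Finset.mem_range.2 (by omega)
    have h1 := hP k0 hk
    rw [h0, Polynomial.coeff_zero] at h1
    filter_upwards [hev, ev_ne Nat.cast_injective hH] with m h2 h3
    have h4 := h2 k0 hk
    rw [← h1, Polynomial.eval_zero] at h4
    exact (mul_eq_zero.1 h4.symm).resolve_left h3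
  · filter_upwards [hA, h, hev] with m h1 h2 h3
    simp only [P, map_sum, map_mul, map_pow]
    rw [Finset.sum_apply]
    have h4 : ∀ k ∈ Finset.range (d + 1), (evs y (Polynomial.C (c k)) * evs y Polynomial.X ^ k) m =
        H.eval (m : ℂ) * (b k m * y m ^ k) := by
      intro k hk
      rw [Pi.mul_apply, Pi.pow_apply, evs_C, evs_X, h3 k hk, mul_assoc]
    rw [Finset.sum_congr rfl h4, ← Finset.mul_sum, h2 h1, mul_zero]

variable {N : ℕ}

/-- **Parametrisation by polynomials** on residue classes. -/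
theorem par {x : ℕ → Fin (N + 1) → ℂ} (hne : ∀ m, x m ≠ 0) (hlin : ∀ j, LinRec RB fun m => x m j)
    (t : ℕ) (halg : ∀ c : Fin (N + 1) → ℂ, (∀ᶠ m in atTop, lf c (x m) ≠ 0) → ∀ j,
      ∃ P : Polynomial (Polynomial ℂ), P ≠ 0 ∧
        ∀ᶠ m in atTop, evs (fun m => x (m + t) j / lf c (x (m + t))) P m = 0) :
    ∃ (K : ℕ) (ρ : ℕ → Fin (N + 1) → Polynomial ℂ), 0 < K ∧
      ∀ᶠ m : ℕ in atTop, ∃ b : ℂ, b ≠ 0 ∧ ∀ j, (ρ (m % K) j).eval (m : ℂ) = b * x m j := by
  classical
  obtain ⟨c, hc⟩ := exists_linear x hne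
  let ℓ : (Fin (N + 1) → ℂ) → ℂ := lf (fun j => c ^ (j : ℕ))
  have hℓx : ∀ m, ℓ (x m) ≠ 0 := fun m => hc m
  have hrat : ∀ j, ∃ (p : Polynomial ℂ) (k : ℕ) (q : ℕ → Polynomial ℂ), p ≠ 0 ∧ 0 < k ∧
      ∀ᶠ m : ℕ in atTop, p.eval (m : ℂ) * (x (m + t) j / ℓ (x (m + t))) =
        (q (m % k)).eval (m : ℂ) := by
    intro j
    obtain ⟨P, hP, hP0⟩ := halg (fun j => c ^ (j : ℕ)) (Eventually.of_forall hℓx) j
    have hfg : ∀ i, FGS fun m => x (m + t) i := fun i =>
      exists_fg (LinRec.shift RB_field (hlin i) t)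
    have hg : FGS fun m => ℓ (x (m + t)) := by
      have h1 : (fun m => ℓ (x (m + t))) = fun m => ∑ i : Fin (N + 1), c ^ (i : ℕ) * x (m + t) i := rfl
      rw [h1]
      exact FGS.sum _ fun i _ => (hfg i).const_mul _
    exact quasi_rational_quot (hfg j) hg (Eventually.of_forall fun m => hℓx (m + t)) hP hP0
  choose p k q hp hk hq using hrat
  set K := ∏ j, k j with hK
  have hKpos : 0 < K := Finset.prod_pos fun j _ => hk j
  let P : Polynomial ℂ := ∏ j, p j
  have hP : P ≠ 0 := Finset.prod_ne_zero_iff.2 fun j _ => hp j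
  let ρ : ℕ → Fin (N + 1) → Polynomial ℂ := fun a j =>
    (∏ i ∈ Finset.univ.erase j, p i) * q j (a % k j)
  have hρ : ∀ᶠ m : ℕ in atTop, P.eval (m : ℂ) ≠ 0 ∧ ∀ j, P.eval (m : ℂ) * x (m + t) j =
      ℓ (x (m + t)) * (ρ (m % K) j).eval (m : ℂ) := by
    refine (ev_ne Nat.cast_injective hP).and (eventually_all.2 fun j => ?_)
    filter_upwards [hq j] with m hm
    have h1 : P.eval (m : ℂ) = (∏ i ∈ Finset.univ.erase j, p i).eval (m : ℂ) *
        (p j).eval (m : ℂ) := by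
      rw [← Polynomial.eval_mul, mul_comm, Finset.mul_prod_erase _ _ (Finset.mem_univ j)]
    have h2 : (ρ (m % K) j).eval (m : ℂ) = (∏ i ∈ Finset.univ.erase j, p i).eval (m : ℂ) *
        (p j).eval (m : ℂ) * (x (m + t) j / ℓ (x (m + t))) := by
      simp only [ρ]
      rw [Polynomial.eval_mul, Nat.mod_mod_of_dvd _ (Finset.dvd_prod_of_mem k (Finset.mem_univ j)),
        ← hm, mul_assoc]
    rw [h2, h1]
    have h3 := hℓx (m + t)
    field_simp
  refine ⟨K, fun a j => (ρ ((a + (K - 1) * t) % K) j).comp (Polynomial.X - Polynomial.C (t : ℂ)),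
    hKpos, ?_⟩
  refine eventually_unshift (t := t) ?_
  filter_upwards [hρ] with m hm
  refine ⟨P.eval (m : ℂ) / ℓ (x (m + t)), div_ne_zero hm.1 (hℓx (m + t)), fun j => ?_⟩
  have h1 : (((m + t) % K) + (K - 1) * t) % K = m % K := by
    have h2 : (K - 1) * t + t = K * t := by
      obtain ⟨K', hK'⟩ := Nat.exists_eq_add_of_le' hKpos
      rw [hK']
      simp only [Nat.add_sub_cancel]
      ring
    have h3 : m + t + (K - 1) * t = m + K * t := by
      rw [← h2]
      ring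
    rw [Nat.add_mod, Nat.mod_mod, ← Nat.add_mod, h3, Nat.add_mul_mod_self_left]
  rw [h1, Polynomial.eval_comp]
  simp only [Polynomial.eval_sub, Polynomial.eval_X, Polynomial.eval_C]
  push_cast
  rw [add_sub_cancel_right, div_mul_eq_mul_div, hm.2 j, mul_div_cancel_left₀ _ (hℓx (m + t))]

theorem eval_smul_homogL {σ L : Type} [Fintype σ] [Field L] {F : MvPolynomial σ L} {d : ℕ}
    (hF : F.IsHomogeneous d) (c : L) (x : σ → L) :
    eval (fun j => c * x j) F = c ^ d * eval x F := by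
  rw [eval_eq', eval_eq', Finset.mul_sum]
  refine Finset.sum_congr rfl fun α hα => ?_
  have h1 : ∑ i, α i = d := by
    have := hF (mem_support_iff.1 hα)
    rwa [Finsupp.weight_apply, Finsupp.sum_fintype _ _ (by simp), Finset.sum_congr rfl
      (fun i _ => by rw [Pi.one_apply, smul_eq_mul, mul_one])] at this
  rw [← h1, ← Finset.prod_pow_eq_pow_sum]
  simp only [mul_pow]
  rw [Finset.prod_mul_distrib]
  ring

/-- the image of a polynomial under a functional -/
noncomputable def mapF {L : Type} [Field L] [Algebra L ℂ] (φ : ℂ →ₗ[L] L) (P : Polynomial ℂ) :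
    Polynomial L := ∑ i ∈ Finset.range (P.natDegree + 1), Polynomial.C (φ (P.coeff i)) * Polynomial.X ^ i

theorem mapF_eval {L : Type} [Field L] [Algebra L ℂ] (φ : ℂ →ₗ[L] L) (P : Polynomial ℂ) (m : ℕ) :
    (mapF φ P).eval (m : L) = φ (P.eval (m : ℂ)) := by
  unfold mapF
  rw [Polynomial.eval_finsetSum, Polynomial.eval_eq_sum_range, map_sum]
  refine Finset.sum_congr rfl fun i _ => ?_
  have h1 : P.coeff i * (m : ℂ) ^ i = ((m : L) ^ i) • P.coeff i := by
    rw [Algebra.smul_def, map_pow, map_natCast, mul_comm]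
  rw [h1, map_smul, smul_eq_mul, Polynomial.eval_mul, Polynomial.eval_C, Polynomial.eval_pow,
    Polynomial.eval_X, mul_comm]

theorem mapF_coeff {L : Type} [Field L] [Algebra L ℂ] (φ : ℂ →ₗ[L] L) (P : Polynomial ℂ) (i : ℕ) :
    (mapF φ P).coeff i = φ (P.coeff i) := by
  classical
  unfold mapF
  simp only [Polynomial.finsetSum_coeff, Polynomial.coeff_C_mul_X_pow]
  rw [Finset.sum_ite_eq]
  split_ifs with h
  · rfl
  · rw [Finset.mem_range, not_lt] at h
    rw [Polynomial.coeff_eq_zero_of_natDegree_lt (by omega), map_zero]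

theorem exists_phi' {L : Type} [Field L] [Algebra L ℂ] {z : ℂ} (hz : z ≠ 0) :
    ∃ φ : ℂ →ₗ[L] L, φ z ≠ 0 := by
  by_contra hcon
  push Not at hcon
  exact hz ((Module.forall_dual_apply_eq_zero_iff L z).1 hcon)

/-- the parametrisation over a smaller field -/
theorem par_descend {L : Type} [Field L] [CharZero L] [Algebra L ℂ] {x : ℕ → Fin (N + 1) → L}
    (hne : ∀ m, x m ≠ 0) {K : ℕ} (hK : 0 < K) {ρ : ℕ → Fin (N + 1) → Polynomial ℂ}
    (h : ∀ᶠ m : ℕ in atTop, ∃ b : ℂ, b ≠ 0 ∧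
      ∀ j, (ρ (m % K) j).eval (m : ℂ) = b * algebraMap L ℂ (x m j)) :
    ∃ p : ℕ → Fin (N + 1) → Polynomial L,
      ∀ᶠ m : ℕ in atTop, ∃ b : L, b ≠ 0 ∧ ∀ j, (p (m % K) j).eval (m : L) = b * x m j := by
  classical
  obtain ⟨m0, hm0⟩ := eventually_atTop.1 h
  -- the polynomials are not all zero
  have hρ : ∀ a, a < K → ∃ j, ρ a j ≠ 0 := by
    intro a ha
    have hidx : m0 ≤ a + K * m0 ∧ (a + K * m0) % K = a :=
      ⟨by have : m0 ≤ K * m0 := Nat.le_mul_of_pos_left _ hK; omega,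
        by rw [Nat.add_mul_mod_self_left, Nat.mod_eq_of_lt ha]⟩
    obtain ⟨b, hb, hbe⟩ := hm0 _ hidx.1
    obtain ⟨j, hj⟩ := Function.ne_iff.1 (hne (a + K * m0))
    refine ⟨j, fun h0 => ?_⟩
    have h1 := hbe j
    rw [hidx.2, h0, Polynomial.eval_zero] at h1
    exact (mul_ne_zero hb ((map_ne_zero _).2 hj)) h1.symm
  have hφ : ∀ a, ∃ φ : ℂ →ₗ[L] L, a < K → ∃ j, mapF φ (ρ a j) ≠ 0 := by
    intro a
    by_cases ha : a < K
    · obtain ⟨j, hj⟩ := hρ a ha
      obtain ⟨φ, hφ⟩ := exists_phi' (L := L) (Polynomial.leadingCoeff_ne_zero.2 hj)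
      refine ⟨φ, fun _ => ⟨j, fun h0 => hφ ?_⟩⟩
      have h1 := mapF_coeff φ (ρ a j) (ρ a j).natDegree
      rw [h0, Polynomial.coeff_zero] at h1
      exact h1.symm
    · exact ⟨0, fun h => absurd h ha⟩
  choose φ hφ using hφ
  refine ⟨fun a j => mapF (φ a) (ρ a j), ?_⟩
  have hne' : ∀ᶠ m : ℕ in atTop, ∀ a ∈ Finset.range K, ∃ j, (mapF (φ a) (ρ a j)).eval (m : L) ≠ 0 := by
    rw [Finset.eventually_all]
    intro a ha
    obtain ⟨j, hj⟩ := hφ a (Finset.mem_range.1 ha)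
    filter_upwards [eval_ev_ne hj] with m hm
    exact ⟨j, hm⟩
  filter_upwards [h, hne'] with m h1 h2
  obtain ⟨b, hb, hbe⟩ := h1
  have h3 : ∀ j, (mapF (φ (m % K)) (ρ (m % K) j)).eval (m : L) = φ (m % K) b * x m j := by
    intro j
    rw [mapF_eval, hbe, mul_comm, ← Algebra.smul_def, map_smul, smul_eq_mul, mul_comm]
  refine ⟨φ (m % K) b, fun h0 => ?_, h3⟩
  obtain ⟨j, hj⟩ := h2 _ (Finset.mem_range.2 (Nat.mod_lt m hK))
  apply hj
  rw [h3, h0, zero_mul]

/-- the parametrising curves lie in the variety -/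
theorem par_curve {k L : Type} [Field k] [Field L] [CharZero L] [Algebra k L]
    {x : ℕ → Fin (N + 1) → L} {K : ℕ} (hK : 0 < K) {p : ℕ → Fin (N + 1) → Polynomial L}
    (h : ∀ᶠ m : ℕ in atTop, ∃ b : L, b ≠ 0 ∧ ∀ j, (p (m % K) j).eval (m : L) = b * x m j)
    {F : MvPolynomial (Fin (N + 1)) k} {e : ℕ} (he : F.IsHomogeneous e)
    (hF : ∀ᶠ m in atTop, aeval (x m) F = 0) (a : ℕ) (ha : a < K) : aeval (p a) F = 0 := by
  classical
  obtain ⟨m0, hm0⟩ := eventually_atTop.1 (h.and hF)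
  apply Polynomial.eq_zero_of_infinite_isRoot
  refine Set.Infinite.mono (s := (fun i : ℕ => ((a + K * (m0 + i) : ℕ) : L)) '' Set.univ) ?_ ?_
  · rintro _ ⟨i, -, rfl⟩
    have hidx : m0 ≤ a + K * (m0 + i) ∧ (a + K * (m0 + i)) % K = a :=
      ⟨by have : m0 + i ≤ K * (m0 + i) := Nat.le_mul_of_pos_left _ hK; omega,
        by rw [Nat.add_mul_mod_self_left, Nat.mod_eq_of_lt ha]⟩
    obtain ⟨⟨b, hb, hbe⟩, h2⟩ := hm0 _ hidx.1
    rw [hidx.2] at hbe
    change Polynomial.eval _ (aeval (p a) F) = 0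
    rw [Pool.Agent.Y215.AF.aeval_eval, funext hbe]
    have h3 : aeval (fun j => b * x (a + K * (m0 + i)) j) F =
        eval (fun j => b * x (a + K * (m0 + i)) j) (MvPolynomial.map (algebraMap k L) F) := by
      rw [eval_map]
      rfl
    have h4 : aeval (x (a + K * (m0 + i))) F =
        eval (x (a + K * (m0 + i))) (MvPolynomial.map (algebraMap k L) F) := by
      rw [eval_map]
      rfl
    rw [h3, eval_smul_homogL (he.map _), ← h4, h2, mul_zero]
  · refine Set.infinite_univ.image ?_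
    intro i _ i' _ hii
    have h2 : a + K * (m0 + i) = a + K * (m0 + i') := Nat.cast_injective hii
    have h3 : K * (m0 + i) = K * (m0 + i') := by omega
    have h4 := Nat.eq_of_mul_eq_mul_left hK h3
    omega

end Pool.Agent.Q183.RS
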